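import Mathlib

/-!
Definitions for the statement: collinear subsets and subsets in general position.
-/

namespace Pool.Agent.Lib.MP_0c755a_co

/-- The set `Q` of points of the Euclidean plane is in general position: no three of its points
lie on a common line. -/
def GenPos (Q : Finset (EuclideanSpace ℝ (Fin 2))) : Prop :=
  ∀ T : Finset (EuclideanSpace ℝ (Fin 2)), T ⊆ Q → T.card = 3 →
    ¬ Collinear ℝ (T : Set (EuclideanSpace ℝ (Fin 2)))

/-- `P` contains `n` collinear points or a subset of `n` points in general position. -/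
def HasLineOrGP (n : ℕ) (P : Finset (EuclideanSpace ℝ (Fin 2))) : Prop :=
  (∃ Q : Finset (EuclideanSpace ℝ (Fin 2)), Q ⊆ P ∧ Q.card = n ∧
    Collinear ℝ (Q : Set (EuclideanSpace ℝ (Fin 2)))) ∨
  (∃ Q : Finset (EuclideanSpace ℝ (Fin 2)), Q ⊆ P ∧ Q.card = n ∧ GenPos Q)

/-- Gowers' function: the least `N` such that every set of at least `N` points of the plane
contains `n` collinear points or `n` points in general position. -/
noncomputable def gf (n : ℕ) : ℕ :=
  sInf {N : ℕ | ∀ P : Finset (EuclideanSpace ℝ (Fin 2)), N ≤ P.card → HasLineOrGP n P}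

end Pool.Agent.Lib.MP_0c755a_co
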