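import Pool.Agent.Lib.MP_0c755a_co.Sample3

/-!
Independent sets in linear spaces with controlled line sizes.
-/

set_option linter.unusedSectionVars false
set_option linter.unusedVariables false

namespace Pool.Agent.Lib.MP_0c755a_co

open Finset Real Filter

lemma ev_poly (C : ℝ) (k : ℕ) {c : ℝ} (hc : 0 < c) : ∀ᶠ x : ℝ in atTop, C * x ^ k ≤ exp (c * x) := by
  have h := isLittleO_pow_exp_pos_mul_atTop (k := k) hc
  have h1 := h.bound (c := 1 / (|C| + 1)) (by positivity)
  filter_upwards [h1, eventually_ge_atTop (0 : ℝ)] with x hx hx0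
  rw [Real.norm_of_nonneg (by positivity), Real.norm_of_nonneg (exp_pos _).le] at hx
  have h2 : (|C| + 1) * x ^ k ≤ exp (c * x) := by
    rw [one_div, ← div_eq_inv_mul, le_div_iff₀ (by positivity)] at hx
    linarith
  have h3 : C ≤ |C| + 1 := by linarith [le_abs_self C]
  have h4 := mul_le_mul_of_nonneg_right h3 (show 0 ≤ x ^ k by positivity)
  linarith

/-- all conditions hold for large `x` -/
lemma ev_conditions (C : ℝ) (hC : 1 ≤ C) : ∀ᶠ x : ℝ in atTop,
    (2 * C * x + C ^ 2 * x ^ 2) * (C * x) * 8 ≤ exp (1 / 15 * x) ∧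
    (2 * C * x + C ^ 2 * x ^ 2) * (C * x) ^ 2 * 8 ≤ exp (2 / 75 * x) ∧
    3 * x + 3 ≤ exp (1 / 50 * x) ∧
    73 * 96 * C * x ≤ 4 * exp (1 / 100 * x) ∧
    9 * x * (96 * C * x) ≤ 4 * exp (1 / 100 * x) ∧
    200 ≤ x := by
  filter_upwards [ev_poly (8 * 3 * C ^ 3) 3 (c := 1 / 15) (by norm_num),
    ev_poly (8 * 3 * C ^ 4) 4 (c := 2 / 75) (by norm_num),
    ev_poly 6 1 (c := 1 / 50) (by norm_num),
    ev_poly (73 * 96 * C) 1 (c := 1 / 100) (by norm_num),
    ev_poly (9 * 96 * C) 2 (c := 1 / 100) (by norm_num),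
    eventually_ge_atTop (200 : ℝ)] with x h1 h2 h3 h4 h5 h6
  have hx0 : 0 < x := by linarith
  have hC0 : 0 < C := by linarith
  have hq : 2 * C * x + C ^ 2 * x ^ 2 ≤ 3 * C ^ 2 * x ^ 2 := by
    have : C * x ≤ (C * x) ^ 2 := by
      have h7 : 1 ≤ C * x := by nlinarith
      nlinarith
    nlinarith
  refine ⟨?_, ?_, ?_, ?_, ?_, h6⟩
  · have h7 : (2 * C * x + C ^ 2 * x ^ 2) * (C * x) * 8 ≤ (3 * C ^ 2 * x ^ 2) * (C * x) * 8 := by
      apply mul_le_mul_of_nonneg_right _ (by norm_num)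
      exact mul_le_mul_of_nonneg_right hq (by positivity)
    calc _ ≤ _ := h7
      _ = 8 * 3 * C ^ 3 * x ^ 3 := by ring
      _ ≤ _ := h1
  · have h7 : (2 * C * x + C ^ 2 * x ^ 2) * (C * x) ^ 2 * 8
        ≤ (3 * C ^ 2 * x ^ 2) * (C * x) ^ 2 * 8 := by
      apply mul_le_mul_of_nonneg_right _ (by norm_num)
      exact mul_le_mul_of_nonneg_right hq (by positivity)
    calc _ ≤ _ := h7
      _ = 8 * 3 * C ^ 4 * x ^ 4 := by ring
      _ ≤ _ := h2
  · rw [pow_one] at h3
    linarith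
  · rw [pow_one] at h4
    have := exp_pos (1 / 100 * x)
    linarith
  · have := exp_pos (1 / 100 * x)
    calc 9 * x * (96 * C * x) = 9 * 96 * C * x ^ 2 := by ring
      _ ≤ exp (1 / 100 * x) := h5
      _ ≤ _ := by linarith

section LinSpace

variable {V : Type*} [Fintype V] [DecidableEq V]

lemma card_lines_le {L : Finset (Finset V)} (hL : Lin L) (h2 : ∀ l ∈ L, 2 ≤ l.card) :
    L.card ≤ Fintype.card V ^ 2 := by
  classical
  rcases L.eq_empty_or_nonempty with h0 | ⟨l0, hl0⟩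
  · rw [h0]; simp
  have hex : ∀ l ∈ L, ∃ xy : V × V, xy.1 ∈ l ∧ xy.2 ∈ l ∧ xy.1 ≠ xy.2 := by
    intro l hl
    obtain ⟨x, hx, y, hy, hxy⟩ := one_lt_card.mp (h2 l hl)
    exact ⟨(x, y), hx, hy, hxy⟩
  have hne : Nonempty (V × V) := by
    obtain ⟨xy, _⟩ := hex l0 hl0
    exact ⟨xy⟩
  choose! f hf using hex
  have h1 : L.card ≤ (univ : Finset (V × V)).card := by
    apply card_le_card_of_injOn f (fun _ _ => mem_coe.mpr (mem_univ _))
    intro l hl l' hl' he
    have a1 := hf l hl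
    have a2 := hf l' hl'
    rw [← he] at a2
    exact hL l hl l' hl' _ _ a1.2.2 a1.1 a1.2.1 a2.1 a2.2.1
  rw [card_univ, Fintype.card_prod] at h1
  rw [pow_two]; exact h1

theorem linear_space_core (C x : ℝ) (hC : 1 ≤ C)
    (hcond : (2 * C * x + C ^ 2 * x ^ 2) * (C * x) * 8 ≤ exp (1 / 15 * x) ∧
    (2 * C * x + C ^ 2 * x ^ 2) * (C * x) ^ 2 * 8 ≤ exp (2 / 75 * x) ∧
    3 * x + 3 ≤ exp (1 / 50 * x) ∧
    73 * 96 * C * x ≤ 4 * exp (1 / 100 * x) ∧
    9 * x * (96 * C * x) ≤ 4 * exp (1 / 100 * x) ∧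
    200 ≤ x) {L : Finset (Finset V)} (hL : Lin L) (h2 : ∀ l ∈ L, 2 ≤ l.card)
    (hN : (Fintype.card V : ℝ) = exp x) (hR : ∀ l ∈ L, (l.card : ℝ) ≤ exp (x / 2))
    (hB : ∀ v, ∑ l ∈ Lv L v, (l.card : ℝ) ^ 2 ≤ C * x * exp x) :
    ∃ S : Finset V, (∀ l ∈ L, (S ∩ l).card ≤ 2) ∧ exp (x / 2) / (614400 * C) ≤ (S.card : ℝ) := by
  classical
  obtain ⟨c1, c2, c3, c4, c5, c6⟩ := hcond
  have hx0 : 0 < x := by linarith
  have hC0 : 0 < C := by linarith
  set t := exp (1 / 3 * x) with ht
  have ht0 : 0 < t := exp_pos _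
  set B := C * x * exp x with hBdef
  have hB0 : 0 ≤ B := by positivity
  set K := 2 * t * B + (B / t) ^ 2 with hK
  have hK0 : 0 ≤ K := by positivity
  have hKe : K = (2 * C * x + C ^ 2 * x ^ 2) * exp (4 / 3 * x) := by
    have e1 : t * exp x = exp (4 / 3 * x) := by rw [ht, ← exp_add]; congr 1; ring
    have e2 : (exp x / t) ^ 2 = exp (4 / 3 * x) := by
      rw [ht, ← exp_sub, ← exp_nat_mul]; congr 1; push_cast; ring
    have e3 : B / t = C * x * (exp x / t) := by rw [hBdef]; ring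
    rw [hK, e3, hBdef, mul_pow, e2]
    calc 2 * t * (C * x * exp x) + (C * x) ^ 2 * exp (4 / 3 * x)
        = 2 * C * x * (t * exp x) + (C * x) ^ 2 * exp (4 / 3 * x) := by ring
      _ = _ := by rw [e1]; ring
  have hkap : ∀ u v, kap L u v ≤ K := fun u v => kap_le hL ht0 hB0 hB u v
  set p := exp (-(12 / 25) * x) with hp
  have hp0 : 0 ≤ p := (exp_pos _).le
  have hp1 : p ≤ 1 := by
    rw [hp]; apply exp_le_one_iff.mpr; linarith
  set D := 4 * exp (1 / 50 * x) with hD
  have hD0 : 0 < D := by positivity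
  set Λ := C * x with hΛ
  have hΛ0 : 0 < Λ := by positivity
  obtain ⟨A, hG, hsize, hdeg, hcard⟩ := exists_girth5 hL (D := D) (Λ := Λ) hp0 hp1 hD0 hΛ0 hkap hK0
    hB0 hB hR
  rw [hN] at hcard
  have hpN : p * exp x = exp (13 / 25 * x) := by rw [hp, ← exp_add]; congr 1; ring
  -- the four error terms
  have t1 : p ^ 6 * (K * (exp x * B)) ≤ exp (13 / 25 * x) / 8 := by
    have e1 : p ^ 6 * (K * (exp x * B))
        = ((2 * C * x + C ^ 2 * x ^ 2) * (C * x) * 8) * (exp (34 / 75 * x) / 8) := by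
      rw [hKe, hBdef, hp, ← exp_nat_mul]
      have : exp ((6 : ℕ) * (-(12 / 25) * x)) * (exp (4 / 3 * x) * (exp x * exp x))
          = exp (34 / 75 * x) := by
        rw [← exp_add, ← exp_add, ← exp_add]; congr 1; push_cast; ring
      rw [← this]; ring
    rw [e1]
    have e2 : exp (13 / 25 * x) / 8 = exp (1 / 15 * x) * (exp (34 / 75 * x) / 8) := by
      have : exp (13 / 25 * x) = exp (1 / 15 * x) * exp (34 / 75 * x) := by
        rw [← exp_add]; congr 1; ring
      rw [this]; ring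
    rw [e2]
    exact mul_le_mul_of_nonneg_right c1 (by positivity)
  have t2 : p ^ 8 * (K * (exp x * B ^ 2)) ≤ exp (13 / 25 * x) / 8 := by
    have e1 : p ^ 8 * (K * (exp x * B ^ 2))
        = ((2 * C * x + C ^ 2 * x ^ 2) * (C * x) ^ 2 * 8) * (exp (37 / 75 * x) / 8) := by
      rw [hKe, hBdef, hp, ← exp_nat_mul]
      have : exp ((8 : ℕ) * (-(12 / 25) * x)) * (exp (4 / 3 * x) * (exp x * (exp x * exp x)))
          = exp (37 / 75 * x) := by
        rw [← exp_add, ← exp_add, ← exp_add, ← exp_add]; congr 1; push_cast; ring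
      rw [← this]; ring
    rw [e1]
    have e2 : exp (13 / 25 * x) / 8 = exp (2 / 75 * x) * (exp (37 / 75 * x) / 8) := by
      have : exp (13 / 25 * x) = exp (2 / 75 * x) * exp (37 / 75 * x) := by
        rw [← exp_add]; congr 1; ring
      rw [this]; ring
    rw [e2]
    exact mul_le_mul_of_nonneg_right c2 (by positivity)
  have t3 : p ^ 3 * exp x * B / (2 * (D ^ 2 * Λ)) ≤ exp (13 / 25 * x) / 8 := by
    have e1 : p ^ 3 * exp x * B / (2 * (D ^ 2 * Λ)) = exp (13 / 25 * x) / 32 := by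
      rw [hBdef, hΛ, hp, hD, ← exp_nat_mul]
      have h1 : (4 * exp (1 / 50 * x)) ^ 2 = 16 * exp (1 / 25 * x) := by
        rw [mul_pow, ← exp_nat_mul]; congr 1
        · norm_num
        · congr 1; push_cast; ring
      rw [h1]
      have h2 : exp ((3 : ℕ) * (-(12 / 25) * x)) * exp x * exp x
          = exp (13 / 25 * x) * exp (1 / 25 * x) := by
        rw [← exp_add, ← exp_add, ← exp_add]; congr 1; push_cast; ring
      have h3 : exp ((3 : ℕ) * (-(12 / 25) * x)) * exp x * (C * x * exp x)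
          = C * x * (exp ((3 : ℕ) * (-(12 / 25) * x)) * exp x * exp x) := by ring
      rw [h3, h2]
      have := exp_pos (1 / 25 * x)
      field_simp
      norm_num
    rw [e1]
    have := exp_pos (13 / 25 * x)
    linarith
  have hLcard : (L.card : ℝ) ≤ exp (2 * x) := by
    have h1 := card_lines_le hL h2
    have h3 : (L.card : ℝ) ≤ (Fintype.card V : ℝ) ^ 2 := by exact_mod_cast h1
    rw [hN] at h3
    refine h3.trans (le_of_eq ?_)
    rw [← exp_nat_mul]; push_cast; ring_nf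
  have hlog2 : (0.69 : ℝ) < Real.log 2 := by
    have := Real.log_two_gt_d9
    linarith
  have hE50 : 0 < exp (1 / 50 * x) := exp_pos _
  have t4 : exp x * (L.card : ℝ) * exp (p * exp (x / 2) - D * Real.log 2)
      ≤ exp (13 / 25 * x) / 8 := by
    have e1 : p * exp (x / 2) = exp (1 / 50 * x) := by rw [hp, ← exp_add]; congr 1; ring
    rw [e1]
    have h1 : exp x * (L.card : ℝ) * exp (exp (1 / 50 * x) - D * Real.log 2)
        ≤ exp x * exp (2 * x) * exp (exp (1 / 50 * x) - D * Real.log 2) := by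
      apply mul_le_mul_of_nonneg_right _ (exp_pos _).le
      exact mul_le_mul_of_nonneg_left hLcard (exp_pos _).le
    refine h1.trans ?_
    rw [← exp_add, ← exp_add]
    have h3 : x + 2 * x + (exp (1 / 50 * x) - D * Real.log 2) ≤ -3 := by
      have h4 : D * 0.69 ≤ D * Real.log 2 := mul_le_mul_of_nonneg_left hlog2.le hD0.le
      have h5 : D = 4 * exp (1 / 50 * x) := hD
      linarith
    have h6 : exp (x + 2 * x + (exp (1 / 50 * x) - D * Real.log 2)) ≤ exp (-3) :=
      exp_le_exp.mpr h3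
    have h7 : exp (-3 : ℝ) ≤ 1 / 8 := by
      rw [exp_neg, ← one_div]
      apply div_le_div_of_nonneg_left (by norm_num) (by norm_num)
      have h8 : exp (3 : ℝ) = exp 1 ^ 3 := by rw [← exp_nat_mul]; norm_num
      rw [h8]
      have h9 := exp_one_gt_d9
      have h10 : (2 : ℝ) ^ 3 ≤ exp 1 ^ 3 := pow_le_pow_left₀ (by norm_num) (by linarith) 3
      linarith
    have h8 : 1 ≤ exp (13 / 25 * x) := one_le_exp (by positivity)
    linarith
  have hA : exp (13 / 25 * x) / 2 ≤ (A.card : ℝ) := by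
    rw [hpN] at hcard
    linarith
  -- the nibble
  set T := ⌊x / 100⌋₊ with hT
  have hTle : (T : ℝ) ≤ x / 100 := Nat.floor_le (by positivity)
  have hTge : x / 200 ≤ (T : ℝ) := by
    have := Nat.lt_floor_add_one (x / 100)
    have h7 : x / 100 < (T : ℝ) + 1 := this
    linarith
  set ζ := 1 / (96 * Λ) with hζ
  have hζ0 : 0 < ζ := by positivity
  have hpow2 : (2 : ℝ) ^ T ≤ exp (1 / 100 * x) := by
    have h1 : (2 : ℝ) ^ T ≤ exp 1 ^ T := by
      apply pow_le_pow_left₀ (by norm_num)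
      have := exp_one_gt_d9
      linarith
    have h3 : exp 1 ^ T = exp (T : ℝ) := by rw [← exp_nat_mul, mul_one]
    rw [h3] at h1
    refine h1.trans (exp_le_exp.mpr ?_)
    linarith
  have hDe : D = 4 * (exp (1 / 100 * x) * exp (1 / 100 * x)) := by
    rw [hD, ← exp_add]; congr 2; ring
  have hE100 : 0 < exp (1 / 100 * x) := exp_pos _
  have hD1 : 1 ≤ D := by
    have h1 : 1 ≤ exp (1 / 50 * x) := one_le_exp (by positivity)
    have h5 : D = 4 * exp (1 / 50 * x) := hD
    linarith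
  have hrichcard : ((rich L A).card : ℝ) ≤ exp (2 * x) := by
    refine le_trans ?_ hLcard
    have : (rich L A).card ≤ L.card := (card_filter_le _ _).trans card_image_le
    exact_mod_cast this
  obtain ⟨S, hSA, hS2, hScard⟩ := nibble (L := rich L A) hG (A := A) (D := D) (Λ := Λ) (ζ := ζ)
    (H := 3 * x) (T := T) hD1 hΛ0 hζ (by rw [hΛ]; nlinarith)
    (by
      rw [hζ, hΛ, mul_one_div, div_le_iff₀ (by positivity)]
      nlinarith)
    (by positivity)
    (by
      have h1 : ζ * D = 4 * (exp (1 / 100 * x) * exp (1 / 100 * x)) / (96 * (C * x)) := by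
        rw [hζ, hDe, hΛ]; ring
      rw [h1, le_div_iff₀ (by positivity)]
      calc 73 * 2 ^ T * (96 * (C * x)) = 2 ^ T * (73 * 96 * C * x) := by ring
        _ ≤ exp (1 / 100 * x) * (4 * exp (1 / 100 * x)) :=
            mul_le_mul hpow2 c4 (by positivity) hE100.le
        _ = _ := by ring)
    (by
      have h1 : ζ * D = 4 * (exp (1 / 100 * x) * exp (1 / 100 * x)) / (96 * (C * x)) := by
        rw [hζ, hDe, hΛ]; ring
      rw [h1, le_div_iff₀ (by positivity)]
      calc 3 * (3 * x) * 2 ^ T * (96 * (C * x)) = 2 ^ T * (9 * x * (96 * C * x)) := by ring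
        _ ≤ exp (1 / 100 * x) * (4 * exp (1 / 100 * x)) :=
            mul_le_mul hpow2 c5 (by positivity) hE100.le
        _ = _ := by ring)
    (by
      have h1 : Λ / 2 + 1 ≤ exp (Λ / 2) := add_one_le_exp _
      have h3 : x ≤ Λ := by rw [hΛ]; nlinarith
      linarith)
    (by
      have h1 : 8 * 2 ^ T * ((rich L A).card : ℝ) ≤ exp 3 * exp (1 / 100 * x) * exp (2 * x) := by
        have h8 : (8 : ℝ) ≤ exp 3 := by
          have h8 : exp (3 : ℝ) = exp 1 ^ 3 := by rw [← exp_nat_mul]; norm_num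
          rw [h8]
          have h9 := exp_one_gt_d9
          have h10 : (2 : ℝ) ^ 3 ≤ exp 1 ^ 3 := pow_le_pow_left₀ (by norm_num) (by linarith) 3
          linarith
        apply mul_le_mul _ hrichcard (Nat.cast_nonneg _) (by positivity)
        exact mul_le_mul h8 hpow2 (by positivity) (by positivity)
      refine h1.trans ?_
      rw [← exp_add, ← exp_add]
      apply exp_le_exp.mpr
      linarith)
    hsize hdeg
  refine ⟨S, ?_, ?_⟩
  · intro l hl
    by_cases h3 : 3 ≤ (l ∩ A).card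
    · have hmem : l ∩ A ∈ rich L A := by
        unfold rich
        rw [mem_filter, mem_image]
        exact ⟨⟨l, hl, rfl⟩, h3⟩
      have h4 := hS2 _ hmem
      have h5 : S ∩ l = S ∩ (l ∩ A) := by
        ext u
        simp only [mem_inter]
        constructor
        · rintro ⟨a1, a2⟩; exact ⟨a1, a2, hSA a1⟩
        · rintro ⟨a1, a2, _⟩; exact ⟨a1, a2⟩
      rw [h5]; exact h4
    · have h4 : S ∩ l ⊆ l ∩ A := by
        intro u hu
        rw [mem_inter] at hu ⊢
        exact ⟨hu.2, hSA hu.1⟩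
      have := card_le_card h4
      omega
  · refine le_trans ?_ hScard
    have h1 : (T : ℝ) * ζ * (A.card : ℝ) / (4 * D)
        ≥ (x / 200) * ζ * (exp (13 / 25 * x) / 2) / (4 * D) := by
      apply div_le_div_of_nonneg_right _ (by positivity)
      apply mul_le_mul _ hA (by positivity) (by positivity)
      exact mul_le_mul_of_nonneg_right hTge hζ0.le
    refine le_trans (le_of_eq ?_) h1
    have h3 : exp (13 / 25 * x) = exp (x / 2) * exp (1 / 50 * x) := by
      rw [← exp_add]; congr 1; ring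
    rw [hζ, hΛ, hD, h3]
    field_simp
    norm_num

end LinSpace

end Pool.Agent.Lib.MP_0c755a_co
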