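import Pool.Agent.Lib.MP_0c755a_co.ST
import Pool.Agent.Lib.MP_0c755a_co.LinSpace

/-!
Lines spanned by a planar point set.
-/

set_option linter.unusedSectionVars false
set_option linter.unusedVariables false

namespace Pool.Agent.Lib.MP_0c755a_co

open Finset

section Geo

variable {V : Type*} [Fintype V] [DecidableEq V] (a b : V → ℝ)

/-- orientation determinant -/
def dt (u v w : V) : ℝ := (a v - a u) * (b w - b u) - (b v - b u) * (a w - a u)

/-- the coordinates determine the point -/
def Inj2 : Prop := ∀ u v, a u = a v → b u = b v → u = v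

open Classical in
/-- lines with at least three points -/
noncomputable def LL : Finset (Finset V) :=
  univ.filter (fun l => 3 ≤ l.card ∧ ∃ u v, u ≠ v ∧ ∀ w, w ∈ l ↔ dt a b u v w = 0)

variable {a b}

lemma mem_LL {l : Finset V} :
    l ∈ LL a b ↔ 3 ≤ l.card ∧ ∃ u v, u ≠ v ∧ ∀ w, w ∈ l ↔ dt a b u v w = 0 := by
  classical
  unfold LL; rw [mem_filter]; simp

lemma dt_iff (h : Inj2 a b) {u v x y : V} (huv : u ≠ v) (hxy : x ≠ y) (hx : dt a b u v x = 0)
    (hy : dt a b u v y = 0) (w : V) : dt a b u v w = 0 ↔ dt a b x y w = 0 := by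
  unfold dt at *
  by_cases ha : a v - a u = 0
  · have hb : b v - b u ≠ 0 := by
      intro hb
      exact huv (h u v (by linarith) (by linarith))
    have ex : a x - a u = 0 := by
      rw [ha] at hx
      have : (b v - b u) * (a x - a u) = 0 := by linarith
      exact (mul_eq_zero.mp this).resolve_left hb
    have ey : a y - a u = 0 := by
      rw [ha] at hy
      have : (b v - b u) * (a y - a u) = 0 := by linarith
      exact (mul_eq_zero.mp this).resolve_left hb
    have hbxy : b y - b x ≠ 0 := by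
      intro hb'
      exact hxy (h x y (by linarith) (by linarith))
    have e1 : a y - a x = 0 := by linarith
    rw [ha, e1]
    have e2 : a w - a x = a w - a u := by linarith
    rw [e2]
    constructor
    · intro h1
      have : (b v - b u) * (a w - a u) = 0 := by linarith
      have := (mul_eq_zero.mp this).resolve_left hb
      rw [this]; ring
    · intro h1
      have : (b y - b x) * (a w - a u) = 0 := by linarith
      have := (mul_eq_zero.mp this).resolve_left hbxy
      rw [this]; ring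
  · have key : (a v - a u) * ((a y - a x) * (b w - b x) - (b y - b x) * (a w - a x))
        = (a y - a x) * ((a v - a u) * (b w - b u) - (b v - b u) * (a w - a u)) := by
      linear_combination (a w - a x) * (hx - hy) - (a y - a x) * hx
    have hay : a y - a x ≠ 0 := by
      intro h0
      have h1 : (a v - a u) * (b y - b x) = 0 := by
        linear_combination hy - hx + (b v - b u) * h0
      have h2 := (mul_eq_zero.mp h1).resolve_left ha
      exact hxy (h x y (by linarith) (by linarith))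
    constructor
    · intro h1
      rw [h1, mul_zero] at key
      exact (mul_eq_zero.mp key).resolve_left ha
    · intro h1
      rw [h1, mul_zero] at key
      exact (mul_eq_zero.mp key.symm).resolve_left hay

lemma line_eq (h : Inj2 a b) {l : Finset V} (hl : l ∈ LL a b) {x y : V} (hxy : x ≠ y)
    (hx : x ∈ l) (hy : y ∈ l) (w : V) : w ∈ l ↔ dt a b x y w = 0 := by
  obtain ⟨_, u, v, huv, hl'⟩ := mem_LL.mp hl
  rw [hl' w]
  exact dt_iff h huv hxy ((hl' x).mp hx) ((hl' y).mp hy) w

lemma lin_LL (h : Inj2 a b) : Lin (LL a b) := by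
  intro l hl m hm x y hxy h1 h2 h3 h4
  ext w
  rw [line_eq h hl hxy h1 h2, line_eq h hm hxy h3 h4]

/-- a generic shear -/
lemma exists_shear (h : Inj2 a b) : ∃ t : ℝ, Function.Injective (fun v => a v + t * b v) := by
  classical
  set Bad : Finset ℝ := (univ : Finset (V × V)).image (fun uv => (a uv.2 - a uv.1) / (b uv.1 - b uv.2))
    with hBad
  obtain ⟨t, ht⟩ := Infinite.exists_notMem_finset Bad
  refine ⟨t, ?_⟩
  intro u v huv
  simp only at huv
  by_cases hb : b u = b v
  · apply h u v _ hb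
    rw [hb] at huv; linarith
  · exfalso
    apply ht
    rw [hBad, mem_image]
    refine ⟨(u, v), mem_univ _, ?_⟩
    have : b u - b v ≠ 0 := sub_ne_zero.mpr hb
    simp only
    rw [div_eq_iff this]
    linarith

/-- rich lines bound for a general point set -/
lemma rich_bound (h : Inj2 a b) (k : ℕ) (hk : 2 ≤ k) :
    (((LL a b).filter (fun l => k ≤ l.card)).card : ℝ) * ((k : ℝ) - 1)
      ≤ 4 * (Fintype.card V : ℝ) ∨
    (((LL a b).filter (fun l => k ≤ l.card)).card : ℝ) * ((k : ℝ) - 1) ^ 3
      ≤ 64 * (Fintype.card V : ℝ) ^ 2 := by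
  classical
  obtain ⟨t, ht⟩ := exists_shear h
  set X : V → ℝ := fun v => a v + t * b v with hX
  have hex : ∀ l ∈ (LL a b).filter (fun l => k ≤ l.card), ∃ lam : ℝ × ℝ, l = pts X b lam := by
    intro l hl
    rw [mem_filter] at hl
    obtain ⟨_, u, v, huv, hl'⟩ := mem_LL.mp hl.1
    have hXne : X v - X u ≠ 0 := by
      intro h0
      exact huv (ht (by simp only [hX] at h0 ⊢; linarith))
    refine ⟨((b v - b u) / (X v - X u), b u - (b v - b u) / (X v - X u) * X u), ?_⟩
    ext w
    rw [hl' w, mem_pts]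
    simp only
    have e1 : dt a b u v w = (X v - X u) * (b w - b u) - (b v - b u) * (X w - X u) := by
      simp only [dt, hX]; ring
    rw [e1]
    have e2 : (b v - b u) / (X v - X u) * X w + (b u - (b v - b u) / (X v - X u) * X u)
        = b u + (b v - b u) * (X w - X u) / (X v - X u) := by ring
    rw [e2]
    constructor
    · intro h1
      have : (b v - b u) * (X w - X u) = (b w - b u) * (X v - X u) := by linarith
      rw [this]
      field_simp
      ring
    · intro h1
      rw [h1]
      field_simp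
      ring
  choose! g hg using hex
  have hcard : (((LL a b).filter (fun l => k ≤ l.card)).image g).card
      = ((LL a b).filter (fun l => k ≤ l.card)).card := by
    apply card_image_of_injOn
    intro l hl l' hl' he
    rw [mem_coe] at hl hl'
    rw [hg l hl, hg l' hl', he]
  rw [← hcard]
  apply szt ht (((LL a b).filter (fun l => k ≤ l.card)).image g) k hk
  intro lam hlam
  rw [mem_image] at hlam
  obtain ⟨l, hl, rfl⟩ := hlam
  rw [← hg l hl]
  exact (mem_filter.mp hl).2

lemma cube_le_sum (n : ℕ) : (n : ℝ) ^ 3 ≤ ∑ k ∈ Icc 1 n, 3 * (k : ℝ) ^ 2 := by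
  induction n with
  | zero => simp
  | succ n ih =>
    rw [sum_Icc_succ_top (by omega)]
    push_cast
    have : (0 : ℝ) ≤ n := Nat.cast_nonneg _
    nlinarith

lemma sum_inv_le (m : ℕ) : ∑ k ∈ Icc 1 m, (1 : ℝ) / (k : ℝ) ≤ 1 + Real.log m := by
  have h := harmonic_le_one_add_log m
  rw [harmonic_eq_sum_Icc] at h
  push_cast at h
  simpa [one_div] using h

/-- the cubic sum over lines -/
lemma sum_cubes (h : Inj2 a b) (hN : (3 : ℝ) ≤ (Fintype.card V : ℝ))
    (hs : ∀ l ∈ LL a b, l.card ^ 2 ≤ Fintype.card V) :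
    ∑ l ∈ LL a b, (l.card : ℝ) ^ 3
      ≤ 3200 * (Fintype.card V : ℝ) ^ 2 * Real.log (Fintype.card V : ℝ) := by
  classical
  set N : ℝ := (Fintype.card V : ℝ) with hNdef
  set m := Nat.sqrt (Fintype.card V) with hm
  have hlm : ∀ l ∈ LL a b, l.card ≤ m := by
    intro l hl
    rw [hm, Nat.le_sqrt]
    have := hs l hl
    rw [pow_two] at this
    exact this
  have h1 : ∀ l ∈ LL a b, (l.card : ℝ) ^ 3
      ≤ ∑ k ∈ Icc 1 m, if k ≤ l.card then 3 * (k : ℝ) ^ 2 else 0 := by
    intro l hl
    refine (cube_le_sum l.card).trans ?_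
    rw [← sum_filter]
    apply sum_le_sum_of_subset_of_nonneg
    · intro k hk
      rw [mem_Icc] at hk
      rw [mem_filter, mem_Icc]
      exact ⟨⟨hk.1, hk.2.trans (hlm l hl)⟩, hk.2⟩
    · intro k _ _
      positivity
  have h2 : ∑ l ∈ LL a b, (l.card : ℝ) ^ 3
      ≤ ∑ k ∈ Icc 1 m, 3 * (k : ℝ) ^ 2 * (((LL a b).filter (fun l => k ≤ l.card)).card : ℝ) := by
    refine (sum_le_sum h1).trans (le_of_eq ?_)
    rw [sum_comm]
    apply sum_congr rfl
    intro k _
    rw [← sum_filter, sum_const, nsmul_eq_mul]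
    ring
  have h3 : ∀ k ∈ Icc 1 m, 3 * (k : ℝ) ^ 2 * (((LL a b).filter (fun l => k ≤ l.card)).card : ℝ)
      ≤ 24 * N * k + 1536 * N ^ 2 * (1 / (k : ℝ)) := by
    intro k hk
    rw [mem_Icc] at hk
    rcases Nat.lt_or_ge 1 k with hk2 | hk1
    · -- k ≥ 2
      have hk2' : (2 : ℝ) ≤ k := by exact_mod_cast hk2
      have hkh : (k : ℝ) / 2 ≤ (k : ℝ) - 1 := by linarith
      set M : ℝ := (((LL a b).filter (fun l => k ≤ l.card)).card : ℝ) with hM
      have hM0 : 0 ≤ M := Nat.cast_nonneg _
      have hN0 : 0 ≤ N := by linarith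
      rcases rich_bound h k (by omega) with hc | hc
      · have h4 : M * ((k : ℝ) / 2) ≤ 4 * N := by
          have := mul_le_mul_of_nonneg_left hkh hM0
          linarith
        have h5 : 3 * (k : ℝ) ^ 2 * M ≤ 24 * N * k := by nlinarith
        have h6 : 0 ≤ 1536 * N ^ 2 * (1 / (k : ℝ)) := by positivity
        linarith
      · have h4 : M * ((k : ℝ) / 2) ^ 3 ≤ 64 * N ^ 2 := by
          have h5 : ((k : ℝ) / 2) ^ 3 ≤ ((k : ℝ) - 1) ^ 3 :=
            pow_le_pow_left₀ (by positivity) hkh 3
          have := mul_le_mul_of_nonneg_left h5 hM0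
          linarith
        have h5 : 3 * (k : ℝ) ^ 2 * M ≤ 1536 * N ^ 2 * (1 / (k : ℝ)) := by
          rw [mul_one_div, le_div_iff₀ (by positivity)]
          nlinarith
        have h6 : 0 ≤ 24 * N * k := by positivity
        linarith
    · have hk1' : k = 1 := by omega
      subst hk1'
      have h4 : ((LL a b).filter (fun l => 1 ≤ l.card)).card
          ≤ ((LL a b).filter (fun l => 2 ≤ l.card)).card := by
        apply card_le_card
        intro l hl
        rw [mem_filter] at hl ⊢
        have := (mem_LL.mp hl.1).1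
        exact ⟨hl.1, by omega⟩
      have h5 : (((LL a b).filter (fun l => 1 ≤ l.card)).card : ℝ)
          ≤ (((LL a b).filter (fun l => 2 ≤ l.card)).card : ℝ) := by exact_mod_cast h4
      have hN0 : 0 ≤ N := by linarith
      have h6 : (((LL a b).filter (fun l => 2 ≤ l.card)).card : ℝ) ≤ 4 * N + 64 * N ^ 2 := by
        rcases rich_bound h 2 le_rfl with hc | hc
        · norm_num at hc
          have := sq_nonneg N
          linarith
        · norm_num at hc
          linarith
      push_cast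
      nlinarith [sq_nonneg N]
  have h4 := h2.trans (sum_le_sum h3)
  rw [sum_add_distrib, ← mul_sum, ← mul_sum] at h4
  have hmN : (m : ℝ) * m ≤ N := by
    have h0 := Nat.sqrt_le (Fintype.card V)
    rw [← hm] at h0
    rw [hNdef]
    exact_mod_cast h0
  have hm0 : (0 : ℝ) ≤ m := Nat.cast_nonneg _
  have h5 : ∑ k ∈ Icc 1 m, (k : ℝ) ≤ N := by
    have : ∑ k ∈ Icc 1 m, (k : ℝ) ≤ ∑ k ∈ Icc 1 m, (m : ℝ) := by
      apply sum_le_sum
      intro k hk
      rw [mem_Icc] at hk
      exact_mod_cast hk.2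
    rw [sum_const, nsmul_eq_mul, Nat.card_Icc] at this
    simp only [Nat.add_sub_cancel] at this
    linarith
  have h6 := sum_inv_le m
  have hN3 : (1 : ℝ) ≤ Real.log N := by
    rw [Real.le_log_iff_exp_le (by linarith)]
    have := Real.exp_one_lt_d9
    linarith
  have h7 : Real.log m ≤ Real.log N := by
    rcases Nat.eq_zero_or_pos m with h0 | h0
    · rw [h0]; simp; linarith
    · apply Real.log_le_log (by exact_mod_cast h0)
      have : (1 : ℝ) ≤ m := by exact_mod_cast h0
      nlinarith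
  have h8 : 24 * N * ∑ k ∈ Icc 1 m, (k : ℝ) ≤ 24 * N * N :=
    mul_le_mul_of_nonneg_left h5 (by linarith)
  have h9 : 1536 * N ^ 2 * ∑ k ∈ Icc 1 m, (1 : ℝ) / (k : ℝ) ≤ 1536 * N ^ 2 * (1 + Real.log N) :=
    mul_le_mul_of_nonneg_left (by linarith) (by positivity)
  have h10 : 24 * N * N + 1536 * N ^ 2 * (1 + Real.log N) ≤ 3200 * N ^ 2 * Real.log N := by
    have : N ^ 2 * 1 ≤ N ^ 2 * Real.log N := mul_le_mul_of_nonneg_left hN3 (sq_nonneg N)
    nlinarith
  linarith

/-- degree sum -/
lemma sum_deg (L : Finset (Finset V)) :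
    ∑ v, ∑ l ∈ Lv L v, (l.card : ℝ) ^ 2 = ∑ l ∈ L, (l.card : ℝ) ^ 3 := by
  unfold Lv
  have h1 : ∀ v : V, ∑ l ∈ L.filter (fun l => v ∈ l), (l.card : ℝ) ^ 2
      = ∑ l ∈ L, if v ∈ l then (l.card : ℝ) ^ 2 else 0 := by
    intro v
    rw [sum_filter]
  rw [sum_congr rfl (fun v _ => h1 v), sum_comm]
  apply sum_congr rfl
  intro l _
  rw [sum_ite_mem_card]; ring

/-- many points of moderate degree -/
lemma good_points (h : Inj2 a b) (hN : (3 : ℝ) ≤ (Fintype.card V : ℝ))
    (hs : ∀ l ∈ LL a b, l.card ^ 2 ≤ Fintype.card V) :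
    ∃ W : Finset V, (Fintype.card V : ℝ) / 2 ≤ (W.card : ℝ) ∧
      ∀ v ∈ W, ∑ l ∈ Lv (LL a b) v, (l.card : ℝ) ^ 2
        ≤ 6400 * (Fintype.card V : ℝ) * Real.log (Fintype.card V : ℝ) := by
  classical
  set N : ℝ := (Fintype.card V : ℝ) with hNdef
  set Q : ℝ := 6400 * N * Real.log N with hQ
  have hN3 : (1 : ℝ) ≤ Real.log N := by
    rw [Real.le_log_iff_exp_le (by linarith)]
    have := Real.exp_one_lt_d9
    linarith
  have hQ0 : 0 < Q := by
    have : 0 < N := by linarith
    positivity
  set Wb := (univ : Finset V).filter (fun v => ¬ ∑ l ∈ Lv (LL a b) v, (l.card : ℝ) ^ 2 ≤ Q)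
    with hWb
  set W := (univ : Finset V).filter (fun v => ∑ l ∈ Lv (LL a b) v, (l.card : ℝ) ^ 2 ≤ Q) with hW
  refine ⟨W, ?_, fun v hv => (mem_filter.mp hv).2⟩
  have h1 : (Wb.card : ℝ) * Q ≤ 3200 * N ^ 2 * Real.log N := by
    have h2 := sum_cubes h hN hs
    rw [← sum_deg] at h2
    refine le_trans ?_ h2
    rw [← nsmul_eq_mul, ← sum_const]
    calc ∑ v ∈ Wb, Q ≤ ∑ v ∈ Wb, ∑ l ∈ Lv (LL a b) v, (l.card : ℝ) ^ 2 := by
          apply sum_le_sum
          intro v hv
          rw [hWb, mem_filter] at hv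
          exact (not_le.mp hv.2).le
      _ ≤ ∑ v, ∑ l ∈ Lv (LL a b) v, (l.card : ℝ) ^ 2 := by
          apply sum_le_sum_of_subset_of_nonneg (subset_univ _)
          intro v _ _
          exact sum_nonneg (fun _ _ => sq_nonneg _)
  have h2 : (Wb.card : ℝ) ≤ N / 2 := by
    have h3 : 3200 * N ^ 2 * Real.log N = N / 2 * Q := by rw [hQ]; ring
    rw [h3] at h1
    exact le_of_mul_le_mul_right h1 hQ0
  have h3 : W.card + Wb.card = Fintype.card V := by
    rw [hW, hWb, card_filter_add_card_filter_not, card_univ]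
  have h4 : (W.card : ℝ) + Wb.card = N := by rw [hNdef]; exact_mod_cast h3
  linarith

end Geo

end Pool.Agent.Lib.MP_0c755a_co
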