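import Pool.Agent.Lib.MP_0c755a_co.Geo1

/-!
General position subsets in planar point sets without many collinear points.
-/

set_option linter.unusedSectionVars false
set_option linter.unusedVariables false

namespace Pool.Agent.Lib.MP_0c755a_co

open Finset Filter

section Geo2

/-- the constant -/
noncomputable def cst : ℝ := 1 / (614400 * 25600)

lemma extend_line {V : Type*} [Fintype V] [DecidableEq V] {a b : V → ℝ} (W : Finset V)
    {l' : Finset {v // v ∈ W}}
    (hl' : l' ∈ LL (fun w : {v // v ∈ W} => a w.1) (fun w : {v // v ∈ W} => b w.1)) :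
    ∃ l ∈ LL a b, (∀ w : {v // v ∈ W}, w ∈ l' ↔ w.1 ∈ l) ∧ l'.card ≤ l.card := by
  classical
  obtain ⟨h3, u, v, huv, hl⟩ := mem_LL.mp hl'
  set l : Finset V := univ.filter (fun w => dt a b u.1 v.1 w = 0) with hldef
  have hmem : ∀ w : {v // v ∈ W}, w ∈ l' ↔ w.1 ∈ l := by
    intro w
    rw [hl w, hldef, mem_filter]
    simp only [mem_univ, true_and]
    rfl
  have hcard : l'.card ≤ l.card := by
    have h1 : (l'.map ⟨Subtype.val, Subtype.val_injective⟩) ⊆ l := by
      intro w hw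
      rw [Finset.mem_map] at hw
      obtain ⟨w', hw', rfl⟩ := hw
      exact (hmem w').mp hw'
    have h2 := card_le_card h1
    rwa [card_map] at h2
  refine ⟨l, mem_LL.mpr ⟨by omega, u.1, v.1, fun h => huv (Subtype.ext h), ?_⟩, hmem, hcard⟩
  intro w
  rw [hldef, mem_filter]
  simp

theorem gp_core : ∃ N0 : ℝ, 3 ≤ N0 ∧ ∀ (V : Type) [Fintype V] [DecidableEq V] (a b : V → ℝ),
    Inj2 a b → N0 ≤ (Fintype.card V : ℝ) → (∀ l ∈ LL a b, 2 * l.card ^ 2 ≤ Fintype.card V) →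
    ∃ S : Finset V, cst * Real.sqrt ((Fintype.card V : ℝ) / 2) ≤ (S.card : ℝ) ∧
      ∀ x ∈ S, ∀ y ∈ S, ∀ z ∈ S, x ≠ y → y ≠ z → x ≠ z → dt a b x y z ≠ 0 := by
  classical
  obtain ⟨x0, hx0⟩ := (ev_conditions 25600 (by norm_num)).exists_forall_of_atTop
  refine ⟨max 3 (2 * Real.exp x0), le_max_left _ _, ?_⟩
  intro V _ _ a b h hN hs
  set N : ℝ := (Fintype.card V : ℝ) with hNdef
  have hN3 : (3 : ℝ) ≤ N := le_trans (le_max_left _ _) hN
  have hNx : 2 * Real.exp x0 ≤ N := le_trans (le_max_right _ _) hN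
  have hs' : ∀ l ∈ LL a b, l.card ^ 2 ≤ Fintype.card V := fun l hl => by
    have := hs l hl; omega
  obtain ⟨W, hW1, hW2⟩ := good_points h hN3 hs'
  rw [← hNdef] at hW1 hW2
  set a' : {v // v ∈ W} → ℝ := fun w => a w.1 with ha'
  set b' : {v // v ∈ W} → ℝ := fun w => b w.1 with hb'
  have h' : Inj2 a' b' := fun u v h1 h2 => Subtype.ext (h u.1 v.1 h1 h2)
  have hcardW : Fintype.card {v // v ∈ W} = W.card := Fintype.card_coe W
  set M : ℝ := (W.card : ℝ) with hM
  have hM0 : 0 < M := by linarith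
  set x := Real.log M with hx
  have hMx : M = Real.exp x := (Real.exp_log hM0).symm
  have hxx0 : x0 ≤ x := by
    rw [hx, Real.le_log_iff_exp_le hM0]; linarith
  have hcond := hx0 x hxx0
  have hx200 : 200 ≤ x := hcond.2.2.2.2.2
  have hlogN : Real.log N ≤ 2 * x := by
    have h1 : N ≤ 2 * M := by linarith
    have h2 : Real.log N ≤ Real.log (2 * M) := Real.log_le_log (by linarith) h1
    rw [Real.log_mul (by norm_num) hM0.ne'] at h2
    have h3 : Real.log 2 < 1 := by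
      have := Real.log_two_lt_d9; linarith
    linarith
  -- degrees in the restricted system
  have hdeg : ∀ v : {v // v ∈ W}, ∑ l ∈ Lv (LL a' b') v, (l.card : ℝ) ^ 2
      ≤ 25600 * x * Real.exp x := by
    intro v
    have hex : ∀ l' ∈ LL a' b', ∃ l ∈ LL a b, (∀ w : {v // v ∈ W}, w ∈ l' ↔ w.1 ∈ l) ∧
        l'.card ≤ l.card := fun l' hl' => extend_line W hl'
    choose! g hg1 hg2 hg3 using hex
    have hinj : Set.InjOn g (Lv (LL a' b') v : Set (Finset {v // v ∈ W})) := by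
      intro l hl m hm he
      rw [mem_coe, mem_Lv] at hl hm
      ext w
      rw [hg2 l hl.1 w, hg2 m hm.1 w, he]
    have h1 : ∑ l ∈ Lv (LL a' b') v, (l.card : ℝ) ^ 2
        ≤ ∑ l ∈ Lv (LL a' b') v, ((g l).card : ℝ) ^ 2 := by
      apply sum_le_sum
      intro l hl
      rw [mem_Lv] at hl
      have h2 : (l.card : ℝ) ≤ (g l).card := by exact_mod_cast hg3 l hl.1
      exact pow_le_pow_left₀ (Nat.cast_nonneg _) h2 2
    have h2 : ∑ l ∈ Lv (LL a' b') v, ((g l).card : ℝ) ^ 2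
        = ∑ l ∈ (Lv (LL a' b') v).image g, (l.card : ℝ) ^ 2 := by
      rw [sum_image hinj]
    have h3 : ∑ l ∈ (Lv (LL a' b') v).image g, (l.card : ℝ) ^ 2
        ≤ ∑ l ∈ Lv (LL a b) v.1, (l.card : ℝ) ^ 2 := by
      apply sum_le_sum_of_subset_of_nonneg
      · intro l hl
        rw [mem_image] at hl
        obtain ⟨l', hl', rfl⟩ := hl
        rw [mem_Lv] at hl' ⊢
        exact ⟨hg1 l' hl'.1, (hg2 l' hl'.1 v).mp hl'.2⟩
      · intro l _ _
        exact sq_nonneg _
    have h4 := hW2 v.1 v.2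
    have h5 : 6400 * N * Real.log N ≤ 25600 * x * Real.exp x := by
      rw [← hMx]
      have h6 : N * Real.log N ≤ (2 * M) * (2 * x) := by
        apply mul_le_mul (by linarith) hlogN
        · apply Real.log_nonneg; linarith
        · linarith
      linarith
    rw [h2] at h1
    linarith
  have hsize : ∀ l ∈ LL a' b', (l.card : ℝ) ≤ Real.exp (x / 2) := by
    intro l' hl'
    obtain ⟨l, hl, _, hc⟩ := extend_line W hl'
    have h1 := hs l hl
    have h2 : 2 * (l.card : ℝ) ^ 2 ≤ N := by rw [hNdef]; exact_mod_cast h1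
    have h3 : (l'.card : ℝ) ≤ l.card := by exact_mod_cast hc
    have h4 : (l'.card : ℝ) ^ 2 ≤ Real.exp (x / 2) ^ 2 := by
      have h5 : Real.exp (x / 2) ^ 2 = Real.exp x := by
        rw [← Real.exp_nat_mul]; congr 1; push_cast; ring
      rw [h5, ← hMx]
      have h6 : (l'.card : ℝ) ^ 2 ≤ (l.card : ℝ) ^ 2 := pow_le_pow_left₀ (Nat.cast_nonneg _) h3 2
      linarith
    exact le_of_pow_le_pow_left₀ (by norm_num) (Real.exp_pos _).le h4
  obtain ⟨S, hS1, hS2⟩ := linear_space_core 25600 x (by norm_num) hcond (lin_LL h')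
    (fun l hl => by have := (mem_LL.mp hl).1; omega)
    (by rw [hcardW, ← hM]; exact hMx) hsize hdeg
  refine ⟨S.map ⟨Subtype.val, Subtype.val_injective⟩, ?_, ?_⟩
  · rw [card_map]
    refine le_trans ?_ hS2
    have h1 : Real.sqrt (N / 2) ≤ Real.exp (x / 2) := by
      rw [Real.sqrt_le_left (Real.exp_pos _).le]
      have h5 : Real.exp (x / 2) ^ 2 = Real.exp x := by
        rw [← Real.exp_nat_mul]; congr 1; push_cast; ring
      rw [h5, ← hMx]; exact hW1
    unfold cst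
    rw [one_div_mul_eq_div]
    exact div_le_div_of_nonneg_right h1 (by norm_num)
  · intro x1 hx1 y1 hy1 z1 hz1 hxy hyz hxz hdet
    rw [Finset.mem_map] at hx1 hy1 hz1
    obtain ⟨x', hx', rfl⟩ := hx1
    obtain ⟨y', hy', rfl⟩ := hy1
    obtain ⟨z', hz', rfl⟩ := hz1
    simp only [Function.Embedding.coeFn_mk] at hxy hyz hxz hdet
    have hxy' : x' ≠ y' := fun he => hxy (by rw [he])
    have hyz' : y' ≠ z' := fun he => hyz (by rw [he])
    have hxz' : x' ≠ z' := fun he => hxz (by rw [he])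
    set l : Finset {v // v ∈ W} := univ.filter (fun w => dt a' b' x' y' w = 0) with hl
    have hml : ∀ w, w ∈ l ↔ dt a' b' x' y' w = 0 := by
      intro w; rw [hl, mem_filter]; simp
    have e1 : x' ∈ l := by rw [hml]; unfold dt; ring
    have e2 : y' ∈ l := by rw [hml]; unfold dt; ring
    have e3 : z' ∈ l := by rw [hml]; exact hdet
    have hsub : ({x', y', z'} : Finset {v // v ∈ W}) ⊆ S ∩ l := by
      intro w hw
      rw [mem_insert, mem_insert, mem_singleton] at hw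
      rw [mem_inter]
      rcases hw with rfl | rfl | rfl
      · exact ⟨hx', e1⟩
      · exact ⟨hy', e2⟩
      · exact ⟨hz', e3⟩
    have hc3 : ({x', y', z'} : Finset {v // v ∈ W}).card = 3 := by
      rw [card_eq_three]
      exact ⟨x', y', z', hxy', hxz', hyz', rfl⟩
    have h3 := card_le_card hsub
    rw [hc3] at h3
    have h4 : l ∈ LL a' b' := by
      refine mem_LL.mpr ⟨?_, x', y', hxy', hml⟩
      exact h3.trans (card_le_card inter_subset_right)
    have h5 := hS1 l h4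
    omega

theorem gp_exists : ∃ C : ℕ, 0 < C ∧ ∀ (V : Type) [Fintype V] [DecidableEq V] (a b : V → ℝ),
    Inj2 a b → ∀ n : ℕ, 3 ≤ n → C * n ^ 2 ≤ Fintype.card V → (∀ l ∈ LL a b, l.card < n) →
    ∃ S : Finset V, n ≤ S.card ∧
      ∀ x ∈ S, ∀ y ∈ S, ∀ z ∈ S, x ≠ y → y ≠ z → x ≠ z → dt a b x y z ≠ 0 := by
  obtain ⟨N0, hN0, hmain⟩ := gp_core
  have hcst : 0 < cst := by unfold cst; norm_num
  refine ⟨2 + ⌈N0⌉₊ + ⌈2 / cst ^ 2⌉₊, by omega, ?_⟩
  intro V _ _ a b h n hn hN hl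
  have hn1 : 1 ≤ n ^ 2 := Nat.one_le_pow _ _ (by omega)
  have hA : 2 * n ^ 2 ≤ Fintype.card V := by
    refine le_trans ?_ hN
    apply Nat.mul_le_mul_right; omega
  have hB : ⌈N0⌉₊ ≤ Fintype.card V := by
    refine le_trans ?_ hN
    calc ⌈N0⌉₊ = ⌈N0⌉₊ * 1 := by ring
      _ ≤ (2 + ⌈N0⌉₊ + ⌈2 / cst ^ 2⌉₊) * n ^ 2 := Nat.mul_le_mul (by omega) hn1
  have hC : ⌈2 / cst ^ 2⌉₊ * n ^ 2 ≤ Fintype.card V := by
    refine le_trans ?_ hN
    apply Nat.mul_le_mul_right; omega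
  have hB' : N0 ≤ (Fintype.card V : ℝ) := by
    refine le_trans (Nat.le_ceil N0) ?_
    exact_mod_cast hB
  have hC' : 2 / cst ^ 2 * (n : ℝ) ^ 2 ≤ (Fintype.card V : ℝ) := by
    have h1 : 2 / cst ^ 2 * (n : ℝ) ^ 2 ≤ (⌈2 / cst ^ 2⌉₊ : ℝ) * (n : ℝ) ^ 2 :=
      mul_le_mul_of_nonneg_right (Nat.le_ceil _) (by positivity)
    refine h1.trans ?_
    exact_mod_cast hC
  obtain ⟨S, hS1, hS2⟩ := hmain V a b h hB' (fun l hll => by
    have h1 := hl l hll
    have h2 : l.card ^ 2 ≤ n ^ 2 := Nat.pow_le_pow_left h1.le 2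
    omega)
  refine ⟨S, ?_, hS2⟩
  have h1 : (n : ℝ) ≤ cst * Real.sqrt ((Fintype.card V : ℝ) / 2) := by
    have h2 : (n : ℝ) / cst ≤ Real.sqrt ((Fintype.card V : ℝ) / 2) := by
      apply Real.le_sqrt_of_sq_le
      have h3 : ((n : ℝ) / cst) ^ 2 = (2 / cst ^ 2 * (n : ℝ) ^ 2) / 2 := by
        field_simp
      rw [h3]
      linarith
    rw [div_le_iff₀ hcst] at h2
    linarith
  exact_mod_cast h1.trans hS1

end Geo2

end Pool.Agent.Lib.MP_0c755a_co
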