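import Pool.Agent.Lib.MP_0c755a_co.Prod

/-!
The exponential moment bound for the number of candidates on a line.
-/

set_option linter.unusedSectionVars false

namespace Pool.Agent.Lib.MP_0c755a_co

open Finset Real

section LemQ

variable {V κ : Type*} [Fintype V] [DecidableEq V] [Fintype κ] [DecidableEq κ]

lemma exp_le_quad {y τ : ℝ} (h0 : 0 ≤ y) (h1 : y ≤ τ) (h2 : τ ≤ 1) :
    exp y ≤ 1 + (1 + τ) * y := by
  have h := Real.abs_exp_sub_one_sub_id_le (x := y) (by rw [abs_of_nonneg h0]; linarith)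
  have h3 := (abs_le.mp h).2
  nlinarith

/-- `k (k-1) / 2` -/
noncomputable def ch2 (k : ℝ) : ℝ := k * (k - 1) / 2

lemma ch2_mono_nat {m k : ℕ} (h : m ≤ k) : ch2 (m : ℝ) ≤ ch2 (k : ℝ) := by
  unfold ch2
  rcases Nat.eq_zero_or_pos m with h0 | h0
  · subst h0
    rcases Nat.eq_zero_or_pos k with h1 | h1
    · subst h1; simp
    · have : (1 : ℝ) ≤ k := by exact_mod_cast h1
      have h2 : (0 : ℝ) ≤ (k : ℝ) * ((k : ℝ) - 1) := mul_nonneg (by linarith) (by linarith)
      simp only [Nat.cast_zero, zero_mul, zero_div]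
      linarith
  · have h1 : (1 : ℝ) ≤ m := by exact_mod_cast h0
    have h2 : (m : ℝ) ≤ k := by exact_mod_cast h
    have : (m : ℝ) * ((m : ℝ) - 1) ≤ (k : ℝ) * ((k : ℝ) - 1) := by nlinarith
    linarith

lemma ch2_nat_nonneg (k : ℕ) : 0 ≤ ch2 (k : ℝ) := by
  have h := ch2_mono_nat (Nat.zero_le k)
  simpa [ch2] using h

/-- main moment bound -/
lemma lemQ {w : V → κ → ℝ} (hw : IsProb w) (D : V → Finset V) (r c : V → (V → κ) → ℝ)
    {q p0 τ P α : ℝ} (hq1 : q < 1) (hp0 : 0 ≤ p0) (hpq : p0 ≤ 1 - q)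
    (hτ0 : 0 ≤ τ) (hτ1 : τ ≤ 1) (hP : P = p0 / (1 - q) * (1 + τ)) (hP1 : P ≤ 1) (hα : 0 ≤ α)
    (X : Finset V)
    (hr : ∀ x ∈ X, Dep (D x) (r x)) (hc : ∀ x ∈ X, Dep (D x) (c x))
    (hd : ∀ x ∈ X, ∀ y ∈ X, x ≠ y → Disjoint (D x) (D y))
    (hc01 : ∀ x ∈ X, ∀ ω, c x ω = 0 ∨ (c x ω = 1 ∧ r x ω = 1))
    (hEr : ∀ x ∈ X, E w (r x) = 1 - q) (hEc : ∀ x ∈ X, E w (c x) = p0) :
    ∀ β : ℝ, 0 ≤ β → β + 2 * (X.card : ℝ) * α ≤ τ →
      E w (fun ω => (∏ x ∈ X, r x ω) * exp (α * ch2 (∑ x ∈ X, c x ω) + β * (∑ x ∈ X, c x ω)))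
        ≤ (1 - q) ^ X.card * exp (P ^ 2 * ch2 (X.card : ℝ) * α + P * (X.card : ℝ) * β) := by
  classical
  have hP0 : 0 ≤ P := by
    rw [hP]
    exact mul_nonneg (div_nonneg hp0 (by linarith)) (by linarith)
  induction X using Finset.induction_on with
  | empty =>
    intro β _ _
    have h1 : (fun ω : V → κ => (∏ x ∈ (∅ : Finset V), r x ω)
        * exp (α * ch2 (∑ x ∈ (∅ : Finset V), c x ω) + β * (∑ x ∈ (∅ : Finset V), c x ω)))
        = fun _ => (1 : ℝ) := by
      funext ω
      simp [ch2]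
    rw [h1, E_const hw]
    simp [ch2]
  | insert y X hy ih =>
    intro β hβ hcond
    have hcardI : (insert y X).card = X.card + 1 := card_insert_of_notMem hy
    have ihX := ih (fun x hx => hr x (mem_insert_of_mem hx)) (fun x hx => hc x (mem_insert_of_mem hx))
      (fun x hx z hz hxz => hd x (mem_insert_of_mem hx) z (mem_insert_of_mem hz) hxz)
      (fun x hx => hc01 x (mem_insert_of_mem hx))
      (fun x hx => hEr x (mem_insert_of_mem hx)) (fun x hx => hEc x (mem_insert_of_mem hx))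
    rw [hcardI] at hcond
    push_cast at hcond
    have hm0 : (0 : ℝ) ≤ X.card := Nat.cast_nonneg _
    have ih1 := ihX β hβ (by nlinarith)
    have ih2 := ihX (β + α) (by linarith) (by nlinarith)
    -- split the function
    have hsplit : (fun ω : V → κ => (∏ x ∈ insert y X, r x ω)
        * exp (α * ch2 (∑ x ∈ insert y X, c x ω) + β * (∑ x ∈ insert y X, c x ω)))
        = fun ω => (r y ω - c y ω) * ((∏ x ∈ X, r x ω)
            * exp (α * ch2 (∑ x ∈ X, c x ω) + β * (∑ x ∈ X, c x ω)))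
          + exp β * (c y ω * ((∏ x ∈ X, r x ω)
            * exp (α * ch2 (∑ x ∈ X, c x ω) + (β + α) * (∑ x ∈ X, c x ω)))) := by
      funext ω
      rw [prod_insert hy, sum_insert hy]
      rcases hc01 y (mem_insert_self _ _) ω with h0 | ⟨h1, h2⟩
      · rw [h0]
        simp only [zero_add, sub_zero, zero_mul, mul_zero, add_zero]
        ring
      · rw [h1, h2]
        have he : α * ch2 (1 + ∑ x ∈ X, c x ω) + β * (1 + ∑ x ∈ X, c x ω)
            = β + (α * ch2 (∑ x ∈ X, c x ω) + (β + α) * (∑ x ∈ X, c x ω)) := by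
          unfold ch2; ring
        rw [he, exp_add]
        ring
    rw [hsplit, E_add, E_smul]
    have hdep : ∀ β' : ℝ, Dep (X.biUnion D) (fun ω : V → κ => (∏ x ∈ X, r x ω)
            * exp (α * ch2 (∑ x ∈ X, c x ω) + β' * (∑ x ∈ X, c x ω))) := by
      intro β' ω ω' hω
      have e1 : ∏ x ∈ X, r x ω = ∏ x ∈ X, r x ω' := prod_congr rfl (fun x hx =>
        hr x (mem_insert_of_mem hx) ω ω' (fun v hv => hω v (mem_biUnion.mpr ⟨x, hx, hv⟩)))
      have e2 : ∑ x ∈ X, c x ω = ∑ x ∈ X, c x ω' := sum_congr rfl (fun x hx =>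
        hc x (mem_insert_of_mem hx) ω ω' (fun v hv => hω v (mem_biUnion.mpr ⟨x, hx, hv⟩)))
      simp only [e1, e2]
    have hdisj : Disjoint (D y) (X.biUnion D) := by
      rw [disjoint_biUnion_right]
      intro x hx
      exact hd y (mem_insert_self _ _) x (mem_insert_of_mem hx)
        (fun h => hy (h ▸ hx))
    have hdy1 : Dep (D y) (fun ω => r y ω - c y ω) := by
      intro ω ω' hω
      have e1 := hr y (mem_insert_self _ _) ω ω' hω
      have e2 := hc y (mem_insert_self _ _) ω ω' hω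
      simp only [e1, e2]
    rw [E_mul hw hdy1 (hdep β) hdisj, E_mul hw (hc y (mem_insert_self _ _)) (hdep (β + α)) hdisj,
      E_sub, hEr y (mem_insert_self _ _), hEc y (mem_insert_self _ _)]
    rw [hcardI]
    push_cast
    set m : ℝ := (X.card : ℝ) with hm
    have hq1' : 0 < 1 - q := by linarith
    have hnn : 0 ≤ 1 - q - p0 := by linarith
    have hA : (1 - q - p0) * E w (fun ω => (∏ x ∈ X, r x ω)
            * exp (α * ch2 (∑ x ∈ X, c x ω) + β * (∑ x ∈ X, c x ω)))
        ≤ (1 - q - p0) * ((1 - q) ^ X.card * exp (P ^ 2 * ch2 m * α + P * m * β)) :=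
      mul_le_mul_of_nonneg_left ih1 hnn
    have hB : exp β * (p0 * E w (fun ω => (∏ x ∈ X, r x ω)
            * exp (α * ch2 (∑ x ∈ X, c x ω) + (β + α) * (∑ x ∈ X, c x ω))))
        ≤ exp β * (p0 * ((1 - q) ^ X.card * exp (P ^ 2 * ch2 m * α + P * m * (β + α)))) :=
      mul_le_mul_of_nonneg_left (mul_le_mul_of_nonneg_left ih2 hp0) (exp_pos _).le
    have he1 : exp β * (p0 * ((1 - q) ^ X.card * exp (P ^ 2 * ch2 m * α + P * m * (β + α))))
        = p0 * ((1 - q) ^ X.card * exp (P ^ 2 * ch2 m * α + P * m * β)) * exp (β + P * m * α) := by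
      have : exp (P ^ 2 * ch2 m * α + P * m * (β + α)) * exp β
          = exp (P ^ 2 * ch2 m * α + P * m * β) * exp (β + P * m * α) := by
        rw [← exp_add, ← exp_add]; ring_nf
      calc exp β * (p0 * ((1 - q) ^ X.card * exp (P ^ 2 * ch2 m * α + P * m * (β + α))))
          = p0 * (1 - q) ^ X.card * (exp (P ^ 2 * ch2 m * α + P * m * (β + α)) * exp β) := by ring
        _ = _ := by rw [this]; ring
    have hy0 : 0 ≤ β + P * m * α := by positivity
    have hyτ : β + P * m * α ≤ τ := by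
      have : P * m * α ≤ 1 * m * α := by
        apply mul_le_mul_of_nonneg_right _ hα
        exact mul_le_mul_of_nonneg_right hP1 hm0
      nlinarith
    have hexp := exp_le_quad hy0 hyτ hτ1
    set Z : ℝ := (1 - q) ^ X.card * exp (P ^ 2 * ch2 m * α + P * m * β) with hZ
    have hZ0 : 0 ≤ Z := by positivity
    have hmain : (1 - q - p0) * Z + p0 * Z * exp (β + P * m * α)
        ≤ (1 - q) * Z * exp (P * (β + P * m * α)) := by
      have h1 : (1 - q - p0) * Z + p0 * Z * exp (β + P * m * α)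
          ≤ (1 - q - p0) * Z + p0 * Z * (1 + (1 + τ) * (β + P * m * α)) := by
        have := mul_le_mul_of_nonneg_left hexp (mul_nonneg hp0 hZ0)
        linarith
      have h2 : (1 - q - p0) * Z + p0 * Z * (1 + (1 + τ) * (β + P * m * α))
          = (1 - q) * Z * (1 + P * (β + P * m * α)) := by
        have : (1 - q) * P = p0 * (1 + τ) := by
          rw [hP]; field_simp
        have h3 : (1 - q) * Z * (1 + P * (β + P * m * α))
            = (1 - q) * Z + ((1 - q) * P) * Z * (β + P * m * α) := by ring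
        rw [h3, this]; ring
      have h4 : 1 + P * (β + P * m * α) ≤ exp (P * (β + P * m * α)) := by
        have := add_one_le_exp (P * (β + P * m * α))
        linarith
      calc _ ≤ _ := h1
        _ = _ := h2
        _ ≤ _ := mul_le_mul_of_nonneg_left h4 (mul_nonneg hq1'.le hZ0)
    have hfin : (1 - q) * Z * exp (P * (β + P * m * α))
        = (1 - q) ^ (X.card + 1) * exp (P ^ 2 * ch2 (m + 1) * α + P * (m + 1) * β) := by
      have : exp (P ^ 2 * ch2 (m + 1) * α + P * (m + 1) * β)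
          = exp (P ^ 2 * ch2 m * α + P * m * β) * exp (P * (β + P * m * α)) := by
        rw [← exp_add]; congr 1; unfold ch2; ring
      rw [this, hZ, pow_succ]; ring
    rw [← hfin]
    rw [he1] at hB
    linarith

end LemQ

end Pool.Agent.Lib.MP_0c755a_co
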