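import Pool.Agent.Lib.MP_0c755a_co.Round3

/-!
Iterating the rounds.
-/

set_option linter.unusedSectionVars false
set_option linter.unusedVariables false

namespace Pool.Agent.Lib.MP_0c755a_co

open Finset Real

section Nibble

variable {V : Type*} [Fintype V] [DecidableEq V]
variable {L : Finset (Finset V)} {A S : Finset V} {q : ℝ}

lemma nu_le_one {q : ℝ} (hq0 : 0 ≤ q) (hq1 : q < 1) (s m : ℕ) : nu q s m ≤ 1 := by
  have h1 : 0 < 1 - q := by linarith
  have h0 : ∀ m : ℕ, nu q 0 m ≤ 1 := by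
    intro m
    induction m with
    | zero => simp [nu]
    | succ m ih =>
      have key : nu q 0 (m + 1) = nu q 0 m - q * ((m : ℝ) * q * (1 - q) ^ (m - 1)) := by
        unfold nu
        simp only [if_true]
        rcases Nat.eq_zero_or_pos m with h0 | h0
        · subst h0; simp
        · obtain ⟨k, rfl⟩ : ∃ k, m = k + 1 := ⟨m - 1, by omega⟩
          simp only [Nat.add_sub_cancel]
          push_cast
          ring
      rw [key]
      have : 0 ≤ q * ((m : ℝ) * q * (1 - q) ^ (m - 1)) := by positivity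
      linarith
  rcases Nat.eq_zero_or_pos s with h | h
  · subst h; exact h0 m
  · unfold nu
    rw [if_neg (by omega), add_zero]
    exact pow_le_one₀ h1.le (by linarith)

lemma prod_ge_one_sub {ι : Type*} (I : Finset ι) (f : ι → ℝ) (h0 : ∀ i ∈ I, 0 ≤ f i)
    (h1 : ∀ i ∈ I, f i ≤ 1) : 1 - ∑ i ∈ I, (1 - f i) ≤ ∏ i ∈ I, f i := by
  classical
  induction I using Finset.induction_on with
  | empty => simp
  | insert a I ha ih =>
    rw [sum_insert ha, prod_insert ha]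
    have ih' := ih (fun i hi => h0 i (mem_insert_of_mem hi)) (fun i hi => h1 i (mem_insert_of_mem hi))
    have ha0 := h0 a (mem_insert_self _ _)
    have ha1 := h1 a (mem_insert_self _ _)
    have hs : 0 ≤ ∑ i ∈ I, (1 - f i) := sum_nonneg (fun i hi => by
      linarith [h1 i (mem_insert_of_mem hi)])
    have h2 := mul_le_mul_of_nonneg_left ih' ha0
    nlinarith

/-- lower bound for the survival probability -/
lemma ss_ge (hq0 : 0 < q) (hq1 : q ≤ 1 / 4) {a b C Lm : ℝ} (hC1 : q ≤ C * b) (hC2 : q ^ 2 ≤ C * a)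
    (hCL : C * Lm ≤ 1 / 4) (hC : 0 ≤ C) {v : V} (hpsi : psi L a b A S v ≤ Lm) :
    1 / 2 ≤ (1 - q) * ss L A S q v := by
  have hq1' : q < 1 := by linarith
  have h1 := prod_ge_one_sub (Lv L v) (fun l => nu q (S ∩ l).card (XX A l v).card)
    (fun l _ => (nu_pos hq0.le hq1' _ _).le) (fun l _ => nu_le_one hq0.le hq1' _ _)
  have h2 : ∑ l ∈ Lv L v, (1 - nu q (S ∩ l).card (XX A l v).card) ≤ C * psi L a b A S v := by
    unfold psi
    rw [mul_sum]
    apply sum_le_sum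
    intro l _
    unfold con
    split_ifs with hs
    · rw [hs]
      have h3 := nu_zero_ge hq0.le hq1' (XX A l v).card
      have h4 := mul_le_mul_of_nonneg_right hC2 (ch2_nat_nonneg (XX A l v).card)
      linarith
    · have h3 := nu_ge_pow hq0.le hq1' (S ∩ l).card (XX A l v).card
      have h5 := one_sub_pow_ge hq1'.le (XX A l v).card
      have h4 := mul_le_mul_of_nonneg_right hC1 (Nat.cast_nonneg (α := ℝ) (XX A l v).card)
      linarith
  have h3 : C * psi L a b A S v ≤ C * Lm := mul_le_mul_of_nonneg_left hpsi hC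
  have h4 : 3 / 4 ≤ ss L A S q v := by
    unfold ss
    linarith
  nlinarith

lemma con_mono {a b : ℝ} (ha : 0 ≤ a) (hb : 0 ≤ b) (s : ℕ) {m k : ℕ} (h : m ≤ k) :
    con a b s m ≤ con a b s k := by
  unfold con
  split_ifs
  · exact mul_le_mul_of_nonneg_left (ch2_mono_nat h) ha
  · exact mul_le_mul_of_nonneg_left (by exact_mod_cast h) hb

lemma psi_mono {a b : ℝ} (ha : 0 ≤ a) (hb : 0 ≤ b) {A' : Finset V} (h : A' ⊆ A) (v : V) :
    psi L a b A' S v ≤ psi L a b A S v := by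
  unfold psi
  apply sum_le_sum
  intro l _
  apply con_mono ha hb
  apply card_le_card
  unfold XX
  exact erase_subset_erase _ (inter_subset_inter_right h)

lemma Phi_mono {a b : ℝ} (ha : 0 ≤ a) (hb : 0 ≤ b) {A' : Finset V} (h : A' ⊆ A) :
    Phi L a b A' S ≤ Phi L a b A S := by
  unfold Phi
  calc ∑ v ∈ A', exp (psi L a b A' S v) ≤ ∑ v ∈ A', exp (psi L a b A S v) :=
        sum_le_sum (fun v _ => exp_le_exp.mpr (psi_mono ha hb h v))
    _ ≤ ∑ v ∈ A, exp (psi L a b A S v) :=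
        sum_le_sum_of_subset_of_nonneg h (fun v _ _ => (exp_pos _).le)

lemma PhiL_mono {h : ℝ} (hh : 0 ≤ h) {A' : Finset V} (hA : A' ⊆ A) :
    PhiL L h A' ≤ PhiL L h A := by
  unfold PhiL
  apply sum_le_sum
  intro l _
  apply exp_le_exp.mpr
  apply mul_le_mul_of_nonneg_left _ hh
  exact_mod_cast card_le_card (inter_subset_inter_right hA)

lemma Phi_nonneg (a b : ℝ) : 0 ≤ Phi L a b A S := sum_nonneg (fun _ _ => (exp_pos _).le)
lemma PhiL_nonneg (h : ℝ) : 0 ≤ PhiL L h A := sum_nonneg (fun _ _ => (exp_pos _).le)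

/-- deleting the bad points -/
lemma delete_bad (hI : Inv L A S) {a b h : ℝ} (ha : 0 ≤ a) (hb : 0 ≤ b) (hh : 0 ≤ h)
    (Lm nm : ℝ) (N0 : ℝ) (hN0 : (A.card : ℝ) ≤ N0) :
    ∃ A' : Finset V, A' ⊆ A ∧ Inv L A' S ∧ (∀ v ∈ A', psi L a b A' S v ≤ Lm) ∧
      (∀ l ∈ L, (A' ∩ l).Nonempty → ((A' ∩ l).card : ℝ) ≤ nm) ∧
      (A.card : ℝ) - (Phi L a b A S * exp (-Lm) + N0 * exp (-(h * nm)) * PhiL L h A)
        ≤ (A'.card : ℝ) := by
  classical
  set B1 := A.filter (fun v => Lm < psi L a b A S v) with hB1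
  set LB := L.filter (fun l => nm < ((A ∩ l).card : ℝ)) with hLB
  set B2 := LB.biUnion (fun l => A ∩ l) with hB2
  set A' := A \ (B1 ∪ B2) with hA'
  have hsub : A' ⊆ A := sdiff_subset
  refine ⟨A', hsub, ⟨?_, hI.st2, ?_⟩, ?_, ?_, ?_⟩
  · exact disjoint_of_subset_left hsub hI.disj
  · intro l hl hne
    exact hI.st1 l hl (hne.mono (inter_subset_inter_right hsub))
  · intro v hv
    refine (psi_mono ha hb hsub v).trans ?_
    by_contra hcon
    push Not at hcon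
    rw [hA', mem_sdiff] at hv
    apply hv.2
    rw [mem_union, hB1, mem_filter]
    exact Or.inl ⟨hv.1, hcon⟩
  · intro l hl hne
    by_contra hcon
    push Not at hcon
    obtain ⟨v, hv⟩ := hne
    rw [mem_inter] at hv
    have hv1 := hv.1
    rw [hA', mem_sdiff] at hv1
    apply hv1.2
    rw [mem_union]
    right
    rw [hB2, mem_biUnion]
    refine ⟨l, ?_, mem_inter.mpr ⟨hv1.1, hv.2⟩⟩
    rw [hLB, mem_filter]
    refine ⟨hl, lt_of_lt_of_le hcon ?_⟩
    exact_mod_cast card_le_card (inter_subset_inter_right hsub)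
  · have h1 : (B1.card : ℝ) ≤ Phi L a b A S * exp (-Lm) := by
      unfold Phi
      rw [sum_mul]
      have h2 : (B1.card : ℝ) = ∑ v ∈ B1, (1 : ℝ) := by simp
      rw [h2]
      calc ∑ v ∈ B1, (1 : ℝ) ≤ ∑ v ∈ B1, exp (psi L a b A S v) * exp (-Lm) := by
            apply sum_le_sum
            intro v hv
            rw [hB1, mem_filter] at hv
            rw [← exp_add]
            apply one_le_exp
            linarith [hv.2]
        _ ≤ ∑ v ∈ A, exp (psi L a b A S v) * exp (-Lm) :=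
            sum_le_sum_of_subset_of_nonneg (filter_subset _ _) (fun v _ _ => by positivity)
    have h3 : (B2.card : ℝ) ≤ N0 * exp (-(h * nm)) * PhiL L h A := by
      have h4 : (B2.card : ℝ) ≤ ∑ l ∈ LB, ((A ∩ l).card : ℝ) := by
        have := card_biUnion_le (s := LB) (t := fun l => A ∩ l)
        exact_mod_cast this
      have h5 : ∑ l ∈ LB, ((A ∩ l).card : ℝ)
          ≤ ∑ l ∈ LB, N0 * exp (-(h * nm)) * exp (h * ((A ∩ l).card : ℝ)) := by
        apply sum_le_sum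
        intro l hl
        rw [hLB, mem_filter] at hl
        have h6 : ((A ∩ l).card : ℝ) ≤ N0 := by
          refine le_trans ?_ hN0
          exact_mod_cast card_le_card inter_subset_left
        have h7 : 1 ≤ exp (-(h * nm)) * exp (h * ((A ∩ l).card : ℝ)) := by
          rw [← exp_add]
          apply one_le_exp
          nlinarith [hl.2]
        have hN : 0 ≤ N0 := le_trans (Nat.cast_nonneg _) hN0
        calc ((A ∩ l).card : ℝ) ≤ N0 * 1 := by linarith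
          _ ≤ N0 * (exp (-(h * nm)) * exp (h * ((A ∩ l).card : ℝ))) :=
              mul_le_mul_of_nonneg_left h7 hN
          _ = _ := by ring
      have h8 : ∑ l ∈ LB, N0 * exp (-(h * nm)) * exp (h * ((A ∩ l).card : ℝ))
          ≤ ∑ l ∈ L, N0 * exp (-(h * nm)) * exp (h * ((A ∩ l).card : ℝ)) := by
        apply sum_le_sum_of_subset_of_nonneg (filter_subset _ _)
        intro l _ _
        have hN : 0 ≤ N0 := le_trans (Nat.cast_nonneg _) hN0
        positivity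
      unfold PhiL
      rw [mul_sum]
      linarith
    have h9 : (A.card : ℝ) ≤ A'.card + (B1.card + B2.card) := by
      have h10 : A ⊆ A' ∪ (B1 ∪ B2) := by
        intro v hv
        by_cases h : v ∈ B1 ∪ B2
        · exact mem_union_right _ h
        · exact mem_union_left _ (by rw [hA', mem_sdiff]; exact ⟨hv, h⟩)
      have h11 := card_le_card h10
      have h12 := card_union_le A' (B1 ∪ B2)
      have h13 := card_union_le B1 B2
      have : A.card ≤ A'.card + (B1.card + B2.card) := by omega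
      exact_mod_cast this
    linarith

/-- coefficient functions -/
noncomputable def be (ζ : ℝ) (j : ℕ) : ℝ := (1 + 10 * ζ) ^ j / 12
noncomputable def al (ζ : ℝ) (j : ℕ) : ℝ := (1 + 10 * ζ) ^ (2 * j) * (1 / 12 + (j : ℝ) * ζ)
noncomputable def th (ζ : ℝ) (j : ℕ) : ℝ := (1 + 10 * ζ) ^ j

lemma th_le {ζ : ℝ} (hζ0 : 0 ≤ ζ) {j : ℕ} (hj : (j : ℝ) * ζ ≤ 1 / 12) : th ζ j ≤ 5 / 2 := by
  unfold th
  have h1 : (1 + 10 * ζ) ^ j ≤ exp (10 * ζ) ^ j := by
    apply pow_le_pow_left₀ (by linarith)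
    have := add_one_le_exp (10 * ζ)
    linarith
  have h2 : exp (10 * ζ) ^ j = exp (10 * ((j : ℝ) * ζ)) := by
    rw [← exp_nat_mul]; congr 1; ring
  have h3 : exp (10 * ((j : ℝ) * ζ)) ≤ exp (5 / 6) := exp_le_exp.mpr (by linarith)
  have h4 : exp (5 / 6) ≤ 5 / 2 := by
    have h5 : exp (5 / 6) ^ 6 = exp 1 ^ 5 := by
      rw [← exp_nat_mul, ← exp_nat_mul]; norm_num
    have h6 : exp 1 ^ 5 ≤ (2.7182818286 : ℝ) ^ 5 :=
      pow_le_pow_left₀ (exp_pos _).le exp_one_lt_d9.le 5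
    have h7 : exp (5 / 6 : ℝ) ^ 6 ≤ (5 / 2 : ℝ) ^ 6 := by
      rw [h5]
      refine h6.trans ?_
      norm_num
    exact le_of_pow_le_pow_left₀ (by norm_num) (by norm_num) h7
  linarith

lemma th_ge_one {ζ : ℝ} (hζ0 : 0 ≤ ζ) (j : ℕ) : 1 ≤ th ζ j := one_le_pow₀ (by linarith)

lemma be_eq (ζ : ℝ) (j : ℕ) : be ζ j = th ζ j / 12 := rfl

lemma al_eq (ζ : ℝ) (j : ℕ) : al ζ j = th ζ j ^ 2 * (1 / 12 + (j : ℝ) * ζ) := by
  unfold al th
  rw [← pow_mul, mul_comm 2 j]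

lemma th_succ (ζ : ℝ) (j : ℕ) : th ζ (j + 1) = (1 + 10 * ζ) * th ζ j := by
  unfold th; rw [pow_succ]; ring

lemma RH_holds {ζ x H : ℝ} {j : ℕ} (hζ0 : 0 < ζ) (hζ1 : ζ ≤ 1 / 96)
    (hj : ((j + 1 : ℕ) : ℝ) * ζ ≤ 1 / 12) (hx0 : 0 < x) (hx : 73 * x ≤ ζ) (hH : 0 ≤ H)
    (hHx : 6 * H * x ≤ ζ) :
    RH (ζ * x) (al ζ (j + 1) * x ^ 2) (be ζ (j + 1) * x) (al ζ j * (2 * x) ^ 2) (be ζ j * (2 * x))
      (th ζ (j + 1) * H * x) (th ζ j * H * (2 * x)) (4 / x) ζ ((1 + 10 * ζ) / 2) := by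
  have hj0 : (j : ℝ) * ζ ≤ 1 / 12 := by push_cast at hj; nlinarith
  have ht := th_le hζ0.le hj0
  have ht' := th_le hζ0.le hj
  have ht1 := th_ge_one hζ0.le j
  have ht1' := th_ge_one hζ0.le (j + 1)
  have hjn : (0 : ℝ) ≤ (j : ℝ) * ζ := by positivity
  have hx1 : x ≤ 1 := by nlinarith
  have hal : al ζ j ≤ 25 / 24 := by
    rw [al_eq]
    have h1 : th ζ j ^ 2 ≤ (5 / 2) ^ 2 := pow_le_pow_left₀ (by linarith) ht 2
    have h2 : (1 / 12 + (j : ℝ) * ζ) ≤ 1 / 6 := by linarith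
    calc th ζ j ^ 2 * (1 / 12 + (j : ℝ) * ζ) ≤ (5 / 2) ^ 2 * (1 / 6) :=
          mul_le_mul h1 h2 (by linarith) (by norm_num)
      _ = 25 / 24 := by norm_num
  have hal0 : 0 ≤ al ζ j := by rw [al_eq]; positivity
  refine ⟨by positivity, by nlinarith, by positivity, ?_, by positivity, ?_, hζ0.le, by linarith,
    by positivity, ?_, by linarith, by linarith, ?_, ?_, ?_, ?_, ?_, ?_, ?_⟩
  · rw [be_eq]; positivity
  · rw [be_eq]; positivity
  · have : ζ * x * (4 / x) = 4 * ζ := by field_simp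
    rw [this]; linarith
  · have : ζ * x * (4 / x) = 4 * ζ := by field_simp
    rw [this]
    have h1 : ζ * x ≤ ζ * ζ := mul_le_mul_of_nonneg_left (by linarith) hζ0.le
    have h2 : (1 + 10 * ζ) / 2 * (1 - ζ * ζ) * (1 - 4 * ζ) ≤ (1 + 10 * ζ) / 2 * (1 - ζ * x) * (1 - 4 * ζ) := by
      apply mul_le_mul_of_nonneg_right _ (by linarith)
      apply mul_le_mul_of_nonneg_left _ (by linarith)
      linarith
    have h3 : 1 / 2 * (1 + ζ) ≤ (1 + 10 * ζ) / 2 * (1 - ζ * ζ) * (1 - 4 * ζ) := by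
      have hz2 : ζ * ζ ≤ ζ * (1 / 96) := mul_le_mul_of_nonneg_left hζ1 hζ0.le
      have hz3 : 0 ≤ ζ * ζ * ζ := by positivity
      have e : (1 + 10 * ζ) / 2 * (1 - ζ * ζ) * (1 - 4 * ζ) - 1 / 2 * (1 + ζ)
          = ζ * (5 / 2 - 41 / 2 * ζ - 3 * ζ * ζ + 20 * ζ * ζ * ζ) := by ring
      have h5 : 0 ≤ ζ * (5 / 2 - 41 / 2 * ζ - 3 * ζ * ζ + 20 * ζ * ζ * ζ) := by
        apply mul_nonneg hζ0.le
        nlinarith
      linarith
    linarith
  · rw [be_eq, be_eq, th_succ]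
    apply le_of_eq; ring
  · -- c2
    have h1 : al ζ (j + 1) = (1 + 10 * ζ) ^ 2 * al ζ j + th ζ (j + 1) ^ 2 * ζ := by
      rw [al_eq, al_eq, th_succ]; push_cast; ring
    rw [h1]
    have h2 : ((1 + 10 * ζ) / 2) ^ 2 * (al ζ j * (2 * x) ^ 2) + 4 * (ζ * x) * (be ζ (j + 1) * x)
        = ((1 + 10 * ζ) ^ 2 * al ζ j) * x ^ 2 + (4 * ζ * be ζ (j + 1)) * x ^ 2 := by ring
    rw [h2]
    have h3 : 4 * ζ * be ζ (j + 1) ≤ th ζ (j + 1) ^ 2 * ζ := by
      rw [be_eq]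
      have h5 : th ζ (j + 1) ≤ th ζ (j + 1) ^ 2 := by nlinarith
      have h6 := mul_le_mul_of_nonneg_right h5 hζ0.le
      have h7 : 0 ≤ th ζ (j + 1) * ζ := mul_nonneg (by linarith) hζ0.le
      nlinarith
    have h4 := mul_le_mul_of_nonneg_right h3 (sq_nonneg x)
    linarith
  · -- c3
    have h1 : 2 * (4 / x) * (al ζ j * (2 * x) ^ 2) = 32 * al ζ j * x := by field_simp; ring
    rw [h1, be_eq]
    have h2 : 32 * al ζ j * x ≤ 32 * (25 / 24) * x := by
      apply mul_le_mul_of_nonneg_right _ hx0.le; linarith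
    have h3 : th ζ j / 12 * (2 * x) ≤ 5 / 2 / 12 * (2 * x) := by
      apply mul_le_mul_of_nonneg_right _ (by positivity); linarith
    nlinarith
  · have h1 : be ζ (j + 1) * x * (4 / x) = 4 * be ζ (j + 1) := by field_simp
    rw [h1, be_eq]
    linarith
  · have h1 : th ζ j * H * (2 * x) ≤ 5 / 2 * H * (2 * x) := by
      apply mul_le_mul_of_nonneg_right _ (by positivity)
      exact mul_le_mul_of_nonneg_right ht hH
    nlinarith [mul_nonneg hH hx0.le]
  · rw [th_succ]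
    apply le_of_eq; ring

/-- the iteration -/
theorem nibble_iter (hG : Girth5 L) {ζ H Lm N0 : ℝ} (hζ0 : 0 < ζ) (hζ1 : ζ ≤ 1 / 96)
    (hLm : 12 * ζ * Lm ≤ 1 / 4) (hH : 0 ≤ H) (hN0 : 0 ≤ N0) :
    ∀ (j : ℕ) (x : ℝ) (A S : Finset V), (j : ℝ) * ζ ≤ 1 / 12 → 0 < x → 73 * 2 ^ j * x ≤ ζ →
      3 * H * 2 ^ j * x ≤ ζ → Inv L A S → (A.card : ℝ) ≤ N0 →
      ∃ A' S' : Finset V, Inv L A' S' ∧ S' ⊆ S ∪ A ∧
        (S.card : ℝ) + (j : ℝ) * ζ * x / 2 * (A.card : ℝ)
          - (j : ℝ) * (j + 1) * ζ * x / 4 * exp (-Lm) * Phi L (al ζ j * x ^ 2) (be ζ j * x) A S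
          - (j : ℝ) * 2 ^ j * ζ * x * (N0 * exp (-(4 * H))) * PhiL L (th ζ j * H * x) A
        ≤ (S'.card : ℝ) := by
  intro j
  induction j with
  | zero =>
    intro x A S _ _ _ _ hI _
    exact ⟨A, S, hI, subset_union_left, by simp⟩
  | succ j ih =>
    intro x A S hj hx0 hx hHx hI hA
    have hpow : (1 : ℝ) ≤ 2 ^ j := one_le_pow₀ (by norm_num)
    have hx1 : 73 * x ≤ ζ := by
      have : 73 * x ≤ 73 * 2 ^ (j + 1) * x := by
        apply mul_le_mul_of_nonneg_right _ hx0.le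
        rw [pow_succ]; nlinarith
      linarith
    have hHx1 : 6 * H * x ≤ ζ := by
      have : 6 * H * x ≤ 3 * H * 2 ^ (j + 1) * x := by
        apply mul_le_mul_of_nonneg_right _ hx0.le
        rw [pow_succ]; nlinarith
      linarith
    have hR := RH_holds hζ0 hζ1 hj hx0 hx1 hH hHx1
    set a := al ζ (j + 1) * x ^ 2 with ha
    set b := be ζ (j + 1) * x with hb
    set h := th ζ (j + 1) * H * x with hh
    have ht1 := th_ge_one hζ0.le (j + 1)
    have ha0 : 0 ≤ a := by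
      rw [ha, al_eq]
      have : (0 : ℝ) ≤ ((j + 1 : ℕ) : ℝ) * ζ := by positivity
      positivity
    have hb0 : 0 ≤ b := by rw [hb, be_eq]; positivity
    have hh0 : 0 ≤ h := by rw [hh]; positivity
    obtain ⟨A1, hA1, hI1, hpsi1, hnm1, hcard1⟩ := delete_bad hI ha0 hb0 hh0 Lm (4 / x) N0 hA
    have hgood : Good L A1 S (ζ * x) := by
      refine ⟨hG, hI1.disj, hI1.st1, hR.q0, hR.q1, ?_⟩
      intro v hv
      apply ss_ge hR.q0 (a := a) (b := b) (C := 12 * ζ) (Lm := Lm)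
      · nlinarith
      · rw [hb, be_eq]
        nlinarith [mul_pos hζ0 hx0]
      · rw [ha, al_eq]
        have h1 : (1 : ℝ) ≤ th ζ (j + 1) ^ 2 := one_le_pow₀ ht1
        have h2 : (0 : ℝ) ≤ ((j + 1 : ℕ) : ℝ) * ζ := by positivity
        have h3 : 1 / 12 ≤ th ζ (j + 1) ^ 2 * (1 / 12 + ((j + 1 : ℕ) : ℝ) * ζ) := by nlinarith
        have h4 : ζ ^ 2 * x ^ 2 ≤ ζ * 1 * x ^ 2 := by
          apply mul_le_mul_of_nonneg_right _ (sq_nonneg x)
          nlinarith
        have h5 : ζ * 1 * x ^ 2 ≤ 12 * ζ * (th ζ (j + 1) ^ 2 * (1 / 12 + ((j + 1 : ℕ) : ℝ) * ζ)) * x ^ 2 := by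
          apply mul_le_mul_of_nonneg_right _ (sq_nonneg x)
          nlinarith
        calc (ζ * x) ^ 2 = ζ ^ 2 * x ^ 2 := by ring
          _ ≤ ζ * 1 * x ^ 2 := h4
          _ ≤ _ := h5
          _ = _ := by ring
      · exact hLm
      · linarith
      · exact hpsi1 v hv
    have hnm1' : ∀ l ∈ L, ((A1 ∩ l).card : ℝ) ≤ 4 / x := by
      intro l hl
      rcases (A1 ∩ l).eq_empty_or_nonempty with h0 | h0
      · rw [h0]; simp; positivity
      · exact hnm1 l hl h0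
    obtain ⟨A2, S2, hI2, hA2, hS2, hstep⟩ := round_step hI1 hgood hR hnm1'
      ((j : ℝ) * ζ * (2 * x) / 2) ((j : ℝ) * (j + 1) * ζ * (2 * x) / 4 * exp (-Lm))
      ((j : ℝ) * 2 ^ j * ζ * (2 * x) * (N0 * exp (-(4 * H)))) (by positivity) (by positivity)
      (by positivity)
    have hA2N : (A2.card : ℝ) ≤ N0 := by
      refine le_trans ?_ hA
      exact_mod_cast card_le_card (hA2.trans hA1)
    obtain ⟨A3, S3, hI3, hS3, hfin⟩ := ih (2 * x) A2 S2 (by push_cast at hj; nlinarith) (by positivity)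
      (by rw [pow_succ] at hx; linarith) (by rw [pow_succ] at hHx; linarith) hI2 hA2N
    refine ⟨A3, S3, hI3, ?_, ?_⟩
    · intro z hz
      have h1 := hS3 hz
      rw [mem_union] at h1 ⊢
      rcases h1 with h1 | h1
      · have h2 := hS2 h1
        rw [mem_union] at h2
        rcases h2 with h2 | h2
        · exact Or.inl h2
        · exact Or.inr (hA1 h2)
      · exact Or.inr (hA1 (hA2 h1))
    have hPhi1 : Phi L a b A1 S ≤ Phi L a b A S := Phi_mono ha0 hb0 hA1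
    have hPhiL1 : PhiL L h A1 ≤ PhiL L h A := PhiL_mono hh0 hA1
    have hexp : exp (-(h * (4 / x))) ≤ exp (-(4 * H)) := by
      apply exp_le_exp.mpr
      have : h * (4 / x) = 4 * th ζ (j + 1) * H := by rw [hh]; field_simp
      rw [this]
      nlinarith
    have hP0 : 0 ≤ Phi L a b A S := Phi_nonneg a b
    have hPL0 : 0 ≤ PhiL L h A := PhiL_nonneg h
    have hbad : (A.card : ℝ) - (Phi L a b A S * exp (-Lm) + N0 * exp (-(4 * H)) * PhiL L h A)
        ≤ A1.card := by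
      have : N0 * exp (-(h * (4 / x))) * PhiL L h A ≤ N0 * exp (-(4 * H)) * PhiL L h A :=
        mul_le_mul_of_nonneg_right (mul_le_mul_of_nonneg_left hexp hN0) hPL0
      linarith
    set P := Phi L a b A S with hPdef
    set PL := PhiL L h A with hPLdef
    set X := N0 * exp (-(4 * H)) with hX
    have hX0 : 0 ≤ X := by positivity
    set Eb := exp (-Lm) with hEb
    have hEb0 : 0 < Eb := exp_pos _
    -- combine
    have hlam : (ζ * x + (j : ℝ) * ζ * (2 * x) / 2) / 2 = ((j : ℝ) + 1) * ζ * x / 2 := by ring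
    rw [hlam] at hstep
    have hl0 : 0 ≤ ((j : ℝ) + 1) * ζ * x / 2 := by positivity
    have h1 := mul_le_mul_of_nonneg_left hbad hl0
    have h2 : (j : ℝ) * (j + 1) * ζ * (2 * x) / 4 * Eb / 2 * Phi L a b A1 S
        ≤ (j : ℝ) * (j + 1) * ζ * (2 * x) / 4 * Eb / 2 * P :=
      mul_le_mul_of_nonneg_left hPhi1 (by positivity)
    have h3 : (j : ℝ) * 2 ^ j * ζ * (2 * x) * X * PhiL L h A1
        ≤ (j : ℝ) * 2 ^ j * ζ * (2 * x) * X * PL :=
      mul_le_mul_of_nonneg_left hPhiL1 (by positivity)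
    have h4 : ((j : ℝ) + 1) * ζ * x / 2 * (X * PL) + (j : ℝ) * 2 ^ j * ζ * (2 * x) * X * PL
        ≤ ((j : ℝ) + 1) * 2 ^ (j + 1) * ζ * x * X * PL := by
      have h5 : (((j : ℝ) + 1) / 2 + (j : ℝ) * 2 ^ j * 2) ≤ ((j : ℝ) + 1) * 2 ^ (j + 1) := by
        rw [pow_succ]
        have h6 := Nat.lt_two_pow_self (n := j)
        have h7 : (j : ℝ) < 2 ^ j := by exact_mod_cast h6
        nlinarith
      have h8 : 0 ≤ ζ * x * X * PL := by positivity
      have h9 := mul_le_mul_of_nonneg_right h5 h8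
      calc ((j : ℝ) + 1) * ζ * x / 2 * (X * PL) + (j : ℝ) * 2 ^ j * ζ * (2 * x) * X * PL
          = (((j : ℝ) + 1) / 2 + (j : ℝ) * 2 ^ j * 2) * (ζ * x * X * PL) := by ring
        _ ≤ ((j : ℝ) + 1) * 2 ^ (j + 1) * (ζ * x * X * PL) := h9
        _ = _ := by ring
    have h10 : ((j : ℝ) + 1) * ζ * x / 2 * (P * Eb) + (j : ℝ) * (j + 1) * ζ * (2 * x) / 4 * Eb / 2 * P
        = ((j : ℝ) + 1) * ((j : ℝ) + 1 + 1) * ζ * x / 4 * Eb * P := by ring
    push_cast
    have h11 : ((j : ℝ) + 1) * ζ * x / 2 * ((A.card : ℝ) - (P * Eb + X * PL))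
        = ((j : ℝ) + 1) * ζ * x / 2 * (A.card : ℝ) - ((j : ℝ) + 1) * ζ * x / 2 * (P * Eb)
          - ((j : ℝ) + 1) * ζ * x / 2 * (X * PL) := by ring
    rw [h11] at h1
    linarith

/-- the nibble theorem -/
theorem nibble (hG : Girth5 L) {A : Finset V} {D Λ ζ H : ℝ} {T : ℕ} (hD : 1 ≤ D)
    (hΛ0 : 0 < Λ) (hζ : ζ = 1 / (96 * Λ)) (hΛ1 : 1 ≤ Λ) (hTζ : (T : ℝ) * ζ ≤ 1 / 12)
    (hH0 : 0 ≤ H) (hc1 : 73 * 2 ^ T ≤ ζ * D) (hc2 : 3 * H * 2 ^ T ≤ ζ * D)
    (hTΛ : 2 * ((T : ℝ) + 1) ≤ exp (Λ / 2)) (hHL : 8 * 2 ^ T * (L.card : ℝ) ≤ exp H)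
    (hsize : ∀ l ∈ L, ((A ∩ l).card : ℝ) ≤ D)
    (hdeg : ∀ v ∈ A, ∑ l ∈ Lv L v, ch2 ((XX A l v).card : ℝ) ≤ D ^ 2 * Λ) :
    ∃ S : Finset V, S ⊆ A ∧ (∀ l ∈ L, (S ∩ l).card ≤ 2) ∧
      (T : ℝ) * ζ * (A.card : ℝ) / (4 * D) ≤ (S.card : ℝ) := by
  have hD0 : 0 < D := by linarith
  have hζ0 : 0 < ζ := by rw [hζ]; positivity
  have hζ1 : ζ ≤ 1 / 96 := by
    rw [hζ]
    apply div_le_div_of_nonneg_left (by norm_num) (by norm_num)
    linarith
  have hζΛ : ζ * Λ = 1 / 96 := by rw [hζ]; field_simp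
  have hI : Inv L A ∅ := ⟨disjoint_empty_right _, by simp, by simp⟩
  obtain ⟨A', S, hI', hS, hmain⟩ := nibble_iter (L := L) hG (ζ := ζ) (H := H) (Lm := 2 * Λ)
    (N0 := (A.card : ℝ)) hζ0 hζ1 (by nlinarith) hH0 (Nat.cast_nonneg _) T (1 / D) A ∅ hTζ
    (by positivity) (by rw [mul_one_div, div_le_iff₀ hD0]; exact hc1)
    (by rw [mul_one_div, div_le_iff₀ hD0]; exact hc2) hI le_rfl
  refine ⟨S, by simpa using hS, hI'.st2, ?_⟩
  set N : ℝ := (A.card : ℝ) with hN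
  have hN0 : 0 ≤ N := Nat.cast_nonneg _
  have hT0 : (0 : ℝ) ≤ T := Nat.cast_nonneg _
  -- potentials at the start
  have hth := th_le hζ0.le hTζ
  have hth1 := th_ge_one hζ0.le T
  have hal : al ζ T ≤ 25 / 24 := by
    rw [al_eq]
    have h1 : th ζ T ^ 2 ≤ (5 / 2) ^ 2 := pow_le_pow_left₀ (by linarith) hth 2
    have h2 : (1 / 12 + (T : ℝ) * ζ) ≤ 1 / 6 := by linarith
    calc th ζ T ^ 2 * (1 / 12 + (T : ℝ) * ζ) ≤ (5 / 2) ^ 2 * (1 / 6) :=
          mul_le_mul h1 h2 (by positivity) (by norm_num)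
      _ = 25 / 24 := by norm_num
  have hal0 : 0 ≤ al ζ T := by rw [al_eq]; positivity
  have hPhi : Phi L (al ζ T * (1 / D) ^ 2) (be ζ T * (1 / D)) A ∅ ≤ N * exp (25 / 24 * Λ) := by
    unfold Phi
    rw [hN, ← nsmul_eq_mul, ← sum_const]
    apply sum_le_sum
    intro v hv
    apply exp_le_exp.mpr
    have e : psi L (al ζ T * (1 / D) ^ 2) (be ζ T * (1 / D)) A ∅ v
        = al ζ T * (1 / D) ^ 2 * ∑ l ∈ Lv L v, ch2 ((XX A l v).card : ℝ) := by
      unfold psi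
      rw [mul_sum]
      apply sum_congr rfl
      intro l _
      unfold con
      simp
    rw [e]
    have h1 := mul_le_mul_of_nonneg_left (hdeg v hv)
      (show 0 ≤ al ζ T * (1 / D) ^ 2 by positivity)
    have h2 : al ζ T * (1 / D) ^ 2 * (D ^ 2 * Λ) = al ζ T * Λ := by field_simp
    rw [h2] at h1
    have h3 := mul_le_mul_of_nonneg_right hal hΛ0.le
    linarith
  have hPhiL : PhiL L (th ζ T * H * (1 / D)) A ≤ (L.card : ℝ) * exp (5 / 2 * H) := by
    unfold PhiL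
    rw [← nsmul_eq_mul, ← sum_const]
    apply sum_le_sum
    intro l hl
    apply exp_le_exp.mpr
    have h1 := mul_le_mul_of_nonneg_left (hsize l hl)
      (show 0 ≤ th ζ T * H * (1 / D) by positivity)
    have h2 : th ζ T * H * (1 / D) * D = th ζ T * H := by field_simp
    rw [h2] at h1
    have h3 := mul_le_mul_of_nonneg_right hth hH0
    linarith
  have hμ : (T : ℝ) * (T + 1) * ζ * (1 / D) / 4 * exp (-(2 * Λ))
      * Phi L (al ζ T * (1 / D) ^ 2) (be ζ T * (1 / D)) A ∅ ≤ (T : ℝ) * ζ * N / (8 * D) := by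
    have h1 : (T : ℝ) * (T + 1) * ζ * (1 / D) / 4 * exp (-(2 * Λ))
        * Phi L (al ζ T * (1 / D) ^ 2) (be ζ T * (1 / D)) A ∅
        ≤ (T : ℝ) * (T + 1) * ζ * (1 / D) / 4 * exp (-(2 * Λ)) * (N * exp (25 / 24 * Λ)) :=
      mul_le_mul_of_nonneg_left hPhi (by positivity)
    have h2 : ((T : ℝ) + 1) * (exp (-(2 * Λ)) * exp (25 / 24 * Λ)) ≤ 1 / 2 := by
      have h3 : exp (-(2 * Λ)) * exp (25 / 24 * Λ) ≤ exp (-(Λ / 2)) := by
        rw [← exp_add]
        apply exp_le_exp.mpr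
        linarith
      have h4 : ((T : ℝ) + 1) * exp (-(Λ / 2)) ≤ 1 / 2 := by
        have h5 : exp (Λ / 2) * exp (-(Λ / 2)) = 1 := by rw [← exp_add]; simp
        have h6 := mul_le_mul_of_nonneg_right hTΛ (exp_pos (-(Λ / 2))).le
        linarith
      have h7 := mul_le_mul_of_nonneg_left h3 (show 0 ≤ (T : ℝ) + 1 by positivity)
      linarith
    have h8 : (T : ℝ) * (T + 1) * ζ * (1 / D) / 4 * exp (-(2 * Λ)) * (N * exp (25 / 24 * Λ))
        = ((T : ℝ) * ζ * N / (4 * D)) * (((T : ℝ) + 1) * (exp (-(2 * Λ)) * exp (25 / 24 * Λ))) := by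
      field_simp
    rw [h8] at h1
    have h9 : ((T : ℝ) * ζ * N / (4 * D)) * (((T : ℝ) + 1) * (exp (-(2 * Λ)) * exp (25 / 24 * Λ)))
        ≤ ((T : ℝ) * ζ * N / (4 * D)) * (1 / 2) := mul_le_mul_of_nonneg_left h2 (by positivity)
    have h10 : ((T : ℝ) * ζ * N / (4 * D)) * (1 / 2) = (T : ℝ) * ζ * N / (8 * D) := by
      field_simp; ring
    linarith
  have hρ : (T : ℝ) * 2 ^ T * ζ * (1 / D) * (N * exp (-(4 * H)))
      * PhiL L (th ζ T * H * (1 / D)) A ≤ (T : ℝ) * ζ * N / (8 * D) := by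
    have h1 : (T : ℝ) * 2 ^ T * ζ * (1 / D) * (N * exp (-(4 * H)))
        * PhiL L (th ζ T * H * (1 / D)) A
        ≤ (T : ℝ) * 2 ^ T * ζ * (1 / D) * (N * exp (-(4 * H))) * ((L.card : ℝ) * exp (5 / 2 * H)) :=
      mul_le_mul_of_nonneg_left hPhiL (by positivity)
    have h2 : 2 ^ T * (L.card : ℝ) * (exp (-(4 * H)) * exp (5 / 2 * H)) ≤ 1 / 8 := by
      have h3 : exp (-(4 * H)) * exp (5 / 2 * H) ≤ exp (-H) := by
        rw [← exp_add]
        apply exp_le_exp.mpr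
        linarith
      have h4 : 2 ^ T * (L.card : ℝ) * exp (-H) ≤ 1 / 8 := by
        have h5 : exp H * exp (-H) = 1 := by rw [← exp_add]; simp
        have h6 := mul_le_mul_of_nonneg_right hHL (exp_pos (-H)).le
        linarith
      have h7 := mul_le_mul_of_nonneg_left h3 (show 0 ≤ 2 ^ T * (L.card : ℝ) by positivity)
      linarith
    have h8 : (T : ℝ) * 2 ^ T * ζ * (1 / D) * (N * exp (-(4 * H))) * ((L.card : ℝ) * exp (5 / 2 * H))
        = ((T : ℝ) * ζ * N / D) * (2 ^ T * (L.card : ℝ) * (exp (-(4 * H)) * exp (5 / 2 * H))) := by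
      field_simp
    rw [h8] at h1
    have h9 := mul_le_mul_of_nonneg_left h2 (show 0 ≤ (T : ℝ) * ζ * N / D by positivity)
    have h10 : ((T : ℝ) * ζ * N / D) * (1 / 8) = (T : ℝ) * ζ * N / (8 * D) := by
      field_simp
    linarith
  simp only [card_empty, Nat.cast_zero, zero_add] at hmain
  have h11 : (T : ℝ) * ζ * (1 / D) / 2 * N = (T : ℝ) * ζ * N / (2 * D) := by field_simp
  rw [h11] at hmain
  have h12 : (T : ℝ) * ζ * N / (2 * D) - (T : ℝ) * ζ * N / (8 * D) - (T : ℝ) * ζ * N / (8 * D)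
      = (T : ℝ) * ζ * N / (4 * D) := by field_simp; ring
  linarith

end Nibble

end Pool.Agent.Lib.MP_0c755a_co
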