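import Mathlib

/-!
A linear bound for the number of edges of a non-crossing straight line drawing.
-/

set_option linter.unusedSectionVars false
set_option linter.unusedVariables false

namespace Pool.Agent.Lib.MP_0c755a_co

open Finset

section Planar

variable {V : Type*} [DecidableEq V] (X Y : V → ℝ)

/-- slope of an edge -/
noncomputable def sl (e : V × V) : ℝ := (Y e.2 - Y e.1) / (X e.2 - X e.1)

/-- height of an edge at abscissa `x` -/
noncomputable def yy (e : V × V) (x : ℝ) : ℝ := Y e.1 + sl X Y e * (x - X e.1)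

/-- a non-crossing drawing -/
structure NC (P : Finset V) (E : Finset (V × V)) : Prop where
  mem1 : ∀ e ∈ E, e.1 ∈ P
  mem2 : ∀ e ∈ E, e.2 ∈ P
  lt : ∀ e ∈ E, X e.1 < X e.2
  pt : ∀ e ∈ E, ∀ w ∈ P, X e.1 < X w → X w < X e.2 → Y w ≠ yy X Y e (X w)
  nc : ∀ e ∈ E, ∀ f ∈ E, e ≠ f → ∀ x : ℝ, X e.1 < x → x < X e.2 → X f.1 < x → x < X f.2 →
    yy X Y e x ≠ yy X Y f x

variable {X Y}

lemma yy_left (e : V × V) : yy X Y e (X e.1) = Y e.1 := by simp [yy]

lemma yy_right {e : V × V} (h : X e.1 < X e.2) : yy X Y e (X e.2) = Y e.2 := by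
  unfold yy sl
  have : X e.2 - X e.1 ≠ 0 := by linarith
  field_simp
  ring

/-- an affine function which changes sign has a zero -/
lemma affine_zero {α β a b : ℝ} (hab : a < b) (h1 : α * a + β < 0) (h2 : 0 < α * b + β) :
    ∃ x, a < x ∧ x < b ∧ α * x + β = 0 := by
  have hα : 0 < α := by
    by_contra h
    push Not at h
    nlinarith
  refine ⟨-β / α, ?_, ?_, ?_⟩
  · rw [lt_div_iff₀ hα]; linarith
  · rw [div_lt_iff₀ hα]; linarith
  · field_simp; ring

/-- difference of two edges as an affine function -/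
lemma yy_sub (e f : V × V) (x : ℝ) : yy X Y e x - yy X Y f x
    = (sl X Y e - sl X Y f) * x + (Y e.1 - sl X Y e * X e.1 - (Y f.1 - sl X Y f * X f.1)) := by
  unfold yy; ring

/-- two different edges keep their order as long as both are present -/
lemma order_left {P : Finset V} {E : Finset (V × V)} (h : NC X Y P E) {e f : V × V} (he : e ∈ E)
    (hf : f ∈ E) {a w : ℝ} (haw : a < w) (ha1 : X e.1 ≤ a) (ha2 : X f.1 ≤ a) (hw1 : w ≤ X e.2)
    (hw2 : w ≤ X f.2) (hlt : yy X Y f w < yy X Y e w) : yy X Y f a ≤ yy X Y e a := by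
  by_contra hcon
  push Not at hcon
  have hne : e ≠ f := by
    rintro rfl
    exact lt_irrefl _ hlt
  have e1 := yy_sub (X := X) (Y := Y) e f a
  have e2 := yy_sub (X := X) (Y := Y) e f w
  obtain ⟨x, hx1, hx2, hx3⟩ := affine_zero (α := sl X Y e - sl X Y f)
    (β := Y e.1 - sl X Y e * X e.1 - (Y f.1 - sl X Y f * X f.1)) haw (by linarith) (by linarith)
  have e3 := yy_sub (X := X) (Y := Y) e f x
  exact h.nc e he f hf hne x (by linarith) (by linarith) (by linarith) (by linarith) (by linarith)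

/-- two right edges with the same slope coincide -/
lemma eq_of_slope {P : Finset V} {E : Finset (V × V)} (h : NC X Y P E) {e f : V × V} (he : e ∈ E)
    (hf : f ∈ E) (h1 : e.1 = f.1) (h2 : sl X Y e = sl X Y f) : e = f := by
  by_contra hne
  have hle := h.lt e he
  have hlf := h.lt f hf
  rw [h1] at hle
  have hm : X f.1 < min (X e.2) (X f.2) := lt_min hle hlf
  apply h.nc e he f hf hne ((X f.1 + min (X e.2) (X f.2)) / 2)
  · rw [h1]; linarith
  · have := min_le_left (X e.2) (X f.2)
    linarith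
  · linarith
  · have := min_le_right (X e.2) (X f.2)
    linarith
  · unfold yy
    rw [h1, h2]

/-- the witness structure -/
structure Wit (X Y : V → ℝ) (P : Finset V) (E : Finset (V × V)) (f e : V × V) (w : V) : Prop where
  fE : f ∈ E
  eE : e ∈ E
  left : e.1 = f.1
  slt : sl X Y e < sl X Y f
  pred : ∀ g ∈ E, g.1 = f.1 → sl X Y g < sl X Y f → sl X Y g ≤ sl X Y e
  wP : w ∈ P
  w1 : X f.1 < X w
  w2 : X w ≤ X e.2
  w3 : X w ≤ X f.2
  w4 : yy X Y e (X w) ≤ Y w
  w5 : Y w ≤ yy X Y f (X w)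
  wmin : ∀ v ∈ P, X f.1 < X v → X v ≤ X e.2 → X v ≤ X f.2 → yy X Y e (X v) ≤ Y v →
    Y v ≤ yy X Y f (X v) → X w ≤ X v

lemma yy_lt_of_slope {e f : V × V} (h1 : e.1 = f.1) (h2 : sl X Y e < sl X Y f) {x : ℝ}
    (hx : X f.1 < x) : yy X Y e x < yy X Y f x := by
  unfold yy
  rw [h1]
  have : 0 < x - X f.1 := by linarith
  have := mul_lt_mul_of_pos_right h2 this
  linarith

lemma exists_wit {P : Finset V} {E : Finset (V × V)} (h : NC X Y P E) {f : V × V} (hf : f ∈ E)
    (hnm : ∃ e ∈ E, e.1 = f.1 ∧ sl X Y e < sl X Y f) : ∃ e w, Wit X Y P E f e w := by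
  classical
  obtain ⟨e0, he0, h01, h02⟩ := hnm
  obtain ⟨e, he, hmax⟩ := exists_max_image (E.filter (fun g => g.1 = f.1 ∧ sl X Y g < sl X Y f))
    (fun g => sl X Y g) ⟨e0, mem_filter.mpr ⟨he0, h01, h02⟩⟩
  rw [mem_filter] at he
  obtain ⟨heE, hel, hes⟩ := he
  have hle := h.lt e heE
  have hlf := h.lt f hf
  have hne : (P.filter (fun v => X f.1 < X v ∧ X v ≤ X e.2 ∧ X v ≤ X f.2 ∧
      yy X Y e (X v) ≤ Y v ∧ Y v ≤ yy X Y f (X v))).Nonempty := by
    rcases le_total (X e.2) (X f.2) with hc | hc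
    · refine ⟨e.2, mem_filter.mpr ⟨h.mem2 e heE, ?_, le_rfl, hc, ?_, ?_⟩⟩
      · rw [← hel]; exact hle
      · rw [yy_right hle]
      · have h1 := yy_lt_of_slope (X := X) (Y := Y) hel hes (x := X e.2) (by rw [← hel]; exact hle)
        rw [yy_right hle] at h1
        exact h1.le
    · refine ⟨f.2, mem_filter.mpr ⟨h.mem2 f hf, hlf, hc, le_rfl, ?_, ?_⟩⟩
      · have h1 := yy_lt_of_slope (X := X) (Y := Y) hel hes (x := X f.2) hlf
        rw [yy_right hlf] at h1
        exact h1.le
      · rw [yy_right hlf]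
  obtain ⟨w, hw, hmin⟩ := exists_min_image _ X hne
  rw [mem_filter] at hw
  refine ⟨e, w, hf, heE, hel, hes, ?_, hw.1, hw.2.1, hw.2.2.1, hw.2.2.2.1, hw.2.2.2.2.1,
    hw.2.2.2.2.2, ?_⟩
  · intro g hg h1 h2
    exact hmax g (mem_filter.mpr ⟨hg, h1, h2⟩)
  · intro v hv a1 a2 a3 a4 a5
    exact hmin v (mem_filter.mpr ⟨hv, a1, a2, a3, a4, a5⟩)

/-- no edge passes strictly between the two edges at the witness -/
lemma no_between {P : Finset V} {E : Finset (V × V)} (h : NC X Y P E)
    (hX : ∀ u ∈ P, ∀ v ∈ P, X u = X v → u = v) {f e : V × V} {w : V}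
    (hw : Wit X Y P E f e w) {g : V × V} (hg : g ∈ E) (hg1 : X g.1 < X w) (hg2 : X w < X g.2)
    (h1 : yy X Y e (X w) < yy X Y g (X w)) (h2 : yy X Y g (X w) < yy X Y f (X w)) : False := by
  have hle := h.lt e hw.eE
  have hlf := h.lt f hw.fE
  have hel : X e.1 = X f.1 := by rw [hw.left]
  rcases lt_trichotomy (X g.1) (X f.1) with hc | hc | hc
  · -- `f.1` lies on `g`
    have a1 : yy X Y e (X f.1) ≤ yy X Y g (X f.1) :=
      order_left h hg hw.eE hw.w1 hc.le hel.le hg2.le hw.w2 h1
    have a2 : yy X Y g (X f.1) ≤ yy X Y f (X f.1) :=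
      order_left h hw.fE hg hw.w1 le_rfl hc.le hw.w3 hg2.le h2
    rw [yy_left f] at a2
    have a3 : yy X Y e (X f.1) = Y f.1 := by rw [← hw.left, yy_left]
    rw [a3] at a1
    exact h.pt g hg f.1 (h.mem1 f hw.fE) hc (by linarith [hw.w1]) (le_antisymm a1 a2)
  · have hgf : g.1 = f.1 := hX _ (h.mem1 g hg) _ (h.mem1 f hw.fE) hc
    have b1 : sl X Y g < sl X Y f := by
      by_contra hcon
      push Not at hcon
      have : 0 ≤ X w - X f.1 := by linarith [hw.w1]
      have h3 := mul_le_mul_of_nonneg_right hcon this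
      unfold yy at h2
      rw [hgf] at h2
      linarith
    have b2 : sl X Y e < sl X Y g := by
      by_contra hcon
      push Not at hcon
      have : 0 ≤ X w - X f.1 := by linarith [hw.w1]
      have h3 := mul_le_mul_of_nonneg_right hcon this
      unfold yy at h1
      rw [hgf, hw.left] at h1
      linarith
    exact absurd (hw.pred g hg hgf b1) (by linarith)
  · -- `g.1` lies in the wedge
    have a1 : yy X Y e (X g.1) ≤ yy X Y g (X g.1) :=
      order_left h hg hw.eE hg1 le_rfl (by linarith) hg2.le hw.w2 h1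
    have a2 : yy X Y g (X g.1) ≤ yy X Y f (X g.1) :=
      order_left h hw.fE hg hg1 (by linarith) le_rfl hw.w3 hg2.le h2
    rw [yy_left g] at a1 a2
    have := hw.wmin g.1 (h.mem1 g hg) hc (by linarith [hw.w2]) (by linarith [hw.w3]) a1 a2
    linarith

lemma wit_inj1 {P : Finset V} {E : Finset (V × V)} (h : NC X Y P E)
    (hX : ∀ u ∈ P, ∀ v ∈ P, X u = X v → u = v) {f e f' e' : V × V} {w : V}
    (hw : Wit X Y P E f e w) (hw' : Wit X Y P E f' e' w) (he : e = e') : f = f' := by
  subst he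
  have h1 : f.1 = f'.1 := by rw [← hw.left, hw'.left]
  rcases lt_trichotomy (sl X Y f) (sl X Y f') with hc | hc | hc
  · have := hw'.pred f hw.fE h1 hc
    have := hw.slt
    linarith
  · exact eq_of_slope h hw.fE hw'.fE h1 hc
  · have := hw.pred f' hw'.fE h1.symm hc
    have := hw'.slt
    linarith

/-- type one -/
lemma wit_type1 {P : Finset V} {E : Finset (V × V)} (h : NC X Y P E)
    (hX : ∀ u ∈ P, ∀ v ∈ P, X u = X v → u = v) {f e f' e' : V × V} {w : V}
    (hw : Wit X Y P E f e w) (hw' : Wit X Y P E f' e' w) (ht : yy X Y e (X w) < Y w)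
    (ht' : yy X Y e' (X w) < Y w) : f = f' := by
  apply wit_inj1 h hX hw hw'
  have hlt : ∀ {f e : V × V}, Wit X Y P E f e w → yy X Y e (X w) < Y w → X w < X e.2 := by
    intro f e hw ht
    rcases lt_or_eq_of_le hw.w2 with hc | hc
    · exact hc
    · have : w = e.2 := hX w hw.wP e.2 (h.mem2 e hw.eE) hc
      rw [hc, yy_right (h.lt e hw.eE), this] at ht
      exact absurd ht (lt_irrefl _)
  have k1 : X e.1 < X w := by rw [hw.left]; exact hw.w1
  have k1' : X e'.1 < X w := by rw [hw'.left]; exact hw'.w1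
  have k2 := hlt hw ht
  have k2' := hlt hw' ht'
  rcases lt_trichotomy (yy X Y e (X w)) (yy X Y e' (X w)) with hc | hc | hc
  · exact (no_between h hX hw hw'.eE k1' k2' hc (lt_of_lt_of_le ht' hw.w5)).elim
  · by_contra hne
    exact h.nc e hw.eE e' hw'.eE hne (X w) k1 k2 k1' k2' hc
  · exact (no_between h hX hw' hw.eE k1 k2 hc (lt_of_lt_of_le ht hw'.w5)).elim

/-- type two -/
lemma wit_type2 {P : Finset V} {E : Finset (V × V)} (h : NC X Y P E)
    (hX : ∀ u ∈ P, ∀ v ∈ P, X u = X v → u = v) {f e f' e' : V × V} {w : V}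
    (hw : Wit X Y P E f e w) (hw' : Wit X Y P E f' e' w) (ht : ¬ yy X Y e (X w) < Y w)
    (ht' : ¬ yy X Y e' (X w) < Y w) : f = f' := by
  have heq : yy X Y e (X w) = Y w := le_antisymm hw.w4 (not_lt.mp ht)
  have heq' : yy X Y e' (X w) = Y w := le_antisymm hw'.w4 (not_lt.mp ht')
  have hlt1 : ∀ {f e : V × V}, Wit X Y P E f e w → yy X Y e (X w) = Y w →
      Y w < yy X Y f (X w) := by
    intro f e hw heq
    rw [← heq]
    exact yy_lt_of_slope hw.left hw.slt hw.w1
  have m1 := hlt1 hw heq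
  have m1' := hlt1 hw' heq'
  have hlt : ∀ {f e : V × V}, Wit X Y P E f e w → Y w < yy X Y f (X w) → X w < X f.2 := by
    intro f e hw ht
    rcases lt_or_eq_of_le hw.w3 with hc | hc
    · exact hc
    · have : w = f.2 := hX w hw.wP f.2 (h.mem2 f hw.fE) hc
      rw [hc, yy_right (h.lt f hw.fE), this] at ht
      exact absurd ht (lt_irrefl _)
  have k2 := hlt hw m1
  have k2' := hlt hw' m1'
  rcases lt_trichotomy (yy X Y f (X w)) (yy X Y f' (X w)) with hc | hc | hc
  · exact (no_between h hX hw' hw.fE hw.w1 k2 (by rw [heq']; exact m1) hc).elim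
  · by_contra hne
    exact h.nc f hw.fE f' hw'.fE hne (X w) hw.w1 k2 hw'.w1 k2' hc
  · exact (no_between h hX hw hw'.fE hw'.w1 k2' (by rw [heq]; exact m1') hc).elim

/-- a non-crossing drawing has at most `3 n` edges -/
theorem planar_bound {P : Finset V} {E : Finset (V × V)} (h : NC X Y P E)
    (hX : ∀ u ∈ P, ∀ v ∈ P, X u = X v → u = v) : E.card ≤ 3 * P.card := by
  classical
  set Em := E.filter (fun f => ¬ ∃ e ∈ E, e.1 = f.1 ∧ sl X Y e < sl X Y f) with hEm
  set En := E.filter (fun f => ∃ e ∈ E, e.1 = f.1 ∧ sl X Y e < sl X Y f) with hEn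
  have hsplit : E.card = En.card + Em.card := by
    rw [hEm, hEn, card_filter_add_card_filter_not]
  have h1 : Em.card ≤ P.card := by
    apply card_le_card_of_injOn (fun f => f.1)
    · intro f hf
      rw [mem_coe, hEm, mem_filter] at hf
      exact mem_coe.mpr (h.mem1 f hf.1)
    · intro f hf f' hf' heq
      rw [mem_coe, hEm, mem_filter] at hf hf'
      simp only at heq
      rcases lt_trichotomy (sl X Y f) (sl X Y f') with hc | hc | hc
      · exact (hf'.2 ⟨f, hf.1, heq, hc⟩).elim
      · exact eq_of_slope h hf.1 hf'.1 heq hc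
      · exact (hf.2 ⟨f', hf'.1, heq.symm, hc⟩).elim
  have h2 : En.card ≤ 2 * P.card := by
    rcases En.eq_empty_or_nonempty with h0 | ⟨f0, hf0⟩
    · rw [h0]; simp
    have hne : Nonempty V := ⟨f0.1⟩
    have hex : ∀ f ∈ En, ∃ ew : (V × V) × V, Wit X Y P E f ew.1 ew.2 := by
      intro f hf
      rw [hEn, mem_filter] at hf
      obtain ⟨e, w, hw⟩ := exists_wit h hf.1 hf.2
      exact ⟨(e, w), hw⟩
    choose! g hg using hex
    have h3 : En.card ≤ (P ×ˢ (univ : Finset Bool)).card := by
      apply card_le_card_of_injOn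
        (fun f => ((g f).2, decide (yy X Y (g f).1 (X (g f).2) < Y (g f).2)))
      · intro f hf
        rw [mem_coe] at hf ⊢
        rw [mem_product]
        exact ⟨(hg f hf).wP, mem_univ _⟩
      · intro f hf f' hf' heq
        rw [mem_coe] at hf hf'
        simp only [Prod.mk.injEq] at heq
        have hw := hg f hf
        have hw' := hg f' hf'
        rw [heq.1] at hw
        have hd := heq.2
        rw [heq.1] at hd
        by_cases ht : yy X Y (g f).1 (X (g f').2) < Y (g f').2
        · have ht' : yy X Y (g f').1 (X (g f').2) < Y (g f').2 := by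
            have : decide (yy X Y (g f').1 (X (g f').2) < Y (g f').2) = true := by
              rw [← hd]; exact decide_eq_true ht
            exact of_decide_eq_true this
          exact wit_type1 h hX hw hw' ht ht'
        · have ht' : ¬ yy X Y (g f').1 (X (g f').2) < Y (g f').2 := by
            intro hcon
            apply ht
            have : decide (yy X Y (g f).1 (X (g f').2) < Y (g f').2) = true := by
              rw [hd]; exact decide_eq_true hcon
            exact of_decide_eq_true this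
          exact wit_type2 h hX hw hw' ht ht'
    rw [card_product] at h3
    simp at h3
    omega
  omega

end Planar

end Pool.Agent.Lib.MP_0c755a_co
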