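import Pool.Agent.Lib.MP_0c755a_co.Defs
import Pool.Agent.Lib.MP_0c755a_co.Geo2

/-!
Transfer to the Euclidean plane, and the grid.
-/

set_option linter.unusedSectionVars false
set_option linter.unusedVariables false

namespace Pool.Agent.Lib.MP_0c755a_co

open Finset

/-- the plane -/
abbrev E2 := EuclideanSpace ℝ (Fin 2)

lemma det_of_collinear {s : Set E2} (hs : Collinear ℝ s) {p q r : E2} (hp : p ∈ s) (hq : q ∈ s)
    (hr : r ∈ s) : (q 0 - p 0) * (r 1 - p 1) - (q 1 - p 1) * (r 0 - p 0) = 0 := by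
  rw [collinear_iff_exists_forall_eq_smul_vadd] at hs
  obtain ⟨p0, v, h⟩ := hs
  obtain ⟨t1, h1⟩ := h p hp
  obtain ⟨t2, h2⟩ := h q hq
  obtain ⟨t3, h3⟩ := h r hr
  have c : ∀ (t : ℝ) (i : Fin 2), (t • v +ᵥ p0) i = t * v i + p0 i := by
    intro t i
    simp
  rw [h1, h2, h3, c, c, c, c, c, c]
  ring

lemma eq_of_det {p q r : E2} (hpq : p ≠ q)
    (h : (q 0 - p 0) * (r 1 - p 1) - (q 1 - p 1) * (r 0 - p 0) = 0) :
    ∃ t : ℝ, r = t • (q - p) +ᵥ p := by
  have c : ∀ (t : ℝ) (i : Fin 2), (t • (q - p) +ᵥ p) i = t * (q i - p i) + p i := by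
    intro t i
    simp
  by_cases h0 : q 0 - p 0 = 0
  · have h1 : q 1 - p 1 ≠ 0 := by
      intro h1
      apply hpq
      ext i
      fin_cases i
      · simp only [Fin.zero_eta, Fin.isValue]; linarith
      · simp only [Fin.mk_one, Fin.isValue]; linarith
    refine ⟨(r 1 - p 1) / (q 1 - p 1), ?_⟩
    have h2 : r 0 - p 0 = 0 := by
      rw [h0] at h
      have : (q 1 - p 1) * (r 0 - p 0) = 0 := by linarith
      exact (mul_eq_zero.mp this).resolve_left h1
    ext i
    rw [c]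
    fin_cases i
    · simp only [Fin.zero_eta, Fin.isValue]
      rw [h0]; linarith
    · simp only [Fin.mk_one, Fin.isValue]
      field_simp
      ring
  · refine ⟨(r 0 - p 0) / (q 0 - p 0), ?_⟩
    ext i
    rw [c]
    fin_cases i
    · simp only [Fin.zero_eta, Fin.isValue]
      field_simp
      ring
    · simp only [Fin.mk_one, Fin.isValue]
      have : (r 0 - p 0) / (q 0 - p 0) * (q 1 - p 1) = r 1 - p 1 := by
        field_simp
        linarith
      rw [this]; ring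

lemma collinear_of_det {s : Set E2} {p q : E2} (hpq : p ≠ q)
    (h : ∀ r ∈ s, (q 0 - p 0) * (r 1 - p 1) - (q 1 - p 1) * (r 0 - p 0) = 0) :
    Collinear ℝ s := by
  rw [collinear_iff_exists_forall_eq_smul_vadd]
  exact ⟨p, q - p, fun r hr => eq_of_det hpq (h r hr)⟩

/-- the upper bound -/
theorem upper_main : ∃ C : ℕ, 0 < C ∧ ∀ n : ℕ, 3 ≤ n → ∀ P : Finset E2, C * n ^ 2 ≤ P.card →
    HasLineOrGP n P := by
  classical
  obtain ⟨C, hC0, hC⟩ := gp_exists
  refine ⟨C, hC0, ?_⟩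
  intro n hn P hP
  set a : {p // p ∈ P} → ℝ := fun v => v.1 0 with ha
  set b : {p // p ∈ P} → ℝ := fun v => v.1 1 with hb
  have hI : Inj2 a b := by
    intro u v h0 h1
    apply Subtype.ext
    ext i
    fin_cases i
    · exact h0
    · exact h1
  have hcard : Fintype.card {p // p ∈ P} = P.card := Fintype.card_coe P
  by_cases hl : ∀ l ∈ LL a b, l.card < n
  · obtain ⟨S, hS1, hS2⟩ := hC {p // p ∈ P} a b hI n hn (by rw [hcard]; exact hP) hl
    right
    obtain ⟨S', hS', hS'c⟩ := exists_subset_card_eq hS1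
    refine ⟨S'.map ⟨Subtype.val, Subtype.val_injective⟩, ?_, by rw [card_map]; exact hS'c, ?_⟩
    · intro p hp
      rw [Finset.mem_map] at hp
      obtain ⟨p', _, rfl⟩ := hp
      exact p'.2
    · intro T hT hT3 hcol
      obtain ⟨x, y, z, hxy, hxz, hyz, rfl⟩ := card_eq_three.mp hT3
      have hx := hT (show x ∈ ({x, y, z} : Finset E2) by simp)
      have hy := hT (show y ∈ ({x, y, z} : Finset E2) by simp)
      have hz := hT (show z ∈ ({x, y, z} : Finset E2) by simp)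
      have hdet := det_of_collinear hcol (p := x) (q := y) (r := z) (by simp) (by simp) (by simp)
      rw [Finset.mem_map] at hx hy hz
      obtain ⟨x', hx', rfl⟩ := hx
      obtain ⟨y', hy', rfl⟩ := hy
      obtain ⟨z', hz', rfl⟩ := hz
      exact hS2 x' (hS' hx') y' (hS' hy') z' (hS' hz') (fun h => hxy (by rw [h]))
        (fun h => hyz (by rw [h])) (fun h => hxz (by rw [h])) hdet
  · push Not at hl
    obtain ⟨l, hl, hn'⟩ := hl
    left
    obtain ⟨_, u, v, huv, hl'⟩ := mem_LL.mp hl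
    obtain ⟨l', hl'', hl'c⟩ := exists_subset_card_eq hn'
    refine ⟨l'.map ⟨Subtype.val, Subtype.val_injective⟩, ?_, by rw [card_map]; exact hl'c, ?_⟩
    · intro p hp
      rw [Finset.mem_map] at hp
      obtain ⟨p', _, rfl⟩ := hp
      exact p'.2
    · apply collinear_of_det (p := u.1) (q := v.1) (fun h => huv (Subtype.ext h))
      intro r hr
      rw [mem_coe, Finset.mem_map] at hr
      obtain ⟨r', hr', rfl⟩ := hr
      exact (hl' r').mp (hl'' hr')

/-- a grid point -/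
noncomputable def gpt (i j : ℕ) : E2 := !₂[(i : ℝ), (j : ℝ)]

lemma gpt_zero (i j : ℕ) : gpt i j 0 = i := by simp [gpt]
lemma gpt_one (i j : ℕ) : gpt i j 1 = j := by simp [gpt]

open Classical in
/-- the grid -/
noncomputable def grid (m : ℕ) : Finset E2 :=
  (range m ×ˢ range m).image (fun ij => gpt ij.1 ij.2)

lemma card_grid (m : ℕ) : (grid m).card = m ^ 2 := by
  classical
  unfold grid
  rw [card_image_of_injective, card_product, card_range, pow_two]
  rintro ⟨i, j⟩ ⟨i', j'⟩ h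
  simp only at h
  have h0 := congrArg (fun p : E2 => p 0) h
  have h1 := congrArg (fun p : E2 => p 1) h
  simp only [gpt_zero, gpt_one] at h0 h1
  have e0 : i = i' := by exact_mod_cast h0
  have e1 : j = j' := by exact_mod_cast h1
  rw [e0, e1]

lemma mem_grid {m : ℕ} {p : E2} (h : p ∈ grid m) :
    ∃ i < m, ∃ j < m, p = gpt i j := by
  classical
  unfold grid at h
  rw [mem_image] at h
  obtain ⟨⟨i, j⟩, hij, rfl⟩ := h
  rw [mem_product, mem_range, mem_range] at hij
  exact ⟨i, hij.1, j, hij.2, rfl⟩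

lemma ext_gpt {p q : E2} (h0 : p 0 = q 0) (h1 : p 1 = q 1) : p = q := by
  ext i
  fin_cases i
  · exact h0
  · exact h1

lemma card_le_of_coord {m : ℕ} (c : Fin 2) (Q : Finset E2)
    (hQ : ∀ p ∈ Q, ∃ i < m, p c = (i : ℝ))
    (hinj : ∀ p ∈ Q, ∀ q ∈ Q, p c = q c → p = q) : Q.card ≤ m := by
  classical
  rw [← card_range m]
  choose! g hg1 hg2 using hQ
  apply card_le_card_of_injOn g
  · intro p hp
    exact mem_coe.mpr (mem_range.mpr (hg1 p (mem_coe.mp hp)))
  · intro p hp q hq h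
    rw [mem_coe] at hp hq
    exact hinj p hp q hq (by rw [hg2 p hp, hg2 q hq, h])

lemma grid_collinear {m : ℕ} {Q : Finset E2} (hQ : Q ⊆ grid m)
    (hcol : Collinear ℝ (Q : Set E2)) : Q.card ≤ m := by
  have c0 : ∀ p ∈ Q, ∃ i < m, p 0 = (i : ℝ) := by
    intro p hp
    obtain ⟨i, hi, j, hj, rfl⟩ := mem_grid (hQ hp)
    exact ⟨i, hi, gpt_zero i j⟩
  have c1 : ∀ p ∈ Q, ∃ i < m, p 1 = (i : ℝ) := by
    intro p hp
    obtain ⟨i, hi, j, hj, rfl⟩ := mem_grid (hQ hp)
    exact ⟨j, hj, gpt_one i j⟩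
  by_cases h : ∀ p ∈ Q, ∀ q ∈ Q, p 0 = q 0 → p = q
  · exact card_le_of_coord 0 Q c0 h
  · push Not at h
    obtain ⟨p, hp, q, hq, hpq, hne⟩ := h
    apply card_le_of_coord 1 Q c1
    have hall : ∀ r ∈ Q, r 0 = p 0 := by
      intro r hr
      have hd := det_of_collinear hcol (mem_coe.mpr hp) (mem_coe.mpr hq) (mem_coe.mpr hr)
      have h1 : q 1 - p 1 ≠ 0 := by
        intro h1
        exact hne (ext_gpt hpq (by linarith))
      have h2 : (q 1 - p 1) * (r 0 - p 0) = 0 := by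
        rw [hpq] at hd ⊢
        linarith
      have := (mul_eq_zero.mp h2).resolve_left h1
      linarith
    intro r hr s hs hrs
    exact ext_gpt (by rw [hall r hr, hall s hs]) hrs

lemma grid_genpos {m : ℕ} {Q : Finset E2} (hQ : Q ⊆ grid m) (hgp : GenPos Q) :
    Q.card ≤ 2 * m := by
  classical
  have c0 : ∀ p ∈ Q, ∃ i < m, p 0 = (i : ℝ) := by
    intro p hp
    obtain ⟨i, hi, j, hj, rfl⟩ := mem_grid (hQ hp)
    exact ⟨i, hi, gpt_zero i j⟩
  choose! g hg1 hg2 using c0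
  have h1 : Q.card ≤ 2 * (range m).card := by
    apply card_le_mul_card_image_of_maps_to (f := g)
    · intro p hp
      exact mem_range.mpr (hg1 p hp)
    · intro i _
      by_contra hcon
      push Not at hcon
      obtain ⟨T, hT, hT3⟩ := exists_subset_card_eq (s := Q.filter (fun p => g p = i)) (n := 3)
        (by omega)
      apply hgp T (hT.trans (filter_subset _ _)) hT3
      rw [collinear_iff_exists_forall_eq_smul_vadd]
      refine ⟨gpt i 0, gpt 0 1, ?_⟩
      intro p hp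
      have h2 := hT (mem_coe.mp hp)
      rw [mem_filter] at h2
      refine ⟨p 1, ?_⟩
      apply ext_gpt
      · have : (p 1 • gpt 0 1 +ᵥ gpt i 0) 0 = p 1 * gpt 0 1 0 + gpt i 0 0 := by simp
        rw [this, gpt_zero, gpt_zero, hg2 p h2.1, h2.2]
        simp
      · have : (p 1 • gpt 0 1 +ᵥ gpt i 0) 1 = p 1 * gpt 0 1 1 + gpt i 0 1 := by simp
        rw [this, gpt_one, gpt_one]
        simp
  rwa [card_range] at h1

/-- the lower bound -/
theorem lower_main (n : ℕ) (hn : 3 ≤ n) : ¬ HasLineOrGP n (grid ((n - 1) / 2)) := by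
  rintro (⟨Q, hQ, hQn, hcol⟩ | ⟨Q, hQ, hQn, hgp⟩)
  · have := grid_collinear hQ hcol
    omega
  · have := grid_genpos hQ hgp
    omega

/-- every set with at least `gf n` points has the property -/
theorem gf_spec (n : ℕ) (hn : 3 ≤ n) : ∀ P : Finset E2, gf n ≤ P.card → HasLineOrGP n P := by
  obtain ⟨C, hC0, hC⟩ := upper_main
  exact Nat.sInf_mem (s := {N : ℕ | ∀ P : Finset E2, N ≤ P.card → HasLineOrGP n P})
    ⟨C * n ^ 2, hC n hn⟩

theorem gf_order : ∃ c C : ℝ, 0 < c ∧ 0 < C ∧ ∀ n : ℕ, 3 ≤ n →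
    c * (n : ℝ) ^ 2 ≤ (gf n : ℝ) ∧ (gf n : ℝ) ≤ C * (n : ℝ) ^ 2 := by
  obtain ⟨C, hC0, hC⟩ := upper_main
  refine ⟨1 / 8, C, by norm_num, by exact_mod_cast hC0, ?_⟩
  intro n hn
  constructor
  · have h1 : ((n - 1) / 2) ^ 2 < gf n := by
      by_contra hcon
      push Not at hcon
      apply lower_main n hn
      apply gf_spec n hn
      rw [card_grid]; exact hcon
    have h2 : (n : ℝ) / 2 - 1 ≤ (((n - 1) / 2 : ℕ) : ℝ) := by
      have : n ≤ 2 * ((n - 1) / 2) + 2 := by omega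
      have : (n : ℝ) ≤ 2 * (((n - 1) / 2 : ℕ) : ℝ) + 2 := by exact_mod_cast this
      linarith
    have h3 : ((((n - 1) / 2 : ℕ) : ℝ)) ^ 2 + 1 ≤ (gf n : ℝ) := by exact_mod_cast h1
    have hn' : (3 : ℝ) ≤ n := by exact_mod_cast hn
    have h4 : ((n : ℝ) / 2 - 1) ^ 2 ≤ ((((n - 1) / 2 : ℕ) : ℝ)) ^ 2 :=
      pow_le_pow_left₀ (by linarith) h2 2
    nlinarith [sq_nonneg ((n : ℝ) - 4)]
  · have h1 : gf n ≤ C * n ^ 2 := Nat.sInf_le (hC n hn)
    exact_mod_cast h1

end Pool.Agent.Lib.MP_0c755a_co
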