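import Mathlib

/-!
Finite product expectations.
-/

set_option linter.unusedSectionVars false

namespace Pool.Agent.Lib.MP_0c755a_co

open Finset

section Prod

variable {V κ : Type*} [Fintype V] [DecidableEq V] [Fintype κ] [DecidableEq κ]

/-- product weights -/
noncomputable def W (w : V → κ → ℝ) (ω : V → κ) : ℝ := ∏ v, w v (ω v)

/-- expectation -/
noncomputable def E (w : V → κ → ℝ) (f : (V → κ) → ℝ) : ℝ := ∑ ω : V → κ, W w ω * f ω

/-- weights are probabilities -/
def IsProb (w : V → κ → ℝ) : Prop := (∀ v j, 0 ≤ w v j) ∧ ∀ v, ∑ j, w v j = 1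

lemma W_nonneg {w : V → κ → ℝ} (hw : IsProb w) (ω : V → κ) : 0 ≤ W w ω :=
  prod_nonneg (fun v _ => hw.1 v _)

lemma sum_W {w : V → κ → ℝ} (hw : IsProb w) : ∑ ω : V → κ, W w ω = 1 := by
  have h := Finset.prod_univ_sum (fun _ : V => (univ : Finset κ)) (fun v j => w v j)
  rw [Fintype.piFinset_univ] at h
  unfold W
  rw [← h]
  simp [hw.2]

lemma E_const {w : V → κ → ℝ} (hw : IsProb w) (c : ℝ) : E w (fun _ => c) = c := by
  unfold E
  rw [← sum_mul, sum_W hw, one_mul]

lemma E_add (w : V → κ → ℝ) (f g : (V → κ) → ℝ) :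
    E w (fun ω => f ω + g ω) = E w f + E w g := by
  unfold E
  rw [← sum_add_distrib]
  apply sum_congr rfl
  intro ω _
  ring

lemma E_sub (w : V → κ → ℝ) (f g : (V → κ) → ℝ) :
    E w (fun ω => f ω - g ω) = E w f - E w g := by
  unfold E
  rw [← sum_sub_distrib]
  apply sum_congr rfl
  intro ω _
  ring

lemma E_smul (w : V → κ → ℝ) (c : ℝ) (f : (V → κ) → ℝ) :
    E w (fun ω => c * f ω) = c * E w f := by
  unfold E
  rw [mul_sum]
  apply sum_congr rfl
  intro ω _
  ring

lemma E_sum {ι : Type*} (w : V → κ → ℝ) (I : Finset ι) (f : ι → (V → κ) → ℝ) :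
    E w (fun ω => ∑ i ∈ I, f i ω) = ∑ i ∈ I, E w (f i) := by
  unfold E
  rw [sum_comm]
  apply sum_congr rfl
  intro ω _
  rw [mul_sum]

lemma E_mono {w : V → κ → ℝ} (hw : IsProb w) {f g : (V → κ) → ℝ} (h : ∀ ω, f ω ≤ g ω) :
    E w f ≤ E w g :=
  sum_le_sum (fun ω _ => mul_le_mul_of_nonneg_left (h ω) (W_nonneg hw ω))

lemma E_nonneg {w : V → κ → ℝ} (hw : IsProb w) {f : (V → κ) → ℝ} (h : ∀ ω, 0 ≤ f ω) :
    0 ≤ E w f :=
  sum_nonneg (fun ω _ => mul_nonneg (W_nonneg hw ω) (h ω))

lemma exists_ge_E {w : V → κ → ℝ} (hw : IsProb w) (f : (V → κ) → ℝ) :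
    ∃ ω, E w f ≤ f ω := by
  by_contra hcon
  push Not at hcon
  have h1 : E w f < E w (fun _ => E w f) := by
    unfold E
    have hex : ∃ ω : V → κ, 0 < W w ω := by
      by_contra h0
      push Not at h0
      have : ∑ ω : V → κ, W w ω ≤ 0 := sum_nonpos (fun ω _ => h0 ω)
      rw [sum_W hw] at this
      linarith
    obtain ⟨ω0, hω0⟩ := hex
    apply sum_lt_sum
    · intro ω _
      exact mul_le_mul_of_nonneg_left (hcon ω).le (W_nonneg hw ω)
    · exact ⟨ω0, mem_univ _, mul_lt_mul_of_pos_left (hcon ω0) hω0⟩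
  rw [E_const hw] at h1
  exact lt_irrefl _ h1

/-- `f` depends only on the coordinates in `X` -/
def Dep (X : Finset V) (f : (V → κ) → ℝ) : Prop :=
  ∀ ω ω' : V → κ, (∀ v ∈ X, ω v = ω' v) → f ω = f ω'

omit [Fintype V] [Fintype κ] [DecidableEq κ] [DecidableEq V] in
lemma Dep.mono {X Y : Finset V} {f : (V → κ) → ℝ} (h : Dep X f) (hXY : X ⊆ Y) : Dep Y f :=
  fun ω ω' hω => h ω ω' (fun v hv => hω v (hXY hv))

/-- factorisation -/
lemma E_mul {w : V → κ → ℝ} (hw : IsProb w) {X Y : Finset V} {f g : (V → κ) → ℝ}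
    (hf : Dep X f) (hg : Dep Y g) (hXY : Disjoint X Y) :
    E w (fun ω => f ω * g ω) = E w f * E w g := by
  classical
  rcases isEmpty_or_nonempty κ with hκ | hκ
  · -- then `V` is empty
    have hV : IsEmpty V := by
      constructor
      intro v
      have := hw.2 v
      simp at this
    have : ∀ ω ω' : V → κ, ω = ω' := fun ω ω' => funext (fun v => (hV.false v).elim)
    let ω0 : V → κ := fun v => (hV.false v).elim
    have hf' : f = fun _ => f ω0 := by funext ω; rw [this ω ω0]
    have hg' : g = fun _ => g ω0 := by funext ω; rw [this ω ω0]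
    rw [hf', hg', E_const hw, E_const hw, E_const hw]
  obtain ⟨k0⟩ := hκ
  let p : V → Prop := fun v => v ∈ X
  let e := Equiv.piEquivPiSubtypeProd p (fun _ : V => κ)
  -- glue
  let glue : ({v // p v} → κ) → ({v // ¬ p v} → κ) → (V → κ) := fun a b => e.symm (a, b)
  have glue1 : ∀ a b (v : V) (hv : p v), glue a b v = a ⟨v, hv⟩ := by
    intro a b v hv
    simp [glue, e, Equiv.piEquivPiSubtypeProd, hv]
  have glue2 : ∀ a b (v : V) (hv : ¬ p v), glue a b v = b ⟨v, hv⟩ := by
    intro a b v hv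
    simp [glue, e, Equiv.piEquivPiSubtypeProd, hv]
  let W1 : ({v // p v} → κ) → ℝ := fun a => ∏ v : {v // p v}, w v.1 (a v)
  let W2 : ({v // ¬ p v} → κ) → ℝ := fun b => ∏ v : {v // ¬ p v}, w v.1 (b v)
  have hW : ∀ a b, W w (glue a b) = W1 a * W2 b := by
    intro a b
    unfold W
    rw [← Fintype.prod_subtype_mul_prod_subtype p (fun v => w v (glue a b v))]
    change _ = (∏ v : {v // p v}, w v.1 (a v)) * (∏ v : {v // ¬ p v}, w v.1 (b v))
    refine congrArg₂ (· * ·) (Finset.prod_congr (by ext; simp) ?_)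
      (Finset.prod_congr (by ext; simp) ?_)
    · intro v _
      rw [glue1 a b v.1 v.2]
    · intro v _
      rw [glue2 a b v.1 v.2]
  have hE : ∀ h : (V → κ) → ℝ, E w h = ∑ a, ∑ b, W1 a * W2 b * h (glue a b) := by
    intro h
    unfold E
    rw [← Fintype.sum_prod_type']
    rw [← Equiv.sum_comp e.symm]
    apply sum_congr rfl
    intro x _
    have : e.symm x = glue x.1 x.2 := rfl
    rw [this, hW]
  let a0 : {v // p v} → κ := fun _ => k0
  let b0 : {v // ¬ p v} → κ := fun _ => k0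
  have hfa : ∀ a b, f (glue a b) = f (glue a b0) := by
    intro a b
    apply hf
    intro v hv
    rw [glue1 a b v hv, glue1 a b0 v hv]
  have hgb : ∀ a b, g (glue a b) = g (glue a0 b) := by
    intro a b
    apply hg
    intro v hv
    have hv' : ¬ p v := fun h => (Finset.disjoint_left.mp hXY) h hv
    rw [glue2 a b v hv', glue2 a0 b v hv']
  have h1 : ∑ a, W1 a * ∑ b, W2 b = 1 := by
    have := hE (fun _ => 1)
    rw [E_const hw] at this
    rw [this]
    apply sum_congr rfl
    intro a _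
    rw [mul_sum]
    apply sum_congr rfl
    intro b _
    ring
  have h1' : (∑ a, W1 a) * (∑ b, W2 b) = 1 := by rw [sum_mul]; exact h1
  have hEf : E w f = (∑ a, W1 a * f (glue a b0)) * ∑ b, W2 b := by
    rw [hE, sum_mul]
    apply sum_congr rfl
    intro a _
    rw [mul_sum]
    apply sum_congr rfl
    intro b _
    rw [hfa a b]; ring
  have hEg : E w g = (∑ a, W1 a) * ∑ b, W2 b * g (glue a0 b) := by
    rw [hE, sum_mul]
    apply sum_congr rfl
    intro a _
    rw [mul_sum]
    apply sum_congr rfl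
    intro b _
    rw [hgb a b]; ring
  have hEfg : E w (fun ω => f ω * g ω)
      = (∑ a, W1 a * f (glue a b0)) * ∑ b, W2 b * g (glue a0 b) := by
    rw [hE, sum_mul]
    apply sum_congr rfl
    intro a _
    rw [mul_sum]
    apply sum_congr rfl
    intro b _
    rw [hfa a b, hgb a b]; ring
  rw [hEf, hEg, hEfg]
  have : (∑ a, W1 a * f (glue a b0)) * (∑ b, W2 b) * ((∑ a, W1 a) * ∑ b, W2 b * g (glue a0 b))
      = ((∑ a, W1 a) * (∑ b, W2 b)) *
        ((∑ a, W1 a * f (glue a b0)) * ∑ b, W2 b * g (glue a0 b)) := by ring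
  rw [this, h1', one_mul]

omit [Fintype V] [Fintype κ] [DecidableEq κ] in
lemma Dep.prod {ι : Type*} (I : Finset ι) (X : ι → Finset V) (f : ι → (V → κ) → ℝ)
    (h : ∀ i ∈ I, Dep (X i) (f i)) : Dep (I.biUnion X) (fun ω => ∏ i ∈ I, f i ω) := by
  intro ω ω' hω
  apply prod_congr rfl
  intro i hi
  exact h i hi ω ω' (fun v hv => hω v (mem_biUnion.mpr ⟨i, hi, hv⟩))

/-- factorisation over families -/
lemma E_prod {ι : Type*} [DecidableEq ι] {w : V → κ → ℝ} (hw : IsProb w) (I : Finset ι)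
    (X : ι → Finset V) (f : ι → (V → κ) → ℝ)
    (h : ∀ i ∈ I, Dep (X i) (f i)) (hd : ∀ i ∈ I, ∀ j ∈ I, i ≠ j → Disjoint (X i) (X j)) :
    E w (fun ω => ∏ i ∈ I, f i ω) = ∏ i ∈ I, E w (f i) := by
  classical
  induction I using Finset.induction_on with
  | empty => simp [E_const hw]
  | insert a I ha ih =>
    have h1 : (fun ω => ∏ i ∈ insert a I, f i ω) = fun ω => f a ω * ∏ i ∈ I, f i ω := by
      funext ω; rw [prod_insert ha]
    rw [h1, prod_insert ha]
    rw [E_mul hw (h a (mem_insert_self _ _))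
      (Dep.prod I X f (fun i hi => h i (mem_insert_of_mem hi)))]
    · rw [ih (fun i hi => h i (mem_insert_of_mem hi))
        (fun i hi j hj => hd i (mem_insert_of_mem hi) j (mem_insert_of_mem hj))]
    · rw [disjoint_biUnion_right]
      intro i hi
      exact hd a (mem_insert_self _ _) i (mem_insert_of_mem hi) (by
        intro h; rw [h] at ha; exact ha hi)

/-- single coordinate -/
lemma E_single {w : V → κ → ℝ} (hw : IsProb w) (v : V) (g : κ → ℝ) :
    E w (fun ω => g (ω v)) = ∑ j, w v j * g j := by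
  classical
  unfold E W
  have h := Finset.prod_univ_sum (fun _ : V => (univ : Finset κ))
    (fun u j => if u = v then w u j * g j else w u j)
  rw [Fintype.piFinset_univ] at h
  have h1 : ∏ i : V, ∑ j : κ, (if i = v then w i j * g j else w i j) = ∑ j, w v j * g j := by
    rw [← mul_prod_erase univ _ (mem_univ v)]
    simp only [if_true]
    rw [prod_eq_one, mul_one]
    intro u hu
    have huv : u ≠ v := ne_of_mem_erase hu
    simp [huv, hw.2]
  rw [h1] at h
  rw [h]
  apply sum_congr rfl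
  intro ω _
  rw [← mul_prod_erase univ (fun u => if u = v then w u (ω u) * g (ω u) else w u (ω u))
    (mem_univ v)]
  rw [← mul_prod_erase univ (fun u => w u (ω u)) (mem_univ v)]
  simp only [if_true]
  have : ∏ x ∈ univ.erase v, (if x = v then w x (ω x) * g (ω x) else w x (ω x))
      = ∏ x ∈ univ.erase v, w x (ω x) := by
    apply prod_congr rfl
    intro u hu
    rw [if_neg (ne_of_mem_erase hu)]
  rw [this]
  ring

end Prod

end Pool.Agent.Lib.MP_0c755a_co
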