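import Pool.Agent.Lib.MP_0c755a_co.LemQ

/-!
Set-up of one round of the nibble.
-/

set_option linter.unusedSectionVars false

namespace Pool.Agent.Lib.MP_0c755a_co

open Finset Real

/-- labels: chosen, kept, discarded -/
inductive Lab | R | K | D
deriving DecidableEq

instance : Fintype Lab := ⟨{Lab.R, Lab.K, Lab.D}, by intro x; cases x <;> simp⟩

section Round

variable {V : Type*} [Fintype V] [DecidableEq V]

/-- girth at least five -/
structure Girth5 (L : Finset (Finset V)) : Prop where
  lin : ∀ a ∈ L, ∀ b ∈ L, ∀ x y : V, x ≠ y → x ∈ a → y ∈ a → x ∈ b → y ∈ b → a = b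
  tri : ∀ a ∈ L, ∀ b ∈ L, ∀ c ∈ L, ∀ x y z : V, x ≠ y → y ≠ z → z ≠ x →
    x ∈ a → y ∈ a → y ∈ b → z ∈ b → z ∈ c → x ∈ c → a = b
  quad : ∀ a ∈ L, ∀ b ∈ L, ∀ c ∈ L, ∀ d ∈ L, ∀ x y z t : V,
    x ≠ y → y ≠ z → z ≠ t → t ≠ x → x ≠ z → y ≠ t →
    x ∈ a → y ∈ a → y ∈ b → z ∈ b → z ∈ c → t ∈ c → t ∈ d → x ∈ d →
    a ≠ b → b ≠ c → c ≠ d → d ≠ a → False

/-- not labelled R -/
noncomputable def rr (x : V) (ω : V → Lab) : ℝ := if ω x = Lab.R then 0 else 1

/-- labelled K -/
noncomputable def kk (x : V) (ω : V → Lab) : ℝ := if ω x = Lab.K then 1 else 0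

/-- indicator that at most one (resp. zero) element of `X` is labelled R -/
noncomputable def Uf (st : ℕ) (X : Finset V) (ω : V → Lab) : ℝ :=
  (∏ x ∈ X, rr x ω) + if st = 0 then ∑ y ∈ X, (1 - rr y ω) * ∏ x ∈ X.erase y, rr x ω else 0

lemma rr_nonneg (x : V) (ω : V → Lab) : 0 ≤ rr x ω := by
  unfold rr; split_ifs <;> norm_num

lemma rr_le_one (x : V) (ω : V → Lab) : rr x ω ≤ 1 := by
  unfold rr; split_ifs <;> norm_num

lemma kk_nonneg (x : V) (ω : V → Lab) : 0 ≤ kk x ω := by
  unfold kk; split_ifs <;> norm_num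

lemma prod_rr (X : Finset V) (ω : V → Lab) :
    ∏ x ∈ X, rr x ω = if (X.filter (fun x => ω x = Lab.R)).card = 0 then 1 else 0 := by
  split_ifs with h
  · rw [card_eq_zero, filter_eq_empty_iff] at h
    apply prod_eq_one
    intro x hx
    simp [rr, h hx]
  · have h' : (X.filter (fun x => ω x = Lab.R)).Nonempty := by
      rw [← card_pos]; omega
    obtain ⟨x, hx⟩ := h'
    rw [mem_filter] at hx
    apply prod_eq_zero hx.1
    simp [rr, hx.2]

lemma Uf_eq (st : ℕ) (hst : st ≤ 1) (X : Finset V) (ω : V → Lab) :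
    Uf st X ω = if st + (X.filter (fun x => ω x = Lab.R)).card ≤ 1 then 1 else 0 := by
  unfold Uf
  rw [prod_rr]
  rcases Nat.eq_zero_or_pos st with h0 | h0
  · subst h0
    simp only [if_true, zero_add]
    set F := X.filter (fun x => ω x = Lab.R) with hF
    rcases Nat.lt_trichotomy F.card 1 with h1 | h1 | h1
    · have h2 : F.card = 0 := by omega
      rw [if_pos h2, if_pos (by omega)]
      have h3 : ∑ y ∈ X, (1 - rr y ω) * ∏ x ∈ X.erase y, rr x ω = 0 := by
        apply sum_eq_zero
        intro y hy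
        rw [hF, card_eq_zero, filter_eq_empty_iff] at h2
        simp [rr, h2 hy]
      rw [h3, add_zero]
    · rw [if_neg (by omega), if_pos (by omega)]
      obtain ⟨y, hy⟩ := card_eq_one.mp h1
      have hyX : y ∈ F := by rw [hy]; exact mem_singleton_self _
      rw [hF, mem_filter] at hyX
      rw [zero_add, sum_eq_single_of_mem y hyX.1]
      · rw [prod_rr]
        have : (X.erase y).filter (fun x => ω x = Lab.R) = ∅ := by
          rw [filter_eq_empty_iff]
          intro x hx hxR
          have hxF : x ∈ F := by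
            rw [hF, mem_filter]; exact ⟨mem_of_mem_erase hx, hxR⟩
          rw [hy, mem_singleton] at hxF
          exact (ne_of_mem_erase hx) hxF
        rw [this]
        simp [rr, hyX.2]
      · intro z hz hzy
        have : ω z ≠ Lab.R := by
          intro hzR
          have hzF : z ∈ F := by rw [hF, mem_filter]; exact ⟨hz, hzR⟩
          rw [hy, mem_singleton] at hzF
          exact hzy hzF
        simp [rr, this]
    · rw [if_neg (by omega), if_neg (by omega), zero_add]
      apply sum_eq_zero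
      intro y hy
      by_cases hyR : ω y = Lab.R
      · rw [prod_rr, if_neg, mul_zero]
        have hyF : y ∈ F := by rw [hF, mem_filter]; exact ⟨hy, hyR⟩
        have : (X.erase y).filter (fun x => ω x = Lab.R) = F.erase y := by
          ext x
          simp only [mem_filter, mem_erase, hF]
          tauto
        rw [this, card_erase_of_mem hyF]
        omega
      · simp [rr, hyR]
  · have h1 : st = 1 := by omega
    subst h1
    simp

lemma Uf_nonneg (st : ℕ) (X : Finset V) (ω : V → Lab) : 0 ≤ Uf st X ω := by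
  unfold Uf
  apply add_nonneg (prod_nonneg (fun x _ => rr_nonneg x ω))
  split_ifs
  · exact sum_nonneg (fun y _ => mul_nonneg (by linarith [rr_le_one y ω])
      (prod_nonneg (fun x _ => rr_nonneg x ω)))
  · exact le_rfl

lemma dep_rr (x : V) : Dep {x} (rr x) := by
  intro ω ω' h
  have := h x (mem_singleton_self x)
  simp [rr, this]

lemma dep_kk (x : V) : Dep {x} (kk x) := by
  intro ω ω' h
  have := h x (mem_singleton_self x)
  simp [kk, this]

lemma dep_Uf (st : ℕ) (X : Finset V) : Dep X (Uf st X) := by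
  intro ω ω' h
  have e : ∀ x ∈ X, rr x ω = rr x ω' := fun x hx => by simp [rr, h x hx]
  unfold Uf
  rw [prod_congr rfl e]
  congr 1
  split_ifs
  · apply sum_congr rfl
    intro y hy
    rw [e y hy, prod_congr rfl (fun x hx => e x (mem_of_mem_erase hx))]
  · rfl

/-- survival probability through one line -/
noncomputable def nu (q : ℝ) (s m : ℕ) : ℝ :=
  (1 - q) ^ m + if s = 0 then (m : ℝ) * q * (1 - q) ^ (m - 1) else 0

lemma nu_pos {q : ℝ} (hq0 : 0 ≤ q) (hq1 : q < 1) (s m : ℕ) : 0 < nu q s m := by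
  unfold nu
  have h1 : 0 < 1 - q := by linarith
  split_ifs
  · positivity
  · positivity

lemma one_sub_pow_ge {q : ℝ} (hq1 : q ≤ 1) (m : ℕ) :
    1 - (m : ℝ) * q ≤ (1 - q) ^ m := by
  have := one_add_mul_le_pow (a := -q) (by linarith) m
  have h2 : (1 + -q) ^ m = (1 - q) ^ m := by ring
  rw [h2] at this
  linarith

lemma nu_ge_pow {q : ℝ} (hq0 : 0 ≤ q) (hq1 : q < 1) (s m : ℕ) : (1 - q) ^ m ≤ nu q s m := by
  unfold nu
  have h1 : 0 < 1 - q := by linarith
  split_ifs
  · have : 0 ≤ (m : ℝ) * q * (1 - q) ^ (m - 1) := by positivity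
    linarith
  · linarith

lemma nu_zero_ge {q : ℝ} (hq0 : 0 ≤ q) (hq1 : q < 1) (m : ℕ) :
    1 - ch2 (m : ℝ) * q ^ 2 ≤ nu q 0 m := by
  have h1 : 0 < 1 - q := by linarith
  induction m with
  | zero => simp [ch2, nu]
  | succ m ih =>
    have key : nu q 0 (m + 1) = nu q 0 m - q * ((m : ℝ) * q * (1 - q) ^ (m - 1)) := by
      unfold nu
      simp only [if_true]
      rcases Nat.eq_zero_or_pos m with h0 | h0
      · subst h0; simp
      · obtain ⟨k, rfl⟩ : ∃ k, m = k + 1 := ⟨m - 1, by omega⟩
        simp only [Nat.add_sub_cancel]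
        push_cast
        ring
    rw [key]
    have h2 : (1 - q) ^ (m - 1) ≤ 1 := pow_le_one₀ h1.le (by linarith)
    have h3 : q * ((m : ℝ) * q * (1 - q) ^ (m - 1)) ≤ q * ((m : ℝ) * q * 1) := by
      apply mul_le_mul_of_nonneg_left _ hq0
      apply mul_le_mul_of_nonneg_left h2
      positivity
    have h4 : ch2 ((m + 1 : ℕ) : ℝ) = ch2 (m : ℝ) + m := by
      unfold ch2; push_cast; ring
    rw [h4]
    nlinarith

section State

variable (L : Finset (Finset V)) (A S : Finset V) (q : ℝ)

/-- lines through `v` -/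
def Lv (v : V) : Finset (Finset V) := L.filter (fun l => v ∈ l)

/-- alive points other than `v` on `l` -/
def XX (l : Finset V) (v : V) : Finset V := (A ∩ l).erase v

/-- survival probability -/
noncomputable def ss (v : V) : ℝ := ∏ l ∈ Lv L v, nu q (S ∩ l).card (XX A l v).card

/-- the labelling weights -/
noncomputable def wt (v : V) : Lab → ℝ
  | Lab.R => if v ∈ A then q else 0
  | Lab.K => if v ∈ A then (1 / 2) / ss L A S q v else 0
  | Lab.D => if v ∈ A then 1 - q - (1 / 2) / ss L A S q v else 1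

/-- hypothesis on the state -/
structure Good : Prop where
  girth : Girth5 L
  disj : Disjoint A S
  st1 : ∀ l ∈ L, (A ∩ l).Nonempty → (S ∩ l).card ≤ 1
  q0 : 0 < q
  q1 : q < 1
  hs : ∀ v ∈ A, 1 / 2 ≤ (1 - q) * ss L A S q v

variable {L A S q}

lemma ss_pos (hg : Good L A S q) (v : V) : 0 < ss L A S q v :=
  prod_pos (fun l _ => nu_pos hg.q0.le hg.q1 _ _)

lemma isProb (hg : Good L A S q) : IsProb (wt L A S q) := by
  constructor
  · intro v j
    have h1 := ss_pos hg v
    cases j with
    | R => simp only [wt]; split_ifs; exacts [hg.q0.le, le_rfl]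
    | K => simp only [wt]; split_ifs; exacts [by positivity, le_rfl]
    | D =>
      simp only [wt]
      split_ifs with h
      · have h2 := hg.hs v h
        have : (1 / 2) / ss L A S q v ≤ 1 - q := by
          rw [div_le_iff₀ h1]; exact h2
        linarith
      · exact zero_le_one
  · intro v
    have : (univ : Finset Lab) = {Lab.R, Lab.K, Lab.D} := by decide
    rw [this]
    rw [sum_insert (by decide), sum_insert (by decide), sum_singleton]
    simp only [wt]
    split_ifs <;> ring

lemma sum_Lab (f : Lab → ℝ) : ∑ j, f j = f Lab.R + f Lab.K + f Lab.D := by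
  have : (univ : Finset Lab) = {Lab.R, Lab.K, Lab.D} := by decide
  rw [this]
  rw [sum_insert (by decide), sum_insert (by decide), sum_singleton]
  ring

lemma E_rr (hg : Good L A S q) {x : V} (hx : x ∈ A) : E (wt L A S q) (rr x) = 1 - q := by
  have h := E_single (isProb hg) x (fun j => if j = Lab.R then (0 : ℝ) else 1)
  have e : (fun ω : V → Lab => (fun j => if j = Lab.R then (0 : ℝ) else 1) (ω x)) = rr x := by
    funext ω; simp [rr]
  rw [e] at h
  rw [h, sum_Lab]
  simp [wt, hx]

lemma E_kk (hg : Good L A S q) {x : V} (hx : x ∈ A) :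
    E (wt L A S q) (kk x) = (1 / 2) / ss L A S q x := by
  have h := E_single (isProb hg) x (fun j => if j = Lab.K then (1 : ℝ) else 0)
  have e : (fun ω : V → Lab => (fun j => if j = Lab.K then (1 : ℝ) else 0) (ω x)) = kk x := by
    funext ω; simp [kk]
  rw [e] at h
  rw [h, sum_Lab]
  simp [wt, hx]

lemma E_one_sub_rr (hg : Good L A S q) {x : V} (hx : x ∈ A) :
    E (wt L A S q) (fun ω => 1 - rr x ω) = q := by
  rw [E_sub, E_const (isProb hg), E_rr hg hx]; ring

lemma E_prod_rr (hg : Good L A S q) {X : Finset V} (hX : X ⊆ A) :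
    E (wt L A S q) (fun ω => ∏ x ∈ X, rr x ω) = (1 - q) ^ X.card := by
  rw [E_prod (isProb hg) X (fun x => {x}) (fun x => rr x) (fun x _ => dep_rr x)
    (fun x _ y _ hxy => by simpa using hxy)]
  rw [prod_congr rfl (fun x hx => E_rr hg (hX hx)), prod_const]

lemma E_Uf (hg : Good L A S q) (st : ℕ) {X : Finset V} (hX : X ⊆ A) :
    E (wt L A S q) (Uf st X) = nu q st X.card := by
  have hw := isProb hg
  have e : Uf st X = fun ω => (∏ x ∈ X, rr x ω)
      + if st = 0 then ∑ y ∈ X, (1 - rr y ω) * ∏ x ∈ X.erase y, rr x ω else 0 := rfl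
  rw [e, E_add, E_prod_rr hg hX]
  unfold nu
  congr 1
  split_ifs with h
  · rw [E_sum]
    have : ∀ y ∈ X, E (wt L A S q) (fun ω => (1 - rr y ω) * ∏ x ∈ X.erase y, rr x ω)
        = q * (1 - q) ^ (X.card - 1) := by
      intro y hy
      rw [E_mul hw (X := {y}) (Y := X.erase y)]
      · rw [E_one_sub_rr hg (hX hy), E_prod_rr hg ((erase_subset _ _).trans hX),
          card_erase_of_mem hy]
      · intro ω ω' h
        simp only [dep_rr y ω ω' h]
      · intro ω ω' h
        exact prod_congr rfl (fun x hx => dep_rr x ω ω' (fun v hv => by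
          rw [mem_singleton] at hv; rw [hv]; exact h x hx))
      · rw [disjoint_singleton_left]; simp
    rw [sum_congr rfl this, sum_const, nsmul_eq_mul]
    ring
  · exact E_const hw 0

lemma XX_subset (l : Finset V) (v : V) : XX A l v ⊆ A :=
  (erase_subset _ _).trans inter_subset_left

lemma XX_subset' (l : Finset V) (v : V) : XX A l v ⊆ l.erase v :=
  erase_subset_erase _ inter_subset_right

/-- product of unkilled indicators over a set of lines through `x` -/
lemma E_kk_prod (hg : Good L A S q) {x : V} (hx : x ∈ A) (M : Finset (Finset V))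
    (hM : M ⊆ Lv L x) :
    E (wt L A S q) (fun ω => kk x ω * ∏ l ∈ M, Uf (S ∩ l).card (XX A l x) ω)
      = (1 / 2) / ss L A S q x * ∏ l ∈ M, nu q (S ∩ l).card (XX A l x).card := by
  have hw := isProb hg
  have hdisj : ∀ l ∈ M, ∀ l' ∈ M, l ≠ l' → Disjoint (l.erase x) (l'.erase x) := by
    intro l hl l' hl' hne
    rw [Finset.disjoint_left]
    intro z hz hz'
    have h1 := hM hl
    have h2 := hM hl'
    unfold Lv at h1 h2
    rw [mem_filter] at h1 h2
    exact hne (hg.girth.lin l h1.1 l' h2.1 x z (ne_of_mem_erase hz).symm h1.2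
      (mem_of_mem_erase hz) h2.2 (mem_of_mem_erase hz'))
  have hdl : ∀ l ∈ M, Dep (l.erase x) (fun ω => Uf (S ∩ l).card (XX A l x) ω) :=
    fun l _ => (dep_Uf _ _).mono (XX_subset' l x)
  rw [E_mul hw (dep_kk x) (Dep.prod M (fun l => l.erase x) _ hdl)]
  · rw [E_kk hg hx, E_prod hw M (fun l => l.erase x) _ hdl hdisj]
    congr 1
    apply prod_congr rfl
    intro l _
    exact E_Uf hg _ (XX_subset l x)
  · rw [disjoint_singleton_left, mem_biUnion]
    rintro ⟨l, _, h⟩
    exact (ne_of_mem_erase h) rfl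

end State

end Round

end Pool.Agent.Lib.MP_0c755a_co
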