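import Pool.Agent.Lib.MP_0c755a_co.Round1

/-!
Candidates, and the moment bounds per line.
-/

set_option linter.unusedSectionVars false
set_option linter.unusedVariables false

namespace Pool.Agent.Lib.MP_0c755a_co

open Finset Real

section Round

variable {V : Type*} [Fintype V] [DecidableEq V]
variable {L : Finset (Finset V)} {A S : Finset V} {q : ℝ}

/-- candidate indicator of `x` with respect to the line `l` -/
noncomputable def cc (L : Finset (Finset V)) (A S : Finset V) (l : Finset V) (x : V)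
    (ω : V → Lab) : ℝ :=
  kk x ω * ∏ l' ∈ (Lv L x).erase l, Uf (S ∩ l').card (XX A l' x) ω

/-- dependence set -/
def DD (L : Finset (Finset V)) (l : Finset V) (x : V) : Finset V :=
  insert x (((Lv L x).erase l).biUnion (fun l' => l'.erase x))

lemma mem_Lv {l : Finset V} {x : V} : l ∈ Lv L x ↔ l ∈ L ∧ x ∈ l := by
  unfold Lv; rw [mem_filter]

lemma mem_DD {l : Finset V} {x z : V} (h : z ∈ DD L l x) :
    z = x ∨ ∃ l', l' ∈ L ∧ x ∈ l' ∧ l' ≠ l ∧ z ∈ l' ∧ z ≠ x := by
  unfold DD at h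
  rw [mem_insert, mem_biUnion] at h
  rcases h with h | ⟨l', h1, h2⟩
  · exact Or.inl h
  · right
    rw [mem_erase, mem_Lv] at h1
    rw [mem_erase] at h2
    exact ⟨l', h1.2.1, h1.2.2, h1.1, h2.2, h2.1⟩

lemma dep_cc (l : Finset V) (x : V) : Dep (DD L l x) (cc L A S l x) := by
  intro ω ω' h
  unfold cc
  have h1 : kk x ω = kk x ω' := dep_kk x ω ω' (fun v hv => h v (by
    rw [mem_singleton] at hv; rw [hv]; exact mem_insert_self _ _))
  rw [h1]
  congr 1
  apply prod_congr rfl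
  intro l' hl'
  apply dep_Uf
  intro v hv
  apply h
  apply mem_insert_of_mem
  rw [mem_biUnion]
  exact ⟨l', hl', XX_subset' l' x hv⟩

lemma dep_rr' (l : Finset V) (x : V) : Dep (DD L l x) (rr x) :=
  (dep_rr x).mono (by
    intro v hv
    rw [mem_singleton] at hv; rw [hv]; exact mem_insert_self _ _)

lemma Uf_01 {st : ℕ} (hst : st ≤ 1) (X : Finset V) (ω : V → Lab) :
    Uf st X ω = 0 ∨ Uf st X ω = 1 := by
  rw [Uf_eq st hst]
  split_ifs
  · exact Or.inr rfl
  · exact Or.inl rfl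

lemma cc_01 (hg : Good L A S q) (l : Finset V) {x : V} (hx : x ∈ A) (ω : V → Lab) :
    cc L A S l x ω = 0 ∨ (cc L A S l x ω = 1 ∧ rr x ω = 1) := by
  unfold cc
  by_cases hk : ω x = Lab.K
  · have h1 : kk x ω = 1 := by simp [kk, hk]
    have h2 : rr x ω = 1 := by simp [rr, hk]
    rw [h1, one_mul, h2]
    by_cases hall : ∀ l' ∈ (Lv L x).erase l, Uf (S ∩ l').card (XX A l' x) ω = 1
    · right
      exact ⟨prod_eq_one hall, rfl⟩
    · left
      push Not at hall
      obtain ⟨l', hl', hne⟩ := hall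
      apply prod_eq_zero hl'
      have hmem := mem_of_mem_erase hl'
      rw [mem_Lv] at hmem
      rcases Uf_01 (hg.st1 l' hmem.1 ⟨x, mem_inter.mpr ⟨hx, hmem.2⟩⟩) (XX A l' x) ω with h | h
      · exact h
      · exact (hne h).elim
  · left
    simp [kk, hk]

lemma cc_nonneg (l : Finset V) (x : V) (ω : V → Lab) : 0 ≤ cc L A S l x ω :=
  mul_nonneg (kk_nonneg x ω) (prod_nonneg (fun _ _ => Uf_nonneg _ _ ω))

lemma E_cc (hg : Good L A S q) {l : Finset V} (hl : l ∈ L) {x : V} (hx : x ∈ A) (hxl : x ∈ l) :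
    E (wt L A S q) (cc L A S l x) = (1 / 2) / nu q (S ∩ l).card (XX A l x).card := by
  unfold cc
  rw [E_kk_prod hg hx _ (erase_subset _ _)]
  have h1 : ss L A S q x = nu q (S ∩ l).card (XX A l x).card *
      ∏ l' ∈ (Lv L x).erase l, nu q (S ∩ l').card (XX A l' x).card := by
    unfold ss
    rw [mul_prod_erase (Lv L x) (fun l' => nu q (S ∩ l').card (XX A l' x).card)
      (mem_Lv.mpr ⟨hl, hxl⟩)]
  have h2 : 0 < ∏ l' ∈ (Lv L x).erase l, nu q (S ∩ l').card (XX A l' x).card :=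
    prod_pos (fun _ _ => nu_pos hg.q0.le hg.q1 _ _)
  have h3 := nu_pos hg.q0.le hg.q1 (S ∩ l).card (XX A l x).card
  rw [h1]
  field_simp

lemma card_XX_eq {l : Finset V} {x y : V} (hx : x ∈ A ∩ l) (hy : y ∈ A ∩ l) :
    (XX A l x).card = (XX A l y).card := by
  unfold XX
  rw [card_erase_of_mem hx, card_erase_of_mem hy]

lemma disj_DD (hg : Good L A S q) {l : Finset V} (hl : l ∈ L) {x y : V} (hx : x ∈ l) (hy : y ∈ l)
    (hxy : x ≠ y) : Disjoint (DD L l x) (DD L l y) := by
  rw [Finset.disjoint_left]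
  intro z hz hz'
  rcases mem_DD hz with h1 | ⟨l1, h1, h2, h3, h4, h5⟩
  · rcases mem_DD hz' with h1' | ⟨l1', h1', h2', h3', h4', h5'⟩
    · exact hxy (h1.symm.trans h1')
    · subst h1
      exact h3' (hg.girth.lin l1' h1' l hl z y hxy h4' h2' hx hy)
  · rcases mem_DD hz' with h1' | ⟨l1', h1', h2', h3', h4', h5'⟩
    · subst h1'
      exact h3 (hg.girth.lin l1 h1 l hl x z hxy h2 h4 hx hy)
    · -- triangle x y z
      exact h3 (hg.girth.tri l1 h1 l hl l1' h1' z x y h5 hxy h5'.symm h4 h2 hx hy h2' h4')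

/-- all numerical hypotheses for a round -/
structure RH (q a b a' b' h h' nm τ Pm : ℝ) : Prop where
  q0 : 0 < q
  q1 : q < 1
  a0 : 0 ≤ a'
  b0 : 0 ≤ b'
  h0 : 0 ≤ h'
  bb : 0 ≤ b
  τ0 : 0 ≤ τ
  τ1 : τ ≤ 1
  nm0 : 0 ≤ nm
  qn : q * nm < 1
  Pm0 : 0 ≤ Pm
  Pm1 : Pm ≤ 1
  hPm : (1 / 2) * (1 + τ) ≤ Pm * (1 - q) * (1 - q * nm)
  c1 : Pm * b' ≤ b
  c2 : Pm ^ 2 * a' + 4 * q * b ≤ a
  c3 : b' + 2 * nm * a' ≤ τ
  c4 : b * nm ≤ 1
  c5 : h' ≤ τ
  c6 : Pm * h' ≤ h

/-- the moment bound with uniform constant `Pm` -/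
lemma lemQ' (hg : Good L A S q) {a b a' b' h h' nm τ Pm : ℝ}
    (hR : RH q a b a' b' h h' nm τ Pm) {l : Finset V} (hl : l ∈ L)
    (hnm : ((A ∩ l).card : ℝ) ≤ nm) (X : Finset V) (hX : X ⊆ A ∩ l) (α β : ℝ) (hα : 0 ≤ α)
    (hαa : α ≤ a') (hβ : 0 ≤ β) (hβb : β ≤ b') :
    E (wt L A S q) (fun ω => (∏ x ∈ X, rr x ω) *
      exp (α * ch2 (∑ x ∈ X, cc L A S l x ω) + β * (∑ x ∈ X, cc L A S l x ω)))
      ≤ (1 - q) ^ X.card * exp (Pm ^ 2 * ch2 (X.card : ℝ) * α + Pm * (X.card : ℝ) * β) := by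
  have hw := isProb hg
  rcases X.eq_empty_or_nonempty with h0 | ⟨x0, hx0⟩
  · subst h0
    have h1 : (fun ω : V → Lab => (∏ x ∈ (∅ : Finset V), rr x ω) *
      exp (α * ch2 (∑ x ∈ (∅ : Finset V), cc L A S l x ω) +
        β * (∑ x ∈ (∅ : Finset V), cc L A S l x ω))) = fun _ => (1 : ℝ) := by
      funext ω; simp [ch2]
    rw [h1, E_const hw]
    simp [ch2]
  set m0 := (XX A l x0).card with hm0
  set ν := nu q (S ∩ l).card m0 with hν
  have hνpos : 0 < ν := nu_pos hR.q0.le hR.q1 _ _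
  have hν1 : 1 - q * nm ≤ ν := by
    have h1 := nu_ge_pow hR.q0.le hR.q1 (S ∩ l).card m0
    have h2 := one_sub_pow_ge hR.q1.le m0
    have h3 : (m0 : ℝ) ≤ nm := by
      refine le_trans ?_ hnm
      exact_mod_cast card_le_card (erase_subset _ _)
    have h4 : (m0 : ℝ) * q ≤ q * nm := by
      rw [mul_comm]; exact mul_le_mul_of_nonneg_left h3 hR.q0.le
    linarith
  have hq1 : 0 < 1 - q := by linarith [hR.q1]
  have hqn : 0 < 1 - q * nm := by linarith [hR.qn]
  set p0 : ℝ := (1 / 2) / ν with hp0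
  have hp0pos : 0 < p0 := by positivity
  have hkey : p0 * (1 + τ) ≤ Pm * (1 - q) := by
    have h1 : p0 ≤ (1 / 2) / (1 - q * nm) := by
      rw [hp0]
      exact div_le_div_of_nonneg_left (by norm_num) hqn hν1
    have h2 : (1 / 2) / (1 - q * nm) * (1 + τ) ≤ Pm * (1 - q) := by
      rw [div_mul_eq_mul_div, div_le_iff₀ hqn]
      exact hR.hPm
    have h3 : p0 * (1 + τ) ≤ (1 / 2) / (1 - q * nm) * (1 + τ) :=
      mul_le_mul_of_nonneg_right h1 (by linarith [hR.τ0])
    linarith
  have hP : p0 / (1 - q) * (1 + τ) ≤ Pm := by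
    rw [div_mul_eq_mul_div, div_le_iff₀ hq1]
    exact hkey
  have hpq : p0 ≤ 1 - q := by
    have h1 : p0 ≤ p0 * (1 + τ) := by nlinarith [hR.τ0]
    have h2 : Pm * (1 - q) ≤ 1 * (1 - q) := mul_le_mul_of_nonneg_right hR.Pm1 hq1.le
    linarith
  have hcX : (X.card : ℝ) ≤ nm := by
    refine le_trans ?_ hnm
    exact_mod_cast card_le_card hX
  have hmain := lemQ hw (DD L l) rr (cc L A S l) (q := q) (p0 := p0) (τ := τ)
    (P := p0 / (1 - q) * (1 + τ)) (α := α) hR.q1 hp0pos.le hpq hR.τ0 hR.τ1 rfl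
    (hP.trans hR.Pm1) hα X (fun x _ => dep_rr' l x) (fun x _ => dep_cc l x)
    (fun x hx y hy hxy => disj_DD hg hl (mem_inter.mp (hX hx)).2 (mem_inter.mp (hX hy)).2 hxy)
    (fun x hx ω => cc_01 hg l (mem_inter.mp (hX hx)).1 ω)
    (fun x hx => E_rr hg (mem_inter.mp (hX hx)).1)
    (fun x hx => by
      rw [E_cc hg hl (mem_inter.mp (hX hx)).1 (mem_inter.mp (hX hx)).2]
      rw [card_XX_eq (hX hx) (hX hx0)])
    β hβ (by
      have h1 : 2 * (X.card : ℝ) * α ≤ 2 * nm * a' := by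
        have hn : (0 : ℝ) ≤ X.card := Nat.cast_nonneg _
        have := hR.a0
        have h2 : 2 * (X.card : ℝ) * α ≤ 2 * (X.card : ℝ) * a' :=
          mul_le_mul_of_nonneg_left hαa (by positivity)
        have h3 : 2 * (X.card : ℝ) * a' ≤ 2 * nm * a' :=
          mul_le_mul_of_nonneg_right (by linarith) hR.a0
        linarith
      linarith [hR.c3])
  refine hmain.trans ?_
  apply mul_le_mul_of_nonneg_left _ (by positivity)
  apply exp_le_exp.mpr
  have hP0 : 0 ≤ p0 / (1 - q) * (1 + τ) := by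
    have := hR.τ0
    positivity
  have hc2 := ch2_nat_nonneg X.card
  have h1 : (p0 / (1 - q) * (1 + τ)) ^ 2 ≤ Pm ^ 2 := pow_le_pow_left₀ hP0 hP 2
  have h2 : (p0 / (1 - q) * (1 + τ)) ^ 2 * ch2 (X.card : ℝ) * α ≤ Pm ^ 2 * ch2 (X.card : ℝ) * α :=
    mul_le_mul_of_nonneg_right (mul_le_mul_of_nonneg_right h1 hc2) hα
  have h3 : (p0 / (1 - q) * (1 + τ)) * (X.card : ℝ) * β ≤ Pm * (X.card : ℝ) * β :=
    mul_le_mul_of_nonneg_right (mul_le_mul_of_nonneg_right hP (Nat.cast_nonneg _)) hβ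
  linarith

/-- the function dominating the contribution of the line `l` -/
noncomputable def GG (L : Finset (Finset V)) (A S : Finset V) (a' b' : ℝ) (l : Finset V) (v : V)
    (ω : V → Lab) : ℝ :=
  if (S ∩ l).card = 0 then
    (∏ x ∈ XX A l v, rr x ω) * exp (a' * ch2 (∑ x ∈ XX A l v, cc L A S l x ω))
    + ∑ y ∈ XX A l v, (1 - rr y ω) * ((∏ x ∈ (XX A l v).erase y, rr x ω) *
      exp (a' * ch2 (∑ x ∈ (XX A l v).erase y, cc L A S l x ω) +
        b' * (∑ x ∈ (XX A l v).erase y, cc L A S l x ω)))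
  else
    (∏ x ∈ XX A l v, rr x ω) * exp (b' * (∑ x ∈ XX A l v, cc L A S l x ω))

lemma GG_nonneg (a' b' : ℝ) (l : Finset V) (v : V) (ω : V → Lab) :
    0 ≤ GG L A S a' b' l v ω := by
  unfold GG
  split_ifs
  · apply add_nonneg
    · exact mul_nonneg (prod_nonneg (fun x _ => rr_nonneg x ω)) (exp_pos _).le
    · exact sum_nonneg (fun y _ => mul_nonneg (by linarith [rr_le_one y ω])
        (mul_nonneg (prod_nonneg (fun x _ => rr_nonneg x ω)) (exp_pos _).le))
  · exact mul_nonneg (prod_nonneg (fun x _ => rr_nonneg x ω)) (exp_pos _).le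

/-- the contribution of a line to the potential exponent -/
noncomputable def con (a b : ℝ) (s m : ℕ) : ℝ :=
  if s = 0 then a * ch2 (m : ℝ) else b * (m : ℝ)

lemma E_GG_le (hg : Good L A S q) {a b a' b' h h' nm τ Pm : ℝ}
    (hR : RH q a b a' b' h h' nm τ Pm) {l : Finset V} (hl : l ∈ L)
    (hnm : ((A ∩ l).card : ℝ) ≤ nm) (v : V) :
    E (wt L A S q) (GG L A S a' b' l v)
      ≤ nu q (S ∩ l).card (XX A l v).card * exp (con a b (S ∩ l).card (XX A l v).card) := by
  have hw := isProb hg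
  have hXA : XX A l v ⊆ A ∩ l := erase_subset _ _
  set X := XX A l v with hXdef
  have hq1 : 0 < 1 - q := by linarith [hR.q1]
  by_cases hs : (S ∩ l).card = 0
  · -- no chosen point yet
    have e : GG L A S a' b' l v = fun ω =>
        (∏ x ∈ X, rr x ω) * exp (a' * ch2 (∑ x ∈ X, cc L A S l x ω))
        + ∑ y ∈ X, (1 - rr y ω) * ((∏ x ∈ X.erase y, rr x ω) *
          exp (a' * ch2 (∑ x ∈ X.erase y, cc L A S l x ω) +
            b' * (∑ x ∈ X.erase y, cc L A S l x ω))) := by
      funext ω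
      unfold GG
      rw [if_pos hs]
    rw [e, E_add, E_sum]
    set m : ℝ := (X.card : ℝ) with hm
    have hm0 : 0 ≤ m := Nat.cast_nonneg _
    have h1 : E (wt L A S q) (fun ω => (∏ x ∈ X, rr x ω) *
        exp (a' * ch2 (∑ x ∈ X, cc L A S l x ω)))
        ≤ (1 - q) ^ X.card * exp (Pm ^ 2 * ch2 m * a') := by
      have := lemQ' hg hR hl hnm X hXA a' 0 hR.a0 le_rfl le_rfl hR.b0
      simpa using this
    have h2 : ∀ y ∈ X, E (wt L A S q) (fun ω => (1 - rr y ω) * ((∏ x ∈ X.erase y, rr x ω) *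
          exp (a' * ch2 (∑ x ∈ X.erase y, cc L A S l x ω) +
            b' * (∑ x ∈ X.erase y, cc L A S l x ω))))
        ≤ q * ((1 - q) ^ (X.card - 1) *
            exp (Pm ^ 2 * ch2 m * a' + b * (m - 1))) := by
      intro y hy
      have hyA := hXA hy
      have hXe : X.erase y ⊆ A ∩ l := (erase_subset _ _).trans hXA
      rw [E_mul hw (X := DD L l y) (Y := (X.erase y).biUnion (DD L l))]
      · rw [E_one_sub_rr hg (mem_inter.mp hyA).1]
        apply mul_le_mul_of_nonneg_left _ hR.q0.le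
        have h3 := lemQ' hg hR hl hnm (X.erase y) hXe a' b' hR.a0 le_rfl hR.b0 le_rfl
        refine h3.trans ?_
        rw [card_erase_of_mem hy]
        apply mul_le_mul_of_nonneg_left _ (by positivity)
        apply exp_le_exp.mpr
        have hpos : 1 ≤ X.card := card_pos.mpr ⟨y, hy⟩
        have hc : ((X.card - 1 : ℕ) : ℝ) = m - 1 := by
          rw [Nat.cast_sub hpos]; simp [hm]
        have h4 : ch2 ((X.card - 1 : ℕ) : ℝ) ≤ ch2 m := ch2_mono_nat (by omega)
        have h5 : Pm ^ 2 * ch2 ((X.card - 1 : ℕ) : ℝ) * a' ≤ Pm ^ 2 * ch2 m * a' :=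
          mul_le_mul_of_nonneg_right (mul_le_mul_of_nonneg_left h4 (by positivity)) hR.a0
        have h6 : Pm * ((X.card - 1 : ℕ) : ℝ) * b' ≤ b * (m - 1) := by
          rw [hc]
          have h7 : 0 ≤ m - 1 := by
            have : (1 : ℝ) ≤ m := by rw [hm]; exact_mod_cast hpos
            linarith
          have := mul_le_mul_of_nonneg_right hR.c1 h7
          linarith
        linarith
      · intro ω ω' h
        simp only [dep_rr' l y ω ω' h]
      · intro ω ω' hω
        have e1 : ∏ x ∈ X.erase y, rr x ω = ∏ x ∈ X.erase y, rr x ω' := prod_congr rfl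
          (fun x hx => dep_rr' l x ω ω' (fun v hv => hω v (mem_biUnion.mpr ⟨x, hx, hv⟩)))
        have e2 : ∑ x ∈ X.erase y, cc L A S l x ω = ∑ x ∈ X.erase y, cc L A S l x ω' :=
          sum_congr rfl (fun x hx => dep_cc l x ω ω'
            (fun v hv => hω v (mem_biUnion.mpr ⟨x, hx, hv⟩)))
        simp only [e1, e2]
      · rw [disjoint_biUnion_right]
        intro x hx
        exact disj_DD hg hl (mem_inter.mp hyA).2 (mem_inter.mp (hXe hx)).2
          (ne_of_mem_erase hx).symm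
    have h3 := sum_le_sum h2
    rw [sum_const, nsmul_eq_mul, ← hm] at h3
    have hcon : con a b (S ∩ l).card X.card = a * ch2 m := by
      unfold con; rw [if_pos hs]
    rw [hcon]
    rcases Nat.eq_zero_or_pos X.card with hX0 | hX0
    · -- empty
      have hm' : m = 0 := by rw [hm, hX0]; simp
      rw [hm'] at h1 h3 ⊢
      rw [hX0, hs]
      rw [hX0] at h1
      simp only [ch2, zero_mul, mul_zero, exp_zero, nu, zero_div] at h1 h3 ⊢
      simp only [pow_zero, if_true, Nat.cast_zero, zero_mul] at h1 ⊢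
      linarith
    have hm1 : (1 : ℝ) ≤ m := by rw [hm]; exact_mod_cast hX0
    have hb1 : b * (m - 1) ≤ 1 := by
      have h4 : m ≤ nm := by
        refine le_trans ?_ hnm
        rw [hm]
        exact_mod_cast card_le_card hXA
      have h5 : b * (m - 1) ≤ b * nm := mul_le_mul_of_nonneg_left (by linarith) hR.bb
      linarith [hR.c4]
    have hb0 : 0 ≤ b * (m - 1) := mul_nonneg hR.bb (by linarith)
    have hexpb : exp (b * (m - 1)) ≤ 1 + 2 * (b * (m - 1)) := by
      have := exp_le_quad hb0 hb1 le_rfl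
      linarith
    set N1 : ℝ := (1 - q) ^ (X.card - 1) with hN1
    have hN1pos : 0 < N1 := by positivity
    have hpow : (1 - q) ^ X.card = N1 * (1 - q) := by
      rw [hN1, ← pow_succ]; congr 1; omega
    have hnu : nu q (S ∩ l).card X.card = N1 * (1 - q) + m * q * N1 := by
      unfold nu
      rw [if_pos hs, hpow]
    rw [hnu]
    set T := exp (Pm ^ 2 * ch2 m * a') with hT
    have hTpos : 0 < T := exp_pos _
    have h6 : E (wt L A S q) (fun ω => (∏ x ∈ X, rr x ω) *
        exp (a' * ch2 (∑ x ∈ X, cc L A S l x ω)))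
        + ∑ y ∈ X, E (wt L A S q) (fun ω => (1 - rr y ω) * ((∏ x ∈ X.erase y, rr x ω) *
          exp (a' * ch2 (∑ x ∈ X.erase y, cc L A S l x ω) +
            b' * (∑ x ∈ X.erase y, cc L A S l x ω))))
        ≤ N1 * (1 - q) * T + m * (q * (N1 * (T * exp (b * (m - 1))))) := by
      have h7 : m * (q * (N1 * (T * exp (b * (m - 1)))))
          = m * (q * (N1 * exp (Pm ^ 2 * ch2 m * a' + b * (m - 1)))) := by
        rw [hT, ← exp_add]
      rw [h7]
      have h8 := h1
      rw [hpow] at h8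
      exact add_le_add h8 h3
    refine h6.trans ?_
    have h9 : N1 * (1 - q) * T + m * (q * (N1 * (T * exp (b * (m - 1)))))
        ≤ T * (N1 * (1 - q) + m * q * N1 + 2 * b * q * N1 * (m * (m - 1))) := by
      have h10 : m * (q * (N1 * (T * exp (b * (m - 1)))))
          ≤ m * (q * (N1 * (T * (1 + 2 * (b * (m - 1)))))) := by
        apply mul_le_mul_of_nonneg_left _ hm0
        apply mul_le_mul_of_nonneg_left _ hR.q0.le
        apply mul_le_mul_of_nonneg_left _ hN1pos.le
        exact mul_le_mul_of_nonneg_left hexpb hTpos.le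
      calc _ ≤ N1 * (1 - q) * T + m * (q * (N1 * (T * (1 + 2 * (b * (m - 1)))))) := by linarith
        _ = _ := by ring
    refine h9.trans ?_
    have h11 : N1 ≤ N1 * (1 - q) + m * q * N1 := by
      have : 0 ≤ (m - 1) * q * N1 := mul_nonneg (mul_nonneg (by linarith) hR.q0.le) hN1pos.le
      nlinarith
    have h12 : N1 * (1 - q) + m * q * N1 + 2 * b * q * N1 * (m * (m - 1))
        ≤ (N1 * (1 - q) + m * q * N1) * (1 + 4 * q * b * ch2 m) := by
      have hc : 0 ≤ 4 * q * b * ch2 m := by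
        have h13 := ch2_nat_nonneg X.card
        rw [← hm] at h13
        have := hR.q0
        have := hR.bb
        positivity
      have h14 : 2 * b * q * N1 * (m * (m - 1)) = N1 * (4 * q * b * ch2 m) := by
        unfold ch2; ring
      have h15 := mul_le_mul_of_nonneg_right h11 hc
      rw [h14]
      nlinarith
    have h16 : 1 + 4 * q * b * ch2 m ≤ exp (4 * q * b * ch2 m) := by
      have := add_one_le_exp (4 * q * b * ch2 m)
      linarith
    have h17 : 0 ≤ N1 * (1 - q) + m * q * N1 := by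
      have := hR.q0
      positivity
    calc T * (N1 * (1 - q) + m * q * N1 + 2 * b * q * N1 * (m * (m - 1)))
        ≤ T * ((N1 * (1 - q) + m * q * N1) * (1 + 4 * q * b * ch2 m)) :=
          mul_le_mul_of_nonneg_left h12 hTpos.le
      _ ≤ T * ((N1 * (1 - q) + m * q * N1) * exp (4 * q * b * ch2 m)) :=
          mul_le_mul_of_nonneg_left (mul_le_mul_of_nonneg_left h16 h17) hTpos.le
      _ = (N1 * (1 - q) + m * q * N1) * exp ((Pm ^ 2 * a' + 4 * q * b) * ch2 m) := by
          have : exp ((Pm ^ 2 * a' + 4 * q * b) * ch2 m) = T * exp (4 * q * b * ch2 m) := by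
            rw [hT, ← exp_add]; congr 1; ring
          rw [this]; ring
      _ ≤ (N1 * (1 - q) + m * q * N1) * exp (a * ch2 m) := by
          apply mul_le_mul_of_nonneg_left _ h17
          apply exp_le_exp.mpr
          apply mul_le_mul_of_nonneg_right hR.c2
          have h13 := ch2_nat_nonneg X.card
          rwa [← hm] at h13
  · -- one chosen point
    have e : GG L A S a' b' l v = fun ω =>
        (∏ x ∈ X, rr x ω) * exp (b' * (∑ x ∈ X, cc L A S l x ω)) := by
      funext ω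
      unfold GG
      rw [if_neg hs]
    rw [e]
    have h1 := lemQ' hg hR hl hnm X hXA 0 b' le_rfl hR.a0 hR.b0 le_rfl
    simp only [zero_mul, zero_add, mul_zero] at h1
    have hnu : nu q (S ∩ l).card X.card = (1 - q) ^ X.card := by
      unfold nu; rw [if_neg hs, add_zero]
    have hcon : con a b (S ∩ l).card X.card = b * (X.card : ℝ) := by
      unfold con; rw [if_neg hs]
    rw [hnu, hcon]
    refine h1.trans ?_
    apply mul_le_mul_of_nonneg_left _ (by positivity)
    apply exp_le_exp.mpr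
    have := mul_le_mul_of_nonneg_right hR.c1 (Nat.cast_nonneg (α := ℝ) X.card)
    linarith

end Round

end Pool.Agent.Lib.MP_0c755a_co
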