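import Pool.Agent.Lib.MP_0c755a_co.Round2

/-!
One round of the nibble.
-/

set_option linter.unusedSectionVars false
set_option linter.unusedVariables false

namespace Pool.Agent.Lib.MP_0c755a_co

open Finset Real

section Round

variable {V : Type*} [Fintype V] [DecidableEq V]

/-- invariants of the process -/
structure Inv (L : Finset (Finset V)) (A S : Finset V) : Prop where
  disj : Disjoint A S
  st2 : ∀ l ∈ L, (S ∩ l).card ≤ 2
  st1 : ∀ l ∈ L, (A ∩ l).Nonempty → (S ∩ l).card ≤ 1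

/-- exponent of the potential at `v` -/
noncomputable def psi (L : Finset (Finset V)) (a b : ℝ) (A S : Finset V) (v : V) : ℝ :=
  ∑ l ∈ Lv L v, con a b (S ∩ l).card (XX A l v).card

/-- vertex potential -/
noncomputable def Phi (L : Finset (Finset V)) (a b : ℝ) (A S : Finset V) : ℝ :=
  ∑ v ∈ A, exp (psi L a b A S v)

/-- line potential -/
noncomputable def PhiL (L : Finset (Finset V)) (h : ℝ) (A : Finset V) : ℝ :=
  ∑ l ∈ L, exp (h * ((A ∩ l).card : ℝ))

/-- unkilled -/
def Unk (L : Finset (Finset V)) (A S : Finset V) (ω : V → Lab) (v : V) : Prop :=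
  ∀ l ∈ L, v ∈ l → (S ∩ l).card + ((XX A l v).filter (fun x => ω x = Lab.R)).card ≤ 1

/-- new alive set -/
noncomputable def nA (L : Finset (Finset V)) (A S : Finset V) (ω : V → Lab) : Finset V := by
  classical exact A.filter (fun v => ω v = Lab.K ∧ Unk L A S ω v)

/-- new chosen points -/
noncomputable def nR (L : Finset (Finset V)) (A S : Finset V) (ω : V → Lab) : Finset V := by
  classical exact A.filter (fun v => ω v = Lab.R ∧ Unk L A S ω v)

variable {L : Finset (Finset V)} {A S : Finset V} {q : ℝ}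

lemma mem_nA {ω : V → Lab} {v : V} :
    v ∈ nA L A S ω ↔ v ∈ A ∧ ω v = Lab.K ∧ Unk L A S ω v := by
  classical unfold nA; rw [mem_filter]

lemma mem_nR {ω : V → Lab} {v : V} :
    v ∈ nR L A S ω ↔ v ∈ A ∧ ω v = Lab.R ∧ Unk L A S ω v := by
  classical unfold nR; rw [mem_filter]

lemma nR_inter_subset (ω : V → Lab) (l : Finset V) (v : V) (hv : v ∉ nR L A S ω) :
    (nR L A S ω) ∩ l ⊆ (XX A l v).filter (fun x => ω x = Lab.R) := by
  intro x hx
  rw [mem_inter] at hx
  have h1 := mem_nR.mp hx.1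
  rw [mem_filter]
  refine ⟨?_, h1.2.1⟩
  unfold XX
  rw [mem_erase]
  exact ⟨fun h => hv (h ▸ hx.1), mem_inter.mpr ⟨h1.1, hx.2⟩⟩

lemma inv_new (hI : Inv L A S) (ω : V → Lab) : Inv L (nA L A S ω) (S ∪ nR L A S ω) := by
  refine ⟨?_, ?_, ?_⟩
  · rw [Finset.disjoint_left]
    intro x hx hx'
    have h1 := mem_nA.mp hx
    rw [mem_union] at hx'
    rcases hx' with h2 | h2
    · exact (Finset.disjoint_left.mp hI.disj) h1.1 h2
    · have h3 := mem_nR.mp h2
      rw [h1.2.1] at h3
      exact absurd h3.2.1 (by decide)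
  · intro l hl
    rw [union_inter_distrib_right]
    rcases ((nR L A S ω) ∩ l).eq_empty_or_nonempty with h0 | ⟨v, hv⟩
    · rw [h0, union_empty]; exact hI.st2 l hl
    · rw [mem_inter] at hv
      have h1 := mem_nR.mp hv.1
      have h2 := h1.2.2 l hl hv.2
      have h3 : (nR L A S ω) ∩ l ⊆ insert v ((XX A l v).filter (fun x => ω x = Lab.R)) := by
        intro x hx
        rw [mem_inter] at hx
        have h4 := mem_nR.mp hx.1
        by_cases hxv : x = v
        · rw [hxv]; exact mem_insert_self _ _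
        · apply mem_insert_of_mem
          rw [mem_filter]
          refine ⟨?_, h4.2.1⟩
          unfold XX
          rw [mem_erase]
          exact ⟨hxv, mem_inter.mpr ⟨h4.1, hx.2⟩⟩
      have h5 := card_le_card h3
      have h6 := card_insert_le v ((XX A l v).filter (fun x => ω x = Lab.R))
      have h7 := card_union_le (S ∩ l) ((nR L A S ω) ∩ l)
      omega
  · intro l hl hne
    obtain ⟨v, hv⟩ := hne
    rw [mem_inter] at hv
    have h1 := mem_nA.mp hv.1
    have h2 := h1.2.2 l hl hv.2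
    rw [union_inter_distrib_right]
    have h3 : v ∉ nR L A S ω := by
      intro h
      have h4 := mem_nR.mp h
      rw [h1.2.1] at h4
      exact absurd h4.2.1 (by decide)
    have h5 := card_le_card (nR_inter_subset (L := L) (A := A) (S := S) ω l v h3)
    have h7 := card_union_le (S ∩ l) ((nR L A S ω) ∩ l)
    omega

lemma prod_Uf_eq (hg : Good L A S q) {v : V} (hv : v ∈ A) (ω : V → Lab) :
    (∏ l ∈ Lv L v, Uf (S ∩ l).card (XX A l v) ω) = 1 ∧ Unk L A S ω v ∨
    (∏ l ∈ Lv L v, Uf (S ∩ l).card (XX A l v) ω) = 0 ∧ ¬ Unk L A S ω v := by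
  have hst : ∀ l ∈ Lv L v, (S ∩ l).card ≤ 1 := by
    intro l hl
    rw [mem_Lv] at hl
    exact hg.st1 l hl.1 ⟨v, mem_inter.mpr ⟨hv, hl.2⟩⟩
  by_cases hU : Unk L A S ω v
  · left
    refine ⟨prod_eq_one (fun l hl => ?_), hU⟩
    rw [Uf_eq _ (hst l hl)]
    have hl' := mem_Lv.mp hl
    rw [if_pos (hU l hl'.1 hl'.2)]
  · right
    refine ⟨?_, hU⟩
    unfold Unk at hU
    push Not at hU
    obtain ⟨l, hl, hvl, hlt⟩ := hU
    have hmem : l ∈ Lv L v := mem_Lv.mpr ⟨hl, hvl⟩
    apply prod_eq_zero hmem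
    rw [Uf_eq _ (hst l hmem), if_neg (by omega)]

lemma cc_eq_one_of_nA (hg : Good L A S q) {x : V} {ω : V → Lab} (hx : x ∈ nA L A S ω)
    (l : Finset V) : cc L A S l x ω = 1 := by
  have h := mem_nA.mp hx
  unfold cc
  have h1 : kk x ω = 1 := by simp [kk, h.2.1]
  rw [h1, one_mul]
  apply prod_eq_one
  intro l' hl'
  have hl2 := mem_Lv.mp (mem_of_mem_erase hl')
  rw [Uf_eq _ (hg.st1 l' hl2.1 ⟨x, mem_inter.mpr ⟨h.1, hl2.2⟩⟩)]
  rw [if_pos (h.2.2 l' hl2.1 hl2.2)]

lemma exists_k (hg : Good L A S q) (l : Finset V) (ω : V → Lab) (X Y : Finset V) (hX : X ⊆ A)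
    (hY : Y ⊆ X) (hY' : Y ⊆ nA L A S ω) :
    ∃ k : ℕ, Y.card ≤ k ∧ ∑ x ∈ X, cc L A S l x ω = (k : ℝ) := by
  classical
  refine ⟨(X.filter (fun x => cc L A S l x ω = 1)).card, ?_, ?_⟩
  · apply card_le_card
    intro x hx
    rw [mem_filter]
    exact ⟨hY hx, cc_eq_one_of_nA hg (hY' hx) l⟩
  · rw [card_filter]
    push_cast
    apply sum_congr rfl
    intro x hx
    rcases cc_01 hg l (hX hx) ω with h | ⟨h, _⟩
    · rw [h, if_neg (by norm_num)]
    · rw [h, if_pos rfl]

lemma exp_con_le (hg : Good L A S q) {a' b' : ℝ} (ha' : 0 ≤ a') (hb' : 0 ≤ b') {v : V}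
    {ω : V → Lab} (hv : v ∈ nA L A S ω) {l : Finset V} (hl : l ∈ Lv L v) :
    exp (con a' b' ((S ∪ nR L A S ω) ∩ l).card (XX (nA L A S ω) l v).card)
      ≤ GG L A S a' b' l v ω := by
  classical
  have h1 := mem_nA.mp hv
  have hl' := mem_Lv.mp hl
  have hunk := h1.2.2 l hl'.1 hl'.2
  have hvR : v ∉ nR L A S ω := by
    intro h
    have h4 := mem_nR.mp h
    rw [h1.2.1] at h4
    exact absurd h4.2.1 (by decide)
  have hsubR := nR_inter_subset (L := L) (A := A) (S := S) ω l v hvR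
  have hXA : XX A l v ⊆ A := XX_subset l v
  have hYX : XX (nA L A S ω) l v ⊆ XX A l v := by
    unfold XX
    apply erase_subset_erase
    apply inter_subset_inter_right
    intro x hx
    exact (mem_nA.mp hx).1
  have hYn : XX (nA L A S ω) l v ⊆ nA L A S ω := XX_subset l v
  set X := XX A l v with hXdef
  set Y := XX (nA L A S ω) l v with hYdef
  set F := X.filter (fun x => ω x = Lab.R) with hF
  by_cases hs : (S ∩ l).card = 0
  · have hGG : GG L A S a' b' l v ω =
        (∏ x ∈ X, rr x ω) * exp (a' * ch2 (∑ x ∈ X, cc L A S l x ω))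
        + ∑ y ∈ X, (1 - rr y ω) * ((∏ x ∈ X.erase y, rr x ω) *
          exp (a' * ch2 (∑ x ∈ X.erase y, cc L A S l x ω) +
            b' * (∑ x ∈ X.erase y, cc L A S l x ω))) := by
      unfold GG
      rw [if_pos hs]
    have hpos1 : 0 ≤ (∏ x ∈ X, rr x ω) * exp (a' * ch2 (∑ x ∈ X, cc L A S l x ω)) :=
      mul_nonneg (prod_nonneg (fun x _ => rr_nonneg x ω)) (exp_pos _).le
    have hpos2 : ∀ y ∈ X, 0 ≤ (1 - rr y ω) * ((∏ x ∈ X.erase y, rr x ω) *
          exp (a' * ch2 (∑ x ∈ X.erase y, cc L A S l x ω) +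
            b' * (∑ x ∈ X.erase y, cc L A S l x ω))) := fun y _ =>
      mul_nonneg (by linarith [rr_le_one y ω])
        (mul_nonneg (prod_nonneg (fun x _ => rr_nonneg x ω)) (exp_pos _).le)
    by_cases hF0 : F.card = 0
    · -- no chosen point
      have hS' : ((S ∪ nR L A S ω) ∩ l).card = 0 := by
        rw [union_inter_distrib_right]
        have h5 := card_le_card hsubR
        have h6 := card_union_le (S ∩ l) ((nR L A S ω) ∩ l)
        omega
      rw [hS', hGG]
      unfold con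
      rw [if_pos rfl]
      obtain ⟨k, hk1, hk2⟩ := exists_k hg l ω X Y hXA hYX hYn
      have hprod : ∏ x ∈ X, rr x ω = 1 := by rw [prod_rr, ← hF, if_pos hF0]
      rw [hprod, one_mul, hk2]
      have h7 : exp (a' * ch2 (Y.card : ℝ)) ≤ exp (a' * ch2 (k : ℝ)) :=
        exp_le_exp.mpr (mul_le_mul_of_nonneg_left (ch2_mono_nat hk1) ha')
      have h8 := sum_nonneg hpos2
      linarith
    · have hF1 : F.card = 1 := by omega
      obtain ⟨y, hy⟩ := card_eq_one.mp hF1
      have hyF : y ∈ F := by rw [hy]; exact mem_singleton_self _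
      have hyX : y ∈ X ∧ ω y = Lab.R := by rw [hF, mem_filter] at hyF; exact hyF
      have hYe : Y ⊆ X.erase y := by
        intro x hx
        rw [mem_erase]
        refine ⟨?_, hYX hx⟩
        intro hxy
        have h9 := mem_nA.mp (hYn hx)
        rw [hxy, hyX.2] at h9
        exact absurd h9.2.1 (by decide)
      obtain ⟨k, hk1, hk2⟩ := exists_k hg l ω (X.erase y) Y ((erase_subset _ _).trans hXA) hYe hYn
      have hry : rr y ω = 0 := by simp [rr, hyX.2]
      have hprod : ∏ x ∈ X.erase y, rr x ω = 1 := by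
        rw [prod_rr, if_pos]
        have : (X.erase y).filter (fun x => ω x = Lab.R) = F.erase y := by
          ext x
          simp only [mem_filter, mem_erase, hF]
          tauto
        rw [this, card_erase_of_mem hyF]
        omega
      have hterm := single_le_sum hpos2 hyX.1
      rw [hry, hprod, hk2] at hterm
      rw [hGG]
      have hcon : con a' b' ((S ∪ nR L A S ω) ∩ l).card Y.card
          ≤ a' * ch2 (k : ℝ) + b' * (k : ℝ) := by
        have h10 : a' * ch2 (Y.card : ℝ) ≤ a' * ch2 (k : ℝ) :=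
          mul_le_mul_of_nonneg_left (ch2_mono_nat hk1) ha'
        have h11 : b' * (Y.card : ℝ) ≤ b' * (k : ℝ) :=
          mul_le_mul_of_nonneg_left (by exact_mod_cast hk1) hb'
        have h12 : 0 ≤ a' * ch2 (k : ℝ) := mul_nonneg ha' (ch2_nat_nonneg k)
        have h13 : 0 ≤ b' * (k : ℝ) := mul_nonneg hb' (Nat.cast_nonneg _)
        unfold con
        split_ifs <;> linarith
      have h14 := exp_le_exp.mpr hcon
      linarith
  · have hF0 : F.card = 0 := by omega
    have hS' : ((S ∪ nR L A S ω) ∩ l).card ≠ 0 := by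
      have : S ∩ l ⊆ (S ∪ nR L A S ω) ∩ l :=
        inter_subset_inter_right subset_union_left
      have := card_le_card this
      omega
    have hGG : GG L A S a' b' l v ω =
        (∏ x ∈ X, rr x ω) * exp (b' * (∑ x ∈ X, cc L A S l x ω)) := by
      unfold GG
      rw [if_neg hs]
    rw [hGG]
    unfold con
    rw [if_neg hS']
    obtain ⟨k, hk1, hk2⟩ := exists_k hg l ω X Y hXA hYX hYn
    have hprod : ∏ x ∈ X, rr x ω = 1 := by rw [prod_rr, ← hF, if_pos hF0]
    rw [hprod, one_mul, hk2]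
    exact exp_le_exp.mpr (mul_le_mul_of_nonneg_left (by exact_mod_cast hk1) hb')

/-- dependence set of `GG` -/
def BB (L : Finset (Finset V)) (A : Finset V) (v : V) (l : Finset V) : Finset V :=
  (XX A l v).biUnion (DD L l)

lemma dep_GG (a' b' : ℝ) (v : V) (l : Finset V) : Dep (BB L A v l) (GG L A S a' b' l v) := by
  intro ω ω' hω
  have hr : ∀ x ∈ XX A l v, rr x ω = rr x ω' := fun x hx =>
    dep_rr' l x ω ω' (fun z hz => hω z (mem_biUnion.mpr ⟨x, hx, hz⟩))
  have hc : ∀ x ∈ XX A l v, cc L A S l x ω = cc L A S l x ω' := fun x hx =>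
    dep_cc l x ω ω' (fun z hz => hω z (mem_biUnion.mpr ⟨x, hx, hz⟩))
  have e1 : ∏ x ∈ XX A l v, rr x ω = ∏ x ∈ XX A l v, rr x ω' := prod_congr rfl hr
  have e2 : ∑ x ∈ XX A l v, cc L A S l x ω = ∑ x ∈ XX A l v, cc L A S l x ω' := sum_congr rfl hc
  unfold GG
  split_ifs
  · rw [e1, e2]
    congr 1
    apply sum_congr rfl
    intro y hy
    rw [hr y hy, prod_congr rfl (fun x hx => hr x (mem_of_mem_erase hx)),
      sum_congr rfl (fun x hx => hc x (mem_of_mem_erase hx))]
  · rw [e1, e2]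

lemma notMem_BB (hG : Girth5 L) {v : V} {l : Finset V} (hl : l ∈ Lv L v) : v ∉ BB L A v l := by
  intro h
  unfold BB at h
  rw [mem_biUnion] at h
  obtain ⟨x, hx, hz⟩ := h
  have hl' := mem_Lv.mp hl
  unfold XX at hx
  rw [mem_erase, mem_inter] at hx
  rcases mem_DD hz with h1 | ⟨l1, h1, h2, h3, h4, h5⟩
  · exact hx.1 h1.symm
  · exact h3 (hG.lin l1 h1 l hl'.1 x v hx.1 h2 h4 hx.2.2 hl'.2)

lemma disj_BB (hG : Girth5 L) {v : V} {l l' : Finset V} (hl : l ∈ Lv L v) (hl' : l' ∈ Lv L v)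
    (hne : l ≠ l') : Disjoint (BB L A v l) (BB L A v l') := by
  rw [Finset.disjoint_left]
  intro z hz hz'
  have hvz : z ≠ v := by
    rintro rfl
    exact notMem_BB hG hl hz
  unfold BB at hz hz'
  rw [mem_biUnion] at hz hz'
  obtain ⟨x, hx, hzx⟩ := hz
  obtain ⟨x', hx', hzx'⟩ := hz'
  unfold XX at hx hx'
  rw [mem_erase, mem_inter] at hx hx'
  have h1 := mem_Lv.mp hl
  have h2 := mem_Lv.mp hl'
  have hxx' : x ≠ x' := by
    rintro rfl
    exact hne (hG.lin l h1.1 l' h2.1 v x hx.1.symm h1.2 hx.2.2 h2.2 hx'.2.2)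
  rcases mem_DD hzx with h3 | ⟨l1, h3, h4, h5, h6, h7⟩
  · subst h3
    rcases mem_DD hzx' with h3' | ⟨l1', h3', h4', h5', h6', h7'⟩
    · exact hxx' h3'
    · -- v, x' ∈ l'; x', z ∈ l1'; z, v ∈ l
      exact h5' (hG.tri l' h2.1 l1' h3' l h1.1 v x' z hx'.1.symm h7'.symm hvz
        h2.2 hx'.2.2 h4' h6' hx.2.2 h1.2).symm
  · rcases mem_DD hzx' with h3' | ⟨l1', h3', h4', h5', h6', h7'⟩
    · subst h3'
      exact h5 (hG.tri l h1.1 l1 h3 l' h2.1 v x z hx.1.symm h7.symm hvz
        h1.2 hx.2.2 h4 h6 hx'.2.2 h2.2).symm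
    · by_cases hll : l1 = l1'
      · subst hll
        -- triangle v x x'
        exact h5 (hG.tri l h1.1 l1 h3 l' h2.1 v x x' hx.1.symm hxx' hx'.1
          h1.2 hx.2.2 h4 h4' hx'.2.2 h2.2).symm
      · exact hG.quad l h1.1 l1 h3 l1' h3' l' h2.1 v x z x' hx.1.symm h7.symm h7' hx'.1 hvz.symm
          hxx' h1.2 hx.2.2 h4 h6 h6' h4' hx'.2.2 h2.2 h5.symm hll h5' hne.symm

/-- expected new vertex potential -/
lemma E_Phi_le (hg : Good L A S q) {a b a' b' h h' nm τ Pm : ℝ}
    (hR : RH q a b a' b' h h' nm τ Pm) (hnm : ∀ l ∈ L, ((A ∩ l).card : ℝ) ≤ nm) :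
    E (wt L A S q) (fun ω => Phi L a' b' (nA L A S ω) (S ∪ nR L A S ω))
      ≤ (1 / 2) * Phi L a b A S := by
  classical
  have hw := isProb hg
  have h1 : ∀ ω, Phi L a' b' (nA L A S ω) (S ∪ nR L A S ω)
      ≤ ∑ v ∈ A, kk v ω * ∏ l ∈ Lv L v, GG L A S a' b' l v ω := by
    intro ω
    unfold Phi
    have h2 : ∑ v ∈ nA L A S ω, exp (psi L a' b' (nA L A S ω) (S ∪ nR L A S ω) v)
        ≤ ∑ v ∈ nA L A S ω, kk v ω * ∏ l ∈ Lv L v, GG L A S a' b' l v ω := by
      apply sum_le_sum
      intro v hv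
      have h3 : kk v ω = 1 := by simp [kk, (mem_nA.mp hv).2.1]
      rw [h3, one_mul]
      unfold psi
      rw [exp_sum]
      exact prod_le_prod (fun l _ => (exp_pos _).le)
        (fun l hl => exp_con_le hg hR.a0 hR.b0 hv hl)
    refine h2.trans ?_
    apply sum_le_sum_of_subset_of_nonneg
    · intro v hv
      exact (mem_nA.mp hv).1
    · intro v _ _
      exact mul_nonneg (kk_nonneg v ω) (prod_nonneg (fun l _ => GG_nonneg a' b' l v ω))
  refine (E_mono hw h1).trans ?_
  rw [E_sum]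
  unfold Phi
  rw [mul_sum]
  apply sum_le_sum
  intro v hv
  rw [E_mul hw (dep_kk v) (Dep.prod (Lv L v) (BB L A v) (fun l => GG L A S a' b' l v)
    (fun l _ => dep_GG a' b' v l))]
  · rw [E_kk hg hv, E_prod hw (Lv L v) (BB L A v) (fun l => GG L A S a' b' l v)
      (fun l _ => dep_GG a' b' v l) (fun l hl l' hl' hne => disj_BB hg.girth hl hl' hne)]
    have h4 : ∏ l ∈ Lv L v, E (wt L A S q) (GG L A S a' b' l v)
        ≤ ∏ l ∈ Lv L v, (nu q (S ∩ l).card (XX A l v).card
          * exp (con a b (S ∩ l).card (XX A l v).card)) := by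
      apply prod_le_prod
      · intro l _
        exact E_nonneg hw (fun ω => GG_nonneg a' b' l v ω)
      · intro l hl
        exact E_GG_le hg hR (mem_Lv.mp hl).1 (hnm l (mem_Lv.mp hl).1) v
    rw [prod_mul_distrib, ← exp_sum] at h4
    have hs := ss_pos hg v
    calc (1 / 2) / ss L A S q v * ∏ l ∈ Lv L v, E (wt L A S q) (GG L A S a' b' l v)
        ≤ (1 / 2) / ss L A S q v * ((∏ l ∈ Lv L v, nu q (S ∩ l).card (XX A l v).card)
          * exp (∑ l ∈ Lv L v, con a b (S ∩ l).card (XX A l v).card)) :=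
          mul_le_mul_of_nonneg_left h4 (by positivity)
      _ = (1 / 2) * exp (psi L a b A S v) := by
          have : (∏ l ∈ Lv L v, nu q (S ∩ l).card (XX A l v).card) = ss L A S q v := rfl
          rw [this]
          unfold psi
          field_simp
  · rw [disjoint_singleton_left, mem_biUnion]
    rintro ⟨l, hl, h⟩
    exact notMem_BB hg.girth hl h

/-- expected number of alive points -/
lemma E_card_nA (hg : Good L A S q) :
    E (wt L A S q) (fun ω => ((nA L A S ω).card : ℝ)) = (1 / 2) * (A.card : ℝ) := by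
  classical
  have e : (fun ω => ((nA L A S ω).card : ℝ))
      = fun ω => ∑ v ∈ A, kk v ω * ∏ l ∈ Lv L v, Uf (S ∩ l).card (XX A l v) ω := by
    funext ω
    unfold nA
    rw [card_filter]
    push_cast
    apply sum_congr rfl
    intro v hv
    rcases prod_Uf_eq hg hv ω with ⟨h1, h2⟩ | ⟨h1, h2⟩
    · rw [h1]
      by_cases h3 : ω v = Lab.K
      · rw [if_pos ⟨h3, h2⟩]; simp [kk, h3]
      · rw [if_neg (fun h => h3 h.1)]; simp [kk, h3]
    · rw [h1, if_neg (fun h => h2 h.2), mul_zero]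
  rw [e, E_sum]
  have : ∀ v ∈ A, E (wt L A S q) (fun ω => kk v ω * ∏ l ∈ Lv L v, Uf (S ∩ l).card (XX A l v) ω)
      = 1 / 2 := by
    intro v hv
    rw [E_kk_prod hg hv (Lv L v) (Finset.Subset.refl _)]
    have h1 : (∏ l ∈ Lv L v, nu q (S ∩ l).card (XX A l v).card) = ss L A S q v := rfl
    rw [h1]
    have := ss_pos hg v
    field_simp
  rw [sum_congr rfl this, sum_const, nsmul_eq_mul]
  ring

/-- expected number of new points -/
lemma E_card_nR (hg : Good L A S q) :
    q / 2 * (A.card : ℝ) ≤ E (wt L A S q) (fun ω => ((nR L A S ω).card : ℝ)) := by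
  classical
  have hw := isProb hg
  have e : (fun ω => ((nR L A S ω).card : ℝ))
      = fun ω => ∑ v ∈ A, (1 - rr v ω) * ∏ l ∈ Lv L v, Uf (S ∩ l).card (XX A l v) ω := by
    funext ω
    unfold nR
    rw [card_filter]
    push_cast
    apply sum_congr rfl
    intro v hv
    rcases prod_Uf_eq hg hv ω with ⟨h1, h2⟩ | ⟨h1, h2⟩
    · rw [h1]
      by_cases h3 : ω v = Lab.R
      · rw [if_pos ⟨h3, h2⟩]; simp [rr, h3]
      · rw [if_neg (fun h => h3 h.1)]; simp [rr, h3]
    · rw [h1, if_neg (fun h => h2 h.2), mul_zero]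
  rw [e, E_sum]
  have : ∀ v ∈ A, q / 2 ≤ E (wt L A S q)
      (fun ω => (1 - rr v ω) * ∏ l ∈ Lv L v, Uf (S ∩ l).card (XX A l v) ω) := by
    intro v hv
    have hdl : ∀ l ∈ Lv L v, Dep (l.erase v) (fun ω => Uf (S ∩ l).card (XX A l v) ω) :=
      fun l _ => (dep_Uf _ _).mono (XX_subset' l v)
    rw [E_mul hw (X := {v}) (Y := (Lv L v).biUnion (fun l => l.erase v))]
    · rw [E_one_sub_rr hg hv, E_prod hw (Lv L v) (fun l => l.erase v) _ hdl]
      · have h1 : (∏ l ∈ Lv L v, E (wt L A S q) (fun ω => Uf (S ∩ l).card (XX A l v) ω))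
            = ss L A S q v := by
          unfold ss
          apply prod_congr rfl
          intro l _
          exact E_Uf hg _ (XX_subset l v)
        rw [h1]
        have h2 := hg.hs v hv
        have h3 : 1 / 2 ≤ ss L A S q v := by
          have := mul_pos hg.q0 (ss_pos hg v)
          nlinarith
        have := mul_le_mul_of_nonneg_left h3 hg.q0.le
        linarith
      · intro l hl l' hl' hne
        rw [Finset.disjoint_left]
        intro z hz hz'
        have h1 := mem_Lv.mp hl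
        have h2 := mem_Lv.mp hl'
        exact hne (hg.girth.lin l h1.1 l' h2.1 v z (ne_of_mem_erase hz).symm h1.2
          (mem_of_mem_erase hz) h2.2 (mem_of_mem_erase hz'))
    · intro ω ω' h
      simp only [dep_rr v ω ω' h]
    · exact Dep.prod (Lv L v) (fun l => l.erase v) _ hdl
    · rw [disjoint_singleton_left, mem_biUnion]
      rintro ⟨l, _, h⟩
      exact (ne_of_mem_erase h) rfl
  have h2 := sum_le_sum this
  rw [sum_const, nsmul_eq_mul] at h2
  linarith

/-- expected line potential -/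
lemma E_PhiL_le (hg : Good L A S q) {a b a' b' h h' nm τ Pm : ℝ}
    (hR : RH q a b a' b' h h' nm τ Pm) (hnm : ∀ l ∈ L, ((A ∩ l).card : ℝ) ≤ nm) :
    E (wt L A S q) (fun ω => PhiL L h' (nA L A S ω)) ≤ PhiL L h A := by
  classical
  have hw := isProb hg
  unfold PhiL
  rw [E_sum]
  apply sum_le_sum
  intro l hl
  have h1 : ∀ ω, exp (h' * ((nA L A S ω ∩ l).card : ℝ))
      ≤ ∏ x ∈ A ∩ l, exp (h' * cc L A S l x ω) := by
    intro ω
    rw [← exp_sum, ← mul_sum]
    apply exp_le_exp.mpr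
    apply mul_le_mul_of_nonneg_left _ hR.h0
    obtain ⟨k, hk1, hk2⟩ := exists_k hg l ω (A ∩ l) (nA L A S ω ∩ l) inter_subset_left
      (inter_subset_inter_right (fun x hx => (mem_nA.mp hx).1)) inter_subset_left
    rw [hk2]
    exact_mod_cast hk1
  refine (E_mono hw h1).trans ?_
  rw [E_prod hw (A ∩ l) (DD L l) (fun x ω => exp (h' * cc L A S l x ω))]
  · have h2 : ∀ x ∈ A ∩ l, E (wt L A S q) (fun ω => exp (h' * cc L A S l x ω)) ≤ exp h := by
      intro x hx
      have hx' := mem_inter.mp hx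
      have e : (fun ω => exp (h' * cc L A S l x ω))
          = fun ω => 1 + (exp h' - 1) * cc L A S l x ω := by
        funext ω
        rcases cc_01 hg l hx'.1 ω with h3 | ⟨h3, _⟩
        · rw [h3]; simp
        · rw [h3]; simp
      rw [e, E_add, E_const hw, E_smul, E_cc hg hl hx'.1 hx'.2]
      set m0 := (XX A l x).card with hm0
      set ν := nu q (S ∩ l).card m0 with hν
      have hνpos : 0 < ν := nu_pos hR.q0.le hR.q1 _ _
      have hν1 : 1 - q * nm ≤ ν := by
        have h1 := nu_ge_pow hR.q0.le hR.q1 (S ∩ l).card m0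
        have h2 := one_sub_pow_ge hR.q1.le m0
        have h3 : (m0 : ℝ) ≤ nm := by
          refine le_trans ?_ (hnm l hl)
          exact_mod_cast card_le_card (erase_subset _ _)
        have h4 : (m0 : ℝ) * q ≤ q * nm := by
          rw [mul_comm]; exact mul_le_mul_of_nonneg_left h3 hR.q0.le
        linarith
      have hqn : 0 < 1 - q * nm := by linarith [hR.qn]
      have hp0 : 0 < (1 / 2) / ν := by positivity
      have hkey : (1 / 2) / ν * (1 + τ) ≤ Pm := by
        have h1 : (1 / 2) / ν ≤ (1 / 2) / (1 - q * nm) :=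
          div_le_div_of_nonneg_left (by norm_num) hqn hν1
        have h2 : (1 / 2) / (1 - q * nm) * (1 + τ) ≤ Pm * (1 - q) := by
          rw [div_mul_eq_mul_div, div_le_iff₀ hqn]
          exact hR.hPm
        have h3 : (1 / 2) / ν * (1 + τ) ≤ (1 / 2) / (1 - q * nm) * (1 + τ) :=
          mul_le_mul_of_nonneg_right h1 (by linarith [hR.τ0])
        have h4 : Pm * (1 - q) ≤ Pm := by nlinarith [hR.Pm0, hR.q0]
        linarith
      have hexp := exp_le_quad hR.h0 hR.c5 hR.τ1
      have h5 : (exp h' - 1) * ((1 / 2) / ν) ≤ (1 + τ) * h' * ((1 / 2) / ν) :=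
        mul_le_mul_of_nonneg_right (by linarith) hp0.le
      have h6 : (1 + τ) * h' * ((1 / 2) / ν) ≤ Pm * h' := by
        have := mul_le_mul_of_nonneg_right hkey hR.h0
        linarith
      have h7 : 1 + h ≤ exp h := by
        have := add_one_le_exp h
        linarith
      linarith [hR.c6]
    calc ∏ x ∈ A ∩ l, E (wt L A S q) (fun ω => exp (h' * cc L A S l x ω))
        ≤ ∏ x ∈ A ∩ l, exp h := prod_le_prod (fun x _ => E_nonneg hw (fun ω => (exp_pos _).le)) h2
      _ = exp (h * ((A ∩ l).card : ℝ)) := by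
          rw [prod_const, ← exp_nat_mul, mul_comm]
  · intro x _ ω ω' hω
    simp only [dep_cc l x ω ω' hω]
  · intro x hx y hy hxy
    exact disj_DD hg hl (mem_inter.mp hx).2 (mem_inter.mp hy).2 hxy

/-- one round -/
theorem round_step (hI : Inv L A S) (hg : Good L A S q) {a b a' b' h h' nm τ Pm : ℝ}
    (hR : RH q a b a' b' h h' nm τ Pm) (hnm : ∀ l ∈ L, ((A ∩ l).card : ℝ) ≤ nm)
    (lam mu rho : ℝ) (hlam : 0 ≤ lam) (hmu : 0 ≤ mu) (hrho : 0 ≤ rho) :
    ∃ A' S' : Finset V, Inv L A' S' ∧ A' ⊆ A ∧ S' ⊆ S ∪ A ∧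
      (S.card : ℝ) + (q + lam) / 2 * (A.card : ℝ) - mu / 2 * Phi L a b A S - rho * PhiL L h A
      ≤ (S'.card : ℝ) + lam * (A'.card : ℝ) - mu * Phi L a' b' A' S' - rho * PhiL L h' A' := by
  classical
  have hw := isProb hg
  obtain ⟨ω, hω⟩ := exists_ge_E hw (fun ω => (((nR L A S ω).card : ℝ) + lam * ((nA L A S ω).card : ℝ))
    - (mu * Phi L a' b' (nA L A S ω) (S ∪ nR L A S ω) + rho * PhiL L h' (nA L A S ω)))
  refine ⟨nA L A S ω, S ∪ nR L A S ω, inv_new hI ω, fun x hx => (mem_nA.mp hx).1,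
    union_subset_union_right (fun x hx => (mem_nR.mp hx).1), ?_⟩
  have hcard : ((S ∪ nR L A S ω).card : ℝ) = S.card + (nR L A S ω).card := by
    rw [card_union_of_disjoint]
    · push_cast; ring
    · rw [Finset.disjoint_left]
      intro x hx hx'
      exact (Finset.disjoint_left.mp hI.disj) (mem_nR.mp hx').1 hx
  rw [E_sub, E_add, E_add, E_smul, E_smul, E_smul] at hω
  rw [hcard]
  have h1 := E_card_nR hg
  have h2 := E_card_nA hg
  have h3 := mul_le_mul_of_nonneg_left (E_Phi_le hg hR hnm) hmu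
  have h4 := mul_le_mul_of_nonneg_left (E_PhiL_le hg hR hnm) hrho
  rw [h2] at hω
  have h5 : (q + lam) / 2 * (A.card : ℝ) = q / 2 * A.card + lam * (1 / 2 * A.card) := by ring
  rw [h5]
  linarith

end Round

end Pool.Agent.Lib.MP_0c755a_co
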