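import Pool.Agent.Lib.MP_0c755a_co.Sample1
import Pool.Agent.Lib.MP_0c755a_co.Planar

/-!
The crossing lemma and the Szemerédi–Trotter bound for rich lines.
-/

set_option linter.unusedSectionVars false
set_option linter.unusedVariables false

namespace Pool.Agent.Lib.MP_0c755a_co

open Finset

section ST

variable {V : Type*} [Fintype V] [DecidableEq V] (X Y : V → ℝ)

open Classical in
/-- points on the line `y = l.1 x + l.2` -/
noncomputable def pts (l : ℝ × ℝ) : Finset V := univ.filter (fun v => Y v = l.1 * X v + l.2)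

open Classical in
/-- consecutive pairs on a line -/
noncomputable def Ed (l : ℝ × ℝ) : Finset (V × V) :=
  univ.filter (fun e => e.1 ∈ pts X Y l ∧ e.2 ∈ pts X Y l ∧ X e.1 < X e.2 ∧
    ∀ w ∈ pts X Y l, ¬ (X e.1 < X w ∧ X w < X e.2))

variable {X Y}

lemma mem_pts {l : ℝ × ℝ} {v : V} : v ∈ pts X Y l ↔ Y v = l.1 * X v + l.2 := by
  classical
  unfold pts; rw [mem_filter]; simp

lemma mem_Ed {l : ℝ × ℝ} {e : V × V} : e ∈ Ed X Y l ↔ e.1 ∈ pts X Y l ∧ e.2 ∈ pts X Y l ∧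
    X e.1 < X e.2 ∧ ∀ w ∈ pts X Y l, ¬ (X e.1 < X w ∧ X w < X e.2) := by
  classical
  unfold Ed; rw [mem_filter]; simp

lemma yy_Ed {l : ℝ × ℝ} {e : V × V} (he : e ∈ Ed X Y l) (x : ℝ) :
    yy X Y e x = l.1 * x + l.2 := by
  rw [mem_Ed] at he
  obtain ⟨h1, h2, h3, _⟩ := he
  rw [mem_pts] at h1 h2
  have h4 : sl X Y e = l.1 := by
    unfold sl
    rw [h1, h2]
    have : X e.2 - X e.1 ≠ 0 := by linarith
    rw [div_eq_iff this]; ring
  unfold yy
  rw [h4, h1]; ring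

/-- consecutive pairs with overlapping open intervals coincide -/
lemma Ed_eq (hX : Function.Injective X) {l : ℝ × ℝ} {e f : V × V} (he : e ∈ Ed X Y l)
    (hf : f ∈ Ed X Y l) {x : ℝ} (h1 : X e.1 < x) (h2 : x < X e.2) (h3 : X f.1 < x)
    (h4 : x < X f.2) : e = f := by
  rw [mem_Ed] at he hf
  obtain ⟨a1, a2, a3, a4⟩ := he
  obtain ⟨b1, b2, b3, b4⟩ := hf
  have e1 : e.1 = f.1 := by
    apply hX
    rcases lt_trichotomy (X e.1) (X f.1) with hc | hc | hc
    · exact (a4 f.1 b1 ⟨hc, by linarith⟩).elim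
    · exact hc
    · exact (b4 e.1 a1 ⟨hc, by linarith⟩).elim
  have e2 : e.2 = f.2 := by
    apply hX
    rcases lt_trichotomy (X e.2) (X f.2) with hc | hc | hc
    · exact (b4 e.2 a2 ⟨by linarith, hc⟩).elim
    · exact hc
    · exact (a4 f.2 b2 ⟨by linarith, hc⟩).elim
  exact Prod.ext e1 e2

lemma line_ext {l m : ℝ × ℝ} {x x' : ℝ} (hx : x ≠ x') (h1 : l.1 * x + l.2 = m.1 * x + m.2)
    (h2 : l.1 * x' + l.2 = m.1 * x' + m.2) : l = m := by
  have h3 : (l.1 - m.1) * (x - x') = 0 := by linarith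
  rcases mul_eq_zero.mp h3 with h | h
  · have h4 : l.1 = m.1 := by linarith
    have h5 : l.2 = m.2 := by rw [h4] at h1; linarith
    exact Prod.ext h4 h5
  · exact (hx (by linarith)).elim

lemma Ed_disj {l m : ℝ × ℝ} {e : V × V} (he : e ∈ Ed X Y l) (he' : e ∈ Ed X Y m) : l = m := by
  have h1 := (mem_Ed.mp he).2.2.1
  have a := yy_Ed he (X e.1)
  have b := yy_Ed he' (X e.1)
  have c := yy_Ed he (X e.2)
  have d := yy_Ed he' (X e.2)
  exact line_ext (ne_of_lt h1) (by rw [← a, ← b]) (by rw [← c, ← d])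

lemma card_Ed_ge (hX : Function.Injective X) (l : ℝ × ℝ) :
    (pts X Y l).card - 1 ≤ (Ed X Y l).card := by
  classical
  rcases (pts X Y l).eq_empty_or_nonempty with h0 | hne
  · rw [h0]; simp
  obtain ⟨M, hM, hmax⟩ := exists_max_image _ X hne
  have hex : ∀ u ∈ (pts X Y l).erase M, ∃ s, (u, s) ∈ Ed X Y l := by
    intro u hu
    rw [mem_erase] at hu
    have hlt : X u < X M := lt_of_le_of_ne (hmax u hu.2) (fun h => hu.1 (hX h))
    obtain ⟨s, hs, hmin⟩ := exists_min_image ((pts X Y l).filter (fun w => X u < X w)) X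
      ⟨M, mem_filter.mpr ⟨hM, hlt⟩⟩
    rw [mem_filter] at hs
    refine ⟨s, mem_Ed.mpr ⟨hu.2, hs.1, hs.2, ?_⟩⟩
    rintro w hw ⟨h1, h2⟩
    have := hmin w (mem_filter.mpr ⟨hw, h1⟩)
    simp only at h2
    linarith
  have hneV : Nonempty V := ⟨M⟩
  choose! s hs using hex
  rw [← card_erase_of_mem hM]
  apply card_le_card_of_injOn (fun u => (u, s u))
  · intro u hu
    exact mem_coe.mpr (hs u (mem_coe.mp hu))
  · intro u _ u' _ h
    simp only [Prod.mk.injEq] at h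
    exact h.1

/-- crossing edges -/
def crs (X Y : V → ℝ) (e f : V × V) : Prop :=
  ∃ x : ℝ, X e.1 < x ∧ x < X e.2 ∧ X f.1 < x ∧ x < X f.2 ∧ yy X Y e x = yy X Y f x

open Classical in
/-- ordered crossing pairs -/
noncomputable def XS (X Y : V → ℝ) (E : Finset (V × V)) : Finset ((V × V) × (V × V)) :=
  (E ×ˢ E).filter (fun ef => ef.1 ≠ ef.2 ∧ crs X Y ef.1 ef.2)

lemma mem_XS {E : Finset (V × V)} {ef : (V × V) × (V × V)} :
    ef ∈ XS X Y E ↔ (ef.1 ∈ E ∧ ef.2 ∈ E) ∧ ef.1 ≠ ef.2 ∧ crs X Y ef.1 ef.2 := by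
  classical
  unfold XS; rw [mem_filter, mem_product]

/-- sampled inequality -/
lemma sample_ineq (hX : Function.Injective X) {E : Finset (V × V)} (hlt : ∀ e ∈ E, X e.1 < X e.2)
    (hpt : ∀ e ∈ E, ∀ w, X e.1 < X w → X w < X e.2 → Y w ≠ yy X Y e (X w)) (ω : V → Bool) :
    (∑ e ∈ E, lp [{e.1}, {e.2}] ω)
      ≤ 3 * cnt univ ω + ∑ ef ∈ XS X Y E, lp [{ef.1.1}, {ef.1.2}, {ef.2.1}, {ef.2.2}] ω := by
  classical
  set P := smp ω with hP
  have hc1 : ∀ v : V, cnt {v} ω = if v ∈ P then 1 else 0 := by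
    intro v
    unfold cnt
    rw [sum_singleton]
    by_cases h : ω v = true
    · rw [if_pos h, if_pos (mem_smp.mpr h)]
    · rw [if_neg h, if_neg (fun h' => h (mem_smp.mp h'))]
  have hE : (∑ e ∈ E, lp [{e.1}, {e.2}] ω) = ((E.filter (fun e => e.1 ∈ P ∧ e.2 ∈ P)).card : ℝ) := by
    rw [card_filter]
    push_cast
    apply sum_congr rfl
    intro e _
    simp only [lp, List.map_cons, List.map_nil, List.prod_cons, List.prod_nil, mul_one, hc1]
    by_cases h1 : e.1 ∈ P <;> by_cases h2 : e.2 ∈ P <;> simp [h1, h2]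
  set Xω := (XS X Y E).filter (fun ef => (ef.1.1 ∈ P ∧ ef.1.2 ∈ P) ∧ (ef.2.1 ∈ P ∧ ef.2.2 ∈ P))
    with hXω
  have hXc : (∑ ef ∈ XS X Y E, lp [{ef.1.1}, {ef.1.2}, {ef.2.1}, {ef.2.2}] ω) = (Xω.card : ℝ) := by
    rw [hXω, card_filter]
    push_cast
    apply sum_congr rfl
    intro e _
    simp only [lp, List.map_cons, List.map_nil, List.prod_cons, List.prod_nil, mul_one, hc1]
    by_cases h1 : e.1.1 ∈ P <;> by_cases h2 : e.1.2 ∈ P <;> by_cases h3 : e.2.1 ∈ P <;>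
      by_cases h4 : e.2.2 ∈ P <;> simp [h1, h2, h3, h4]
  have hcu : cnt univ ω = (P.card : ℝ) := by rw [cnt_eq, inter_univ]
  rw [hE, hXc, hcu]
  set Eω := E.filter (fun e => e.1 ∈ P ∧ e.2 ∈ P) with hEω
  set E' := Eω \ (Xω.image (fun ef => ef.1)) with hE'
  have hNC : NC X Y P E' := by
    have hsub : ∀ e ∈ E', e ∈ E ∧ e.1 ∈ P ∧ e.2 ∈ P := by
      intro e he
      rw [hE', mem_sdiff, hEω, mem_filter] at he
      exact ⟨he.1.1, he.1.2.1, he.1.2.2⟩
    refine ⟨fun e he => (hsub e he).2.1, fun e he => (hsub e he).2.2,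
      fun e he => hlt e (hsub e he).1, fun e he w _ h1 h2 => hpt e (hsub e he).1 w h1 h2, ?_⟩
    intro e he f hf hne x h1 h2 h3 h4 h5
    have he' := hsub e he
    have hf' := hsub f hf
    rw [hE', mem_sdiff] at he
    apply he.2
    rw [mem_image]
    refine ⟨(e, f), ?_, rfl⟩
    rw [hXω, mem_filter, mem_XS]
    exact ⟨⟨⟨he'.1, hf'.1⟩, hne, x, h1, h2, h3, h4, h5⟩, he'.2, hf'.2⟩
  have hb := planar_bound hNC (fun u _ v _ h => hX h)
  have h1 : Eω.card ≤ E'.card + (Xω.image (fun ef => ef.1)).card := by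
    have : Eω ⊆ E' ∪ (Xω.image (fun ef => ef.1)) := by
      intro e he
      by_cases h : e ∈ Xω.image (fun ef => ef.1)
      · exact mem_union_right _ h
      · exact mem_union_left _ (mem_sdiff.mpr ⟨he, h⟩)
    exact (card_le_card this).trans (card_union_le _ _)
  have h2 : (Xω.image (fun ef => ef.1)).card ≤ Xω.card := card_image_le
  have : Eω.card ≤ 3 * P.card + Xω.card := by omega
  exact_mod_cast this

/-- the probabilistic crossing inequality -/
lemma crossing_p (hX : Function.Injective X) {E : Finset (V × V)} (hlt : ∀ e ∈ E, X e.1 < X e.2)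
    (hpt : ∀ e ∈ E, ∀ w, X e.1 < X w → X w < X e.2 → Y w ≠ yy X Y e (X w))
    (hend : ∀ ef ∈ XS X Y E, ef.1.1 ≠ ef.2.1 ∧ ef.1.1 ≠ ef.2.2 ∧ ef.1.2 ≠ ef.2.1 ∧ ef.1.2 ≠ ef.2.2)
    {p : ℝ} (hp0 : 0 ≤ p) (hp1 : p ≤ 1) :
    p ^ 2 * (E.card : ℝ) ≤ 3 * (p * (Fintype.card V : ℝ)) + p ^ 4 * ((XS X Y E).card : ℝ) := by
  classical
  have h := E_mono (isProb_ws hp0 hp1 : IsProb (ws p : V → Bool → ℝ))
    (fun ω => sample_ineq hX hlt hpt ω)
  rw [E_add, E_smul, E_cnt hp0 hp1, E_sum, E_sum, card_univ] at h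
  have h1 : ∀ e ∈ E, Pool.Agent.Lib.MP_0c755a_co.E (ws p) (fun ω : V → Bool => lp [{e.1}, {e.2}] ω)
      = p ^ 2 := by
    intro e he
    have hne : e.1 ≠ e.2 := by
      intro h; have := hlt e he; rw [h] at this; exact lt_irrefl _ this
    have := E_lp hp0 hp1 [({e.1} : Finset V), {e.2}] (by simp [hne])
    rw [this]
    simp
    ring
  have h2 : ∀ ef ∈ XS X Y E, Pool.Agent.Lib.MP_0c755a_co.E (ws p)
      (fun ω : V → Bool => lp [{ef.1.1}, {ef.1.2}, {ef.2.1}, {ef.2.2}] ω) = p ^ 4 := by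
    intro ef hef
    have hm := mem_XS.mp hef
    have hne1 : ef.1.1 ≠ ef.1.2 := by
      intro h; have := hlt _ hm.1.1; rw [h] at this; exact lt_irrefl _ this
    have hne2 : ef.2.1 ≠ ef.2.2 := by
      intro h; have := hlt _ hm.1.2; rw [h] at this; exact lt_irrefl _ this
    obtain ⟨a1, a2, a3, a4⟩ := hend ef hef
    have := E_lp hp0 hp1 [({ef.1.1} : Finset V), {ef.1.2}, {ef.2.1}, {ef.2.2}]
      (by simp [hne1, hne2, a1, a2, a3, a4])
    rw [this]
    simp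
    ring
  rw [sum_congr rfl h1, sum_congr rfl h2, sum_const, sum_const, nsmul_eq_mul, nsmul_eq_mul] at h
  linarith

/-- the rich lines bound -/
theorem szt (hX : Function.Injective X) (Λ : Finset (ℝ × ℝ)) (k : ℕ) (hk : 2 ≤ k)
    (hΛ : ∀ l ∈ Λ, k ≤ (pts X Y l).card) :
    (Λ.card : ℝ) * ((k : ℝ) - 1) ≤ 4 * (Fintype.card V : ℝ) ∨
    (Λ.card : ℝ) * ((k : ℝ) - 1) ^ 3 ≤ 64 * (Fintype.card V : ℝ) ^ 2 := by
  classical
  set N : ℝ := (Fintype.card V : ℝ) with hN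
  have hN0 : 0 ≤ N := Nat.cast_nonneg _
  have hk' : (1 : ℝ) ≤ (k : ℝ) - 1 := by
    have : (2 : ℝ) ≤ k := by exact_mod_cast hk
    linarith
  set E := Λ.biUnion (fun l => Ed X Y l) with hE
  have hmemE : ∀ e, e ∈ E ↔ ∃ l ∈ Λ, e ∈ Ed X Y l := by
    intro e; rw [hE, mem_biUnion]
  -- number of edges
  have hEcard : (Λ.card : ℝ) * ((k : ℝ) - 1) ≤ (E.card : ℝ) := by
    have h1 : E.card = ∑ l ∈ Λ, (Ed X Y l).card := by
      rw [hE, card_biUnion]
      intro l _ m _ hlm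
      rw [Function.onFun, Finset.disjoint_left]
      intro e he he'
      exact hlm (Ed_disj he he')
    rw [h1]
    push_cast
    rw [← nsmul_eq_mul, ← sum_const]
    apply sum_le_sum
    intro l hl
    have h2 := card_Ed_ge (Y := Y) hX l
    have h3 := hΛ l hl
    have h4 : k ≤ (Ed X Y l).card + 1 := by omega
    have h5 : (k : ℝ) ≤ ((Ed X Y l).card : ℝ) + 1 := by exact_mod_cast h4
    linarith
  have hlt : ∀ e ∈ E, X e.1 < X e.2 := by
    intro e he
    obtain ⟨l, _, hl⟩ := (hmemE e).mp he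
    exact (mem_Ed.mp hl).2.2.1
  have hpt : ∀ e ∈ E, ∀ w, X e.1 < X w → X w < X e.2 → Y w ≠ yy X Y e (X w) := by
    intro e he w h1 h2 h3
    obtain ⟨l, _, hl⟩ := (hmemE e).mp he
    rw [yy_Ed hl] at h3
    exact (mem_Ed.mp hl).2.2.2 w (mem_pts.mpr h3) ⟨h1, h2⟩
  -- structure of crossing pairs
  have hcross : ∀ ef ∈ XS X Y E, ∀ l m : ℝ × ℝ, ef.1 ∈ Ed X Y l → ef.2 ∈ Ed X Y m → l ≠ m := by
    intro ef hef l m hl hm hlm
    subst hlm
    have h := mem_XS.mp hef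
    obtain ⟨x, h1, h2, h3, h4, _⟩ := h.2.2
    exact h.2.1 (Ed_eq hX hl hm h1 h2 h3 h4)
  have hend : ∀ ef ∈ XS X Y E, ef.1.1 ≠ ef.2.1 ∧ ef.1.1 ≠ ef.2.2 ∧ ef.1.2 ≠ ef.2.1 ∧
      ef.1.2 ≠ ef.2.2 := by
    intro ef hef
    have h := mem_XS.mp hef
    obtain ⟨l, _, hl⟩ := (hmemE _).mp h.1.1
    obtain ⟨m, _, hm⟩ := (hmemE _).mp h.1.2
    have hlm := hcross ef hef l m hl hm
    obtain ⟨x, h1, h2, h3, h4, h5⟩ := h.2.2
    rw [yy_Ed hl, yy_Ed hm] at h5
    have key : ∀ u : V, u ∈ pts X Y l → u ∈ pts X Y m → X u ≠ x → False := by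
      intro u hu hu' hux
      rw [mem_pts] at hu hu'
      exact hlm (line_ext hux (by rw [← hu, ← hu']) h5)
    have a := mem_Ed.mp hl
    have b := mem_Ed.mp hm
    refine ⟨?_, ?_, ?_, ?_⟩
    · intro he; exact key ef.1.1 a.1 (he ▸ b.1) (ne_of_lt h1)
    · intro he; exact key ef.1.1 a.1 (he ▸ b.2.1) (ne_of_lt h1)
    · intro he; exact key ef.1.2 a.2.1 (he ▸ b.1) (ne_of_gt h2)
    · intro he; exact key ef.1.2 a.2.1 (he ▸ b.2.1) (ne_of_gt h2)
  -- number of crossing pairs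
  have hXcard : ((XS X Y E).card : ℝ) ≤ (Λ.card : ℝ) ^ 2 := by
    have hex : ∀ ef ∈ XS X Y E, ∃ lm : (ℝ × ℝ) × (ℝ × ℝ), lm ∈ Λ ×ˢ Λ ∧ ef.1 ∈ Ed X Y lm.1 ∧
        ef.2 ∈ Ed X Y lm.2 := by
      intro ef hef
      have h := mem_XS.mp hef
      obtain ⟨l, hlΛ, hl⟩ := (hmemE _).mp h.1.1
      obtain ⟨m, hmΛ, hm⟩ := (hmemE _).mp h.1.2
      exact ⟨(l, m), mem_product.mpr ⟨hlΛ, hmΛ⟩, hl, hm⟩
    choose! g hg using hex
    have h1 : (XS X Y E).card ≤ (Λ ×ˢ Λ).card := by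
      apply card_le_card_of_injOn g
      · intro ef hef
        exact mem_coe.mpr (hg ef (mem_coe.mp hef)).1
      · intro ef hef ef' hef' heq
        rw [mem_coe] at hef hef'
        have a := hg ef hef
        have b := hg ef' hef'
        rw [← heq] at b
        have hlm := hcross ef hef _ _ a.2.1 a.2.2
        obtain ⟨x, h1, h2, h3, h4, h5⟩ := (mem_XS.mp hef).2.2
        obtain ⟨x', h1', h2', h3', h4', h5'⟩ := (mem_XS.mp hef').2.2
        rw [yy_Ed a.2.1, yy_Ed a.2.2] at h5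
        rw [yy_Ed b.2.1, yy_Ed b.2.2] at h5'
        have hxx : x = x' := by
          by_contra hne
          exact hlm (line_ext hne h5 h5')
        subst hxx
        exact Prod.ext (Ed_eq hX a.2.1 b.2.1 h1 h2 h1' h2') (Ed_eq hX a.2.2 b.2.2 h3 h4 h3' h4')
    rw [card_product] at h1
    have h2 : ((XS X Y E).card : ℝ) ≤ (Λ.card : ℝ) * (Λ.card : ℝ) := by exact_mod_cast h1
    rw [pow_two]; exact h2
  set e : ℝ := (E.card : ℝ) with he
  rcases lt_or_ge e (4 * N) with hc | hc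
  · left; linarith
  · right
    rcases eq_or_lt_of_le hN0 with hN' | hN'
    · -- no points at all
      have hV : Fintype.card V = 0 := by
        have : (Fintype.card V : ℝ) = 0 := by rw [← hN]; exact hN'.symm
        exact_mod_cast this
      have hVe : IsEmpty V := Fintype.card_eq_zero_iff.mp hV
      have hΛe : Λ = ∅ := by
        rw [eq_empty_iff_forall_notMem]
        intro l hl
        have h1 := hΛ l hl
        have h2 : (pts X Y l).card ≤ 0 := by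
          rw [← hV]; exact card_le_univ _
        omega
      rw [hΛe, ← hN']
      simp
    · have he0 : 0 < e := by linarith
      have hp := crossing_p hX hlt hpt hend (p := 4 * N / e) (by positivity)
        (by rw [div_le_one he0]; exact hc)
      rw [← he, ← hN] at hp
      have h1 : (4 * N / e) ^ 2 * e = 16 * N ^ 2 / e := by field_simp; norm_num
      have h2 : 3 * (4 * N / e * N) = 12 * N ^ 2 / e := by field_simp; norm_num
      have h3 : (4 * N / e) ^ 4 * ((XS X Y E).card : ℝ) ≤ 256 * N ^ 4 / e ^ 4 * (Λ.card : ℝ) ^ 2 := by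
        have : (4 * N / e) ^ 4 = 256 * N ^ 4 / e ^ 4 := by field_simp; norm_num
        rw [this]
        exact mul_le_mul_of_nonneg_left hXcard (by positivity)
      rw [h1, h2] at hp
      have h4 : 4 * N ^ 2 / e ≤ 256 * N ^ 4 / e ^ 4 * (Λ.card : ℝ) ^ 2 := by
        have : 16 * N ^ 2 / e = 12 * N ^ 2 / e + 4 * N ^ 2 / e := by ring
        linarith
      have h5 : e ^ 3 ≤ 64 * N ^ 2 * (Λ.card : ℝ) ^ 2 := by
        have h6 : 4 * N ^ 2 / e * (e ^ 4 / (4 * N ^ 2))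
            ≤ 256 * N ^ 4 / e ^ 4 * (Λ.card : ℝ) ^ 2 * (e ^ 4 / (4 * N ^ 2)) :=
          mul_le_mul_of_nonneg_right h4 (by positivity)
        have h7 : 4 * N ^ 2 / e * (e ^ 4 / (4 * N ^ 2)) = e ^ 3 := by field_simp
        have h8 : 256 * N ^ 4 / e ^ 4 * (Λ.card : ℝ) ^ 2 * (e ^ 4 / (4 * N ^ 2))
            = 64 * N ^ 2 * (Λ.card : ℝ) ^ 2 := by field_simp; ring
        rw [h7, h8] at h6
        exact h6
      rcases Λ.eq_empty_or_nonempty with h0 | hne
      · rw [h0]; simp; positivity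
      have hΛpos : (0 : ℝ) < Λ.card := by exact_mod_cast card_pos.mpr hne
      have h6 : ((Λ.card : ℝ) * ((k : ℝ) - 1)) ^ 3 ≤ e ^ 3 :=
        pow_le_pow_left₀ (by positivity) hEcard 3
      have h7 : (Λ.card : ℝ) ^ 2 * ((Λ.card : ℝ) * ((k : ℝ) - 1) ^ 3)
          ≤ (Λ.card : ℝ) ^ 2 * (64 * N ^ 2) := by nlinarith
      exact le_of_mul_le_mul_left h7 (by positivity)

end ST

end Pool.Agent.Lib.MP_0c755a_co
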