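import Pool.Agent.Lib.MP_0c755a_co.Nibble

/-!
Random sampling.
-/

set_option linter.unusedSectionVars false
set_option linter.unusedVariables false

namespace Pool.Agent.Lib.MP_0c755a_co

open Finset Real

section Sample

variable {V : Type*} [Fintype V] [DecidableEq V]

/-- sampling weights -/
noncomputable def ws (p : ℝ) : V → Bool → ℝ := fun _ b => if b then p else 1 - p

lemma isProb_ws {p : ℝ} (h0 : 0 ≤ p) (h1 : p ≤ 1) : IsProb (ws p : V → Bool → ℝ) := by
  constructor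
  · intro v j
    unfold ws
    split_ifs <;> linarith
  · intro v
    simp [ws]

/-- the number of sampled points in `s` -/
noncomputable def cnt (s : Finset V) (ω : V → Bool) : ℝ := ∑ u ∈ s, if ω u = true then 1 else 0

/-- the sample -/
def smp (ω : V → Bool) : Finset V := univ.filter (fun u => ω u = true)

lemma mem_smp {ω : V → Bool} {u : V} : u ∈ smp ω ↔ ω u = true := by simp [smp]

lemma cnt_eq (s : Finset V) (ω : V → Bool) : cnt s ω = ((smp ω ∩ s).card : ℝ) := by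
  have : smp ω ∩ s = s.filter (fun u => ω u = true) := by
    ext u; simp [smp, and_comm]
  rw [this, card_filter]
  unfold cnt
  push_cast
  rfl

lemma cnt_nonneg (s : Finset V) (ω : V → Bool) : 0 ≤ cnt s ω := by
  rw [cnt_eq]; exact Nat.cast_nonneg _

lemma dep_cnt (s : Finset V) : Dep s (cnt s) := by
  intro ω ω' h
  unfold cnt
  apply sum_congr rfl
  intro u hu
  rw [h u hu]

lemma E_ind {p : ℝ} (h0 : 0 ≤ p) (h1 : p ≤ 1) (v : V) :
    E (ws p) (fun ω : V → Bool => if ω v = true then (1 : ℝ) else 0) = p := by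
  rw [E_single (isProb_ws h0 h1) v (fun b => if b = true then (1 : ℝ) else 0)]
  simp [ws]

lemma E_cnt {p : ℝ} (h0 : 0 ≤ p) (h1 : p ≤ 1) (s : Finset V) :
    E (ws p) (cnt s) = p * (s.card : ℝ) := by
  have : cnt s = fun ω : V → Bool => ∑ u ∈ s, if ω u = true then (1 : ℝ) else 0 := rfl
  rw [this, E_sum, sum_congr rfl (fun u _ => E_ind h0 h1 u), sum_const, nsmul_eq_mul, mul_comm]

/-- product of counts over a list of sets -/
noncomputable def lp (Ss : List (Finset V)) (ω : V → Bool) : ℝ := (Ss.map (fun s => cnt s ω)).prod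

lemma lp_nonneg (Ss : List (Finset V)) (ω : V → Bool) : 0 ≤ lp Ss ω := by
  induction Ss with
  | nil => simp [lp]
  | cons s Ss ih =>
    unfold lp at ih ⊢
    rw [List.map_cons, List.prod_cons]
    exact mul_nonneg (cnt_nonneg s ω) ih

/-- the union of a list of sets -/
def lu (Ss : List (Finset V)) : Finset V := Ss.foldr (· ∪ ·) ∅

lemma mem_lu {Ss : List (Finset V)} {v : V} : v ∈ lu Ss ↔ ∃ s ∈ Ss, v ∈ s := by
  induction Ss with
  | nil => simp [lu]
  | cons s Ss ih =>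
    have : lu (s :: Ss) = s ∪ lu Ss := rfl
    rw [this, mem_union, ih]
    simp

lemma dep_lp (Ss : List (Finset V)) : Dep (lu Ss) (lp Ss) := by
  induction Ss with
  | nil => intro ω ω' _; simp [lp]
  | cons s Ss ih =>
    intro ω ω' h
    have e : ∀ ω, lp (s :: Ss) ω = cnt s ω * lp Ss ω := fun ω => by simp [lp]
    rw [e, e]
    have : lu (s :: Ss) = s ∪ lu Ss := rfl
    rw [this] at h
    rw [dep_cnt s ω ω' (fun v hv => h v (mem_union_left _ hv)),
      ih ω ω' (fun v hv => h v (mem_union_right _ hv))]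

lemma E_lp {p : ℝ} (h0 : 0 ≤ p) (h1 : p ≤ 1) (Ss : List (Finset V))
    (hp : Ss.Pairwise Disjoint) :
    E (ws p) (lp Ss) = (Ss.map (fun s => p * (s.card : ℝ))).prod := by
  induction Ss with
  | nil =>
    have : lp ([] : List (Finset V)) = fun _ => (1 : ℝ) := by funext ω; simp [lp]
    rw [this, E_const (isProb_ws h0 h1)]
    simp
  | cons s Ss ih =>
    have e : lp (s :: Ss) = fun ω => cnt s ω * lp Ss ω := by funext ω; simp [lp]
    rw [List.pairwise_cons] at hp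
    rw [e, E_mul (isProb_ws h0 h1) (dep_cnt s) (dep_lp Ss), E_cnt h0 h1, ih hp.2]
    · simp
    · rw [Finset.disjoint_left]
      intro v hv hv'
      rw [mem_lu] at hv'
      obtain ⟨s', hs', hv''⟩ := hv'
      exact (Finset.disjoint_left.mp (hp.1 s' hs')) hv hv''

lemma E_ch2_cnt {p : ℝ} (h0 : 0 ≤ p) (h1 : p ≤ 1) (s : Finset V) :
    E (ws p) (fun ω => ch2 (cnt s ω)) = p ^ 2 * ch2 (s.card : ℝ) := by
  have hw : IsProb (ws p : V → Bool → ℝ) := isProb_ws h0 h1
  induction s using Finset.induction_on with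
  | empty =>
    have : (fun ω : V → Bool => ch2 (cnt ∅ ω)) = fun _ => (0 : ℝ) := by
      funext ω; simp [cnt, ch2]
    rw [this, E_const hw]
    simp [ch2]
  | insert a s ha ih =>
    have e : (fun ω : V → Bool => ch2 (cnt (insert a s) ω))
        = fun ω => ch2 (cnt s ω) + cnt {a} ω * cnt s ω := by
      funext ω
      have h2 : cnt (insert a s) ω = cnt {a} ω + cnt s ω := by
        unfold cnt; rw [sum_insert ha, sum_singleton]
      have h3 : cnt {a} ω = 0 ∨ cnt {a} ω = 1 := by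
        unfold cnt; rw [sum_singleton]; split_ifs
        · exact Or.inr rfl
        · exact Or.inl rfl
      rw [h2]
      rcases h3 with h3 | h3
      · rw [h3]; simp
      · rw [h3]; unfold ch2; ring
    rw [e, E_add, ih, E_mul hw (dep_cnt {a}) (dep_cnt s) (by
      rw [disjoint_singleton_left]; exact ha), E_cnt h0 h1, E_cnt h0 h1, card_insert_of_notMem ha]
    unfold ch2
    push_cast
    simp only [card_singleton, Nat.cast_one]
    ring

lemma E_two_pow {p : ℝ} (h0 : 0 ≤ p) (h1 : p ≤ 1) (s : Finset V) :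
    E (ws p) (fun ω => (2 : ℝ) ^ (smp ω ∩ s).card) = (1 + p) ^ s.card := by
  have hw : IsProb (ws p : V → Bool → ℝ) := isProb_ws h0 h1
  have e : (fun ω : V → Bool => (2 : ℝ) ^ (smp ω ∩ s).card)
      = fun ω => ∏ u ∈ s, (1 + if ω u = true then (1 : ℝ) else 0) := by
    funext ω
    have h2 : smp ω ∩ s = s.filter (fun u => ω u = true) := by
      ext u; simp [smp, and_comm]
    rw [h2, ← prod_const, prod_filter]
    apply prod_congr rfl
    intro u _
    split_ifs <;> norm_num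
  rw [e, E_prod hw s (fun u => {u}) (fun u ω => 1 + if ω u = true then (1 : ℝ) else 0)]
  · rw [← prod_const]
    apply prod_congr rfl
    intro u _
    rw [E_add, E_const hw, E_ind h0 h1]
  · intro u _ ω ω' h
    simp only [h u (mem_singleton_self u)]
  · intro u _ v _ huv
    simpa using huv

end Sample

section Codeg

variable {V : Type*} [Fintype V] [DecidableEq V]

/-- linear space -/
def Lin (L : Finset (Finset V)) : Prop :=
  ∀ a ∈ L, ∀ b ∈ L, ∀ x y : V, x ≠ y → x ∈ a → y ∈ a → x ∈ b → y ∈ b → a = b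

/-- codegree sum -/
noncomputable def kap (L : Finset (Finset V)) (x y : V) : ℝ :=
  ∑ z, ∑ b ∈ L, ∑ c ∈ L,
    if (x ∈ c ∧ z ∈ c ∧ y ∈ b ∧ z ∈ b ∧ b ≠ c ∧ z ≠ x ∧ z ≠ y) then (b.card : ℝ) * c.card else 0

lemma kap_nonneg (L : Finset (Finset V)) (x y : V) : 0 ≤ kap L x y := by
  unfold kap
  apply sum_nonneg; intro z _
  apply sum_nonneg; intro b _
  apply sum_nonneg; intro c _
  split_ifs <;> positivity

lemma sum_le_one_of_unique {ι : Type*} (I : Finset ι) (P : ι → Prop) [DecidablePred P]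
    (h : ∀ i ∈ I, ∀ j ∈ I, P i → P j → i = j) (f : ℝ) (hf : 0 ≤ f) :
    (∑ i ∈ I, if P i then f else 0) ≤ f := by
  rw [← sum_filter, sum_const, nsmul_eq_mul]
  have h1 : (I.filter P).card ≤ 1 := by
    rw [card_le_one]
    intro i hi j hj
    rw [mem_filter] at hi hj
    exact h i hi.1 j hj.1 hi.2 hj.2
  have h2 : (((I.filter P).card : ℕ) : ℝ) ≤ 1 := by exact_mod_cast h1
  nlinarith

lemma sum_ite_mem_card (b : Finset V) (f : ℝ) : (∑ z, if z ∈ b then f else 0) = f * b.card := by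
  rw [← sum_filter, sum_const, nsmul_eq_mul, mul_comm]
  congr 2
  simp

lemma kap_half {L : Finset (Finset V)} (hL : Lin L) {B t : ℝ} (ht : 0 < t)
    (x y : V) (hB : ∑ l ∈ Lv L y, (l.card : ℝ) ^ 2 ≤ B) :
    (∑ z, ∑ b ∈ L, ∑ c ∈ L,
      if (x ∈ c ∧ z ∈ c ∧ y ∈ b ∧ z ∈ b ∧ b ≠ c ∧ z ≠ x ∧ z ≠ y) then t * (b.card : ℝ) else 0)
      ≤ t * B := by
  have h1 : ∀ z, ∀ b ∈ L, (∑ c ∈ L,
      if (x ∈ c ∧ z ∈ c ∧ y ∈ b ∧ z ∈ b ∧ b ≠ c ∧ z ≠ x ∧ z ≠ y) then t * (b.card : ℝ) else 0)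
      ≤ if z ∈ b then (if y ∈ b then t * (b.card : ℝ) else 0) else 0 := by
    intro z b _
    by_cases hzb : z ∈ b
    · by_cases hyb : y ∈ b
      · rw [if_pos hzb, if_pos hyb]
        apply sum_le_one_of_unique
        · intro c hc c' hc' h h'
          exact hL c hc c' hc' x z h.2.2.2.2.2.1.symm h.1 h.2.1 h'.1 h'.2.1
        · positivity
      · rw [if_pos hzb, if_neg hyb]
        apply le_of_eq
        apply sum_eq_zero
        intro c _
        rw [if_neg (fun h => hyb h.2.2.1)]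
    · rw [if_neg hzb]
      apply le_of_eq
      apply sum_eq_zero
      intro c _
      rw [if_neg (fun h => hzb h.2.2.2.1)]
  calc _ ≤ ∑ z, ∑ b ∈ L, (if z ∈ b then (if y ∈ b then t * (b.card : ℝ) else 0) else 0) :=
        sum_le_sum (fun z _ => sum_le_sum (fun b hb => h1 z b hb))
    _ = ∑ b ∈ L, ∑ z, (if z ∈ b then (if y ∈ b then t * (b.card : ℝ) else 0) else 0) := sum_comm
    _ = ∑ b ∈ L, (if y ∈ b then t * (b.card : ℝ) else 0) * b.card :=
        sum_congr rfl (fun b _ => sum_ite_mem_card b _)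
    _ = t * ∑ b ∈ Lv L y, (b.card : ℝ) ^ 2 := by
        unfold Lv
        rw [mul_sum, sum_filter]
        apply sum_congr rfl
        intro b _
        split_ifs
        · ring
        · ring
    _ ≤ t * B := mul_le_mul_of_nonneg_left hB ht.le

lemma kap_le {L : Finset (Finset V)} (hL : Lin L) {B t : ℝ} (ht : 0 < t) (hB0 : 0 ≤ B)
    (hB : ∀ v, ∑ l ∈ Lv L v, (l.card : ℝ) ^ 2 ≤ B) (x y : V) :
    kap L x y ≤ 2 * t * B + (B / t) ^ 2 := by
  classical
  have hsplit : ∀ z, ∀ b ∈ L, ∀ c ∈ L,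
      (if (x ∈ c ∧ z ∈ c ∧ y ∈ b ∧ z ∈ b ∧ b ≠ c ∧ z ≠ x ∧ z ≠ y) then (b.card : ℝ) * c.card
        else 0)
      ≤ (if (x ∈ c ∧ z ∈ c ∧ y ∈ b ∧ z ∈ b ∧ b ≠ c ∧ z ≠ x ∧ z ≠ y) then t * (b.card : ℝ) else 0)
      + (if (x ∈ c ∧ z ∈ c ∧ y ∈ b ∧ z ∈ b ∧ b ≠ c ∧ z ≠ x ∧ z ≠ y) then t * (c.card : ℝ) else 0)
      + (if (z ∈ b ∧ z ∈ c ∧ b ≠ c) then
          (if y ∈ b then (b.card : ℝ) ^ 2 / t else 0) * (if x ∈ c then (c.card : ℝ) ^ 2 / t else 0)
          else 0) := by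
    intro z b _ c _
    by_cases h : (x ∈ c ∧ z ∈ c ∧ y ∈ b ∧ z ∈ b ∧ b ≠ c ∧ z ≠ x ∧ z ≠ y)
    · rw [if_pos h, if_pos h, if_pos h, if_pos ⟨h.2.2.2.1, h.2.1, h.2.2.2.2.1⟩, if_pos h.2.2.1,
        if_pos h.1]
      have hb0 : (0 : ℝ) ≤ b.card := Nat.cast_nonneg _
      have hc0 : (0 : ℝ) ≤ c.card := Nat.cast_nonneg _
      have h3 : 0 ≤ (b.card : ℝ) ^ 2 / t * ((c.card : ℝ) ^ 2 / t) := by positivity
      by_cases hbt : (b.card : ℝ) ≤ t
      · nlinarith
      · by_cases hct : (c.card : ℝ) ≤ t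
        · nlinarith
        · push Not at hbt hct
          have h4 : (b.card : ℝ) ≤ (b.card : ℝ) ^ 2 / t := by
            rw [le_div_iff₀ ht]; nlinarith
          have h5 : (c.card : ℝ) ≤ (c.card : ℝ) ^ 2 / t := by
            rw [le_div_iff₀ ht]; nlinarith
          have h6 := mul_le_mul h4 h5 hc0 (by positivity)
          have h7 : 0 ≤ t * (b.card : ℝ) := by positivity
          have h8 : 0 ≤ t * (c.card : ℝ) := by positivity
          linarith
    · rw [if_neg h, if_neg h, if_neg h]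
      have : 0 ≤ (if (z ∈ b ∧ z ∈ c ∧ b ≠ c) then
          (if y ∈ b then (b.card : ℝ) ^ 2 / t else 0) * (if x ∈ c then (c.card : ℝ) ^ 2 / t else 0)
          else 0) := by
        split_ifs <;> positivity
      linarith
  have h1 : kap L x y ≤ (∑ z, ∑ b ∈ L, ∑ c ∈ L,
      (if (x ∈ c ∧ z ∈ c ∧ y ∈ b ∧ z ∈ b ∧ b ≠ c ∧ z ≠ x ∧ z ≠ y) then t * (b.card : ℝ) else 0))
      + (∑ z, ∑ b ∈ L, ∑ c ∈ L,
      (if (x ∈ c ∧ z ∈ c ∧ y ∈ b ∧ z ∈ b ∧ b ≠ c ∧ z ≠ x ∧ z ≠ y) then t * (c.card : ℝ) else 0))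
      + (∑ z, ∑ b ∈ L, ∑ c ∈ L, (if (z ∈ b ∧ z ∈ c ∧ b ≠ c) then
          (if y ∈ b then (b.card : ℝ) ^ 2 / t else 0) * (if x ∈ c then (c.card : ℝ) ^ 2 / t else 0)
          else 0)) := by
    rw [← sum_add_distrib, ← sum_add_distrib]
    unfold kap
    apply sum_le_sum
    intro z _
    rw [← sum_add_distrib, ← sum_add_distrib]
    apply sum_le_sum
    intro b hb
    rw [← sum_add_distrib, ← sum_add_distrib]
    apply sum_le_sum
    intro c hc
    exact hsplit z b hb c hc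
  have h2 := kap_half hL ht x y (hB y)
  have h3 : (∑ z, ∑ b ∈ L, ∑ c ∈ L,
      (if (x ∈ c ∧ z ∈ c ∧ y ∈ b ∧ z ∈ b ∧ b ≠ c ∧ z ≠ x ∧ z ≠ y) then t * (c.card : ℝ) else 0))
      ≤ t * B := by
    refine le_trans (le_of_eq ?_) (kap_half hL ht y x (hB x))
    apply sum_congr rfl
    intro z _
    rw [sum_comm]
    apply sum_congr rfl
    intro c _
    apply sum_congr rfl
    intro b _
    apply if_congr _ rfl rfl
    constructor
    · rintro ⟨a1, a2, a3, a4, a5, a6, a7⟩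
      exact ⟨a3, a4, a1, a2, a5.symm, a7, a6⟩
    · rintro ⟨a1, a2, a3, a4, a5, a6, a7⟩
      exact ⟨a3, a4, a1, a2, a5.symm, a7, a6⟩
  have h4 : (∑ z, ∑ b ∈ L, ∑ c ∈ L, (if (z ∈ b ∧ z ∈ c ∧ b ≠ c) then
          (if y ∈ b then (b.card : ℝ) ^ 2 / t else 0) * (if x ∈ c then (c.card : ℝ) ^ 2 / t else 0)
          else 0)) ≤ (B / t) ^ 2 := by
    have hswap : (∑ z : V, ∑ b ∈ L, ∑ c ∈ L, (if (z ∈ b ∧ z ∈ c ∧ b ≠ c) then
          (if y ∈ b then (b.card : ℝ) ^ 2 / t else 0) * (if x ∈ c then (c.card : ℝ) ^ 2 / t else 0)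
          else 0)) = ∑ b ∈ L, ∑ c ∈ L, ∑ z : V, (if (z ∈ b ∧ z ∈ c ∧ b ≠ c) then
          (if y ∈ b then (b.card : ℝ) ^ 2 / t else 0) * (if x ∈ c then (c.card : ℝ) ^ 2 / t else 0)
          else 0) := by
      rw [sum_comm]
      apply sum_congr rfl
      intro b _
      rw [sum_comm]
    rw [hswap]
    have h5 : ∀ b ∈ L, ∀ c ∈ L, (∑ z : V, (if (z ∈ b ∧ z ∈ c ∧ b ≠ c) then
          (if y ∈ b then (b.card : ℝ) ^ 2 / t else 0) * (if x ∈ c then (c.card : ℝ) ^ 2 / t else 0)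
          else 0)) ≤
          (if y ∈ b then (b.card : ℝ) ^ 2 / t else 0) *
            (if x ∈ c then (c.card : ℝ) ^ 2 / t else 0) := by
      intro b hb c hc
      apply sum_le_one_of_unique
      · intro z _ z' _ h h'
        by_contra hne
        exact h.2.2 (hL b hb c hc z z' hne h.1 h'.1 h.2.1 h'.2.1)
      · split_ifs <;> positivity
    calc _ ≤ ∑ b ∈ L, ∑ c ∈ L, (if y ∈ b then (b.card : ℝ) ^ 2 / t else 0) *
            (if x ∈ c then (c.card : ℝ) ^ 2 / t else 0) :=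
          sum_le_sum (fun b hb => sum_le_sum (fun c hc => h5 b hb c hc))
      _ = (∑ b ∈ L, (if y ∈ b then (b.card : ℝ) ^ 2 / t else 0)) *
            (∑ c ∈ L, (if x ∈ c then (c.card : ℝ) ^ 2 / t else 0)) := by
          rw [sum_mul_sum]
      _ = ((∑ b ∈ Lv L y, (b.card : ℝ) ^ 2) / t) * ((∑ c ∈ Lv L x, (c.card : ℝ) ^ 2) / t) := by
          unfold Lv
          rw [sum_div, sum_div, sum_filter, sum_filter]
      _ ≤ (B / t) * (B / t) := by
          apply mul_le_mul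
          · exact div_le_div_of_nonneg_right (hB y) ht.le
          · exact div_le_div_of_nonneg_right (hB x) ht.le
          · exact div_nonneg (sum_nonneg (fun _ _ => sq_nonneg _)) ht.le
          · exact div_nonneg hB0 ht.le
      _ = (B / t) ^ 2 := by ring
  linarith

/-- total codegree -/
lemma sum_kap_le {L : Finset (Finset V)} {B : ℝ} (hB0 : 0 ≤ B)
    (hB : ∀ v, ∑ l ∈ Lv L v, (l.card : ℝ) ^ 2 ≤ B) :
    ∑ x, ∑ y, kap L x y ≤ (Fintype.card V : ℝ) * B ^ 2 := by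
  classical
  unfold kap
  have h1 : (∑ x : V, ∑ y : V, ∑ z : V, ∑ b ∈ L, ∑ c ∈ L,
    if (x ∈ c ∧ z ∈ c ∧ y ∈ b ∧ z ∈ b ∧ b ≠ c ∧ z ≠ x ∧ z ≠ y) then (b.card : ℝ) * c.card else 0)
    ≤ ∑ x : V, ∑ y : V, ∑ z : V, ∑ b ∈ L, ∑ c ∈ L,
      (if z ∈ b then (if y ∈ b then (b.card : ℝ) else 0) else 0) *
      (if z ∈ c then (if x ∈ c then (c.card : ℝ) else 0) else 0) := by
    apply sum_le_sum; intro x _
    apply sum_le_sum; intro y _
    apply sum_le_sum; intro z _
    apply sum_le_sum; intro b _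
    apply sum_le_sum; intro c _
    by_cases h : (x ∈ c ∧ z ∈ c ∧ y ∈ b ∧ z ∈ b ∧ b ≠ c ∧ z ≠ x ∧ z ≠ y)
    · rw [if_pos h, if_pos h.2.2.2.1, if_pos h.2.2.1, if_pos h.2.1, if_pos h.1]
    · rw [if_neg h]
      split_ifs <;> positivity
  refine h1.trans ?_
  have h2 : (∑ x : V, ∑ y : V, ∑ z : V, ∑ b ∈ L, ∑ c ∈ L,
      (if z ∈ b then (if y ∈ b then (b.card : ℝ) else 0) else 0) *
      (if z ∈ c then (if x ∈ c then (c.card : ℝ) else 0) else 0))
      = ∑ z : V, (∑ y : V, ∑ b ∈ L, (if z ∈ b then (if y ∈ b then (b.card : ℝ) else 0) else 0)) *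
        (∑ x : V, ∑ c ∈ L, (if z ∈ c then (if x ∈ c then (c.card : ℝ) else 0) else 0)) := by
    have e1 : ∀ x y : V, (∑ z : V, ∑ b ∈ L, ∑ c ∈ L,
        (if z ∈ b then (if y ∈ b then (b.card : ℝ) else 0) else 0) *
        (if z ∈ c then (if x ∈ c then (c.card : ℝ) else 0) else 0))
        = ∑ z : V, (∑ b ∈ L, (if z ∈ b then (if y ∈ b then (b.card : ℝ) else 0) else 0)) *
          (∑ c ∈ L, (if z ∈ c then (if x ∈ c then (c.card : ℝ) else 0) else 0)) := by
      intro x y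
      apply sum_congr rfl
      intro z _
      rw [sum_mul_sum]
    have e2 : ∀ x : V, (∑ y : V, ∑ z : V, (∑ b ∈ L, (if z ∈ b then (if y ∈ b then (b.card : ℝ) else 0) else 0)) *
          (∑ c ∈ L, (if z ∈ c then (if x ∈ c then (c.card : ℝ) else 0) else 0)))
        = ∑ z : V, (∑ y : V, ∑ b ∈ L, (if z ∈ b then (if y ∈ b then (b.card : ℝ) else 0) else 0)) *
          (∑ c ∈ L, (if z ∈ c then (if x ∈ c then (c.card : ℝ) else 0) else 0)) := by
      intro x
      rw [sum_comm]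
      apply sum_congr rfl
      intro z _
      rw [sum_mul]
    calc _ = ∑ x : V, ∑ y : V, ∑ z : V, (∑ b ∈ L, (if z ∈ b then (if y ∈ b then (b.card : ℝ) else 0) else 0)) *
          (∑ c ∈ L, (if z ∈ c then (if x ∈ c then (c.card : ℝ) else 0) else 0)) :=
          sum_congr rfl (fun x _ => sum_congr rfl (fun y _ => e1 x y))
      _ = ∑ x : V, ∑ z : V, (∑ y : V, ∑ b ∈ L, (if z ∈ b then (if y ∈ b then (b.card : ℝ) else 0) else 0)) *
          (∑ c ∈ L, (if z ∈ c then (if x ∈ c then (c.card : ℝ) else 0) else 0)) :=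
          sum_congr rfl (fun x _ => e2 x)
      _ = _ := by
          rw [sum_comm]
          apply sum_congr rfl
          intro z _
          rw [mul_sum]
  rw [h2]
  have h3 : ∀ z : V, (∑ y : V, ∑ b ∈ L, (if z ∈ b then (if y ∈ b then (b.card : ℝ) else 0) else 0))
      ≤ B := by
    intro z
    rw [sum_comm]
    refine le_trans (le_of_eq ?_) (hB z)
    unfold Lv
    rw [sum_filter]
    apply sum_congr rfl
    intro b _
    split_ifs with hz
    · rw [sum_ite_mem_card]; ring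
    · simp
  have h4 : ∀ z : V, 0 ≤ (∑ y : V, ∑ b ∈ L, (if z ∈ b then (if y ∈ b then (b.card : ℝ) else 0) else 0)) := by
    intro z
    apply sum_nonneg; intro y _
    apply sum_nonneg; intro b _
    split_ifs <;> positivity
  calc _ ≤ ∑ z : V, B * B := sum_le_sum (fun z _ => mul_le_mul (h3 z) (h3 z) (h4 z) hB0)
    _ = (Fintype.card V : ℝ) * B ^ 2 := by
        rw [sum_const, nsmul_eq_mul, card_univ]; ring

end Codeg

end Pool.Agent.Lib.MP_0c755a_co
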