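import Pool.Agent.Lib.MP_0c755a_co.Sample1

/-!
Counting triangles and four-cycles in the sample.
-/

set_option linter.unusedSectionVars false
set_option linter.unusedVariables false

namespace Pool.Agent.Lib.MP_0c755a_co

open Finset Real

section Cycles

variable {V : Type*} [Fintype V] [DecidableEq V]

/-- triangle condition -/
def cond3 (x y z : V) (a b c : Finset V) : Prop :=
  x ≠ y ∧ y ≠ z ∧ z ≠ x ∧ x ∈ a ∧ y ∈ a ∧ y ∈ b ∧ z ∈ b ∧ z ∈ c ∧ x ∈ c ∧ a ≠ b ∧ b ≠ c ∧ c ≠ a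

instance (x y z : V) (a b c : Finset V) : Decidable (cond3 x y z a b c) := by
  unfold cond3; infer_instance

/-- four-cycle condition -/
def cond4 (x y z t : V) (a b c d : Finset V) : Prop :=
  x ≠ y ∧ y ≠ z ∧ z ≠ t ∧ t ≠ x ∧ x ≠ z ∧ y ≠ t ∧ x ∈ a ∧ y ∈ a ∧ y ∈ b ∧ z ∈ b ∧ z ∈ c ∧ t ∈ c ∧
    t ∈ d ∧ x ∈ d ∧ a ≠ b ∧ b ≠ c ∧ c ≠ d ∧ d ≠ a

instance (x y z t : V) (a b c d : Finset V) : Decidable (cond4 x y z t a b c d) := by
  unfold cond4; infer_instance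

/-- triangles -/
def I3 (L : Finset (Finset V)) : Finset ((V × V × V) × (Finset V × Finset V × Finset V)) :=
  ((univ : Finset (V × V × V)) ×ˢ (L ×ˢ L ×ˢ L)).filter
    (fun i => cond3 i.1.1 i.1.2.1 i.1.2.2 i.2.1 i.2.2.1 i.2.2.2)

/-- four-cycles -/
def I4 (L : Finset (Finset V)) :
    Finset ((V × V × V × V) × (Finset V × Finset V × Finset V × Finset V)) :=
  ((univ : Finset (V × V × V × V)) ×ˢ (L ×ˢ L ×ˢ L ×ˢ L)).filter
    (fun i => cond4 i.1.1 i.1.2.1 i.1.2.2.1 i.1.2.2.2 i.2.1 i.2.2.1 i.2.2.2.1 i.2.2.2.2)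

/-- witness sets for a triangle -/
def Ss3 (i : (V × V × V) × (Finset V × Finset V × Finset V)) : List (Finset V) :=
  [{i.1.1}, {i.1.2.1}, {i.1.2.2}, (i.2.1.erase i.1.1).erase i.1.2.1,
    (i.2.2.1.erase i.1.2.1).erase i.1.2.2, (i.2.2.2.erase i.1.2.2).erase i.1.1]

/-- witness sets for a four-cycle -/
def Ss4 (i : (V × V × V × V) × (Finset V × Finset V × Finset V × Finset V)) :
    List (Finset V) :=
  [{i.1.1}, {i.1.2.1}, {i.1.2.2.1}, {i.1.2.2.2},
    ((i.2.1 \ i.2.2.2.1).erase i.1.1).erase i.1.2.1,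
    ((i.2.2.1 \ i.2.2.2.2).erase i.1.2.1).erase i.1.2.2.1,
    ((i.2.2.2.1 \ i.2.1).erase i.1.2.2.1).erase i.1.2.2.2,
    ((i.2.2.2.2 \ i.2.2.1).erase i.1.2.2.2).erase i.1.1]

lemma uniq_of_lin {L : Finset (Finset V)} (hL : Lin L) {a b : Finset V} (ha : a ∈ L) (hb : b ∈ L)
    (hab : a ≠ b) {y : V} (hya : y ∈ a) (hyb : y ∈ b) : ∀ u, u ∈ a → u ∈ b → u = y := by
  intro u hua hub
  by_contra hne
  exact hab (hL a ha b hb u y hne hua hya hub hyb)

lemma pw3 {L : Finset (Finset V)} (hL : Lin L) {i} (hi : i ∈ I3 L) :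
    (Ss3 i).Pairwise Disjoint := by
  obtain ⟨⟨x, y, z⟩, a, b, c⟩ := i
  unfold I3 at hi
  rw [mem_filter] at hi
  obtain ⟨hm, h1, h2, h3, h4, h5, h6, h7, h8, h9, h10, h11, h12⟩ := hi
  simp only [mem_product, mem_univ, true_and] at hm
  obtain ⟨ha, hb, hc⟩ := hm
  simp only at h1 h2 h3 h4 h5 h6 h7 h8 h9 h10 h11 h12
  have hab := uniq_of_lin hL ha hb h10 h5 h6
  have hbc := uniq_of_lin hL hb hc h11 h7 h8
  have hca := uniq_of_lin hL hc ha h12 h9 h4
  have e1 : x ∉ b := fun h => h1 (hab x h4 h)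
  have e2 : y ∉ c := fun h => h2 (hbc y h6 h)
  have e3 : z ∉ a := fun h => h3 (hca z h8 h)
  unfold Ss3
  simp only [List.pairwise_cons, List.mem_cons, List.not_mem_nil, or_false, forall_eq_or_imp,
    forall_eq, List.Pairwise.nil, and_true, IsEmpty.forall_iff, implies_true]
  refine ⟨⟨?_, ?_, ?_, ?_, ?_⟩, ⟨?_, ?_, ?_, ?_⟩, ⟨?_, ?_, ?_⟩, ⟨?_, ?_⟩, ?_⟩ <;>
  · rw [Finset.disjoint_left]
    intro u hu hu'
    simp only [mem_singleton, mem_erase] at hu hu'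
    grind

lemma pw4 {L : Finset (Finset V)} (hL : Lin L) {i} (hi : i ∈ I4 L) :
    (Ss4 i).Pairwise Disjoint := by
  obtain ⟨⟨x, y, z, t⟩, a, b, c, d⟩ := i
  unfold I4 at hi
  rw [mem_filter] at hi
  obtain ⟨hm, h1, h2, h3, h4, h5, h6, h7, h8, h9, h10, h11, h12, h13, h14, h15, h16, h17, h18⟩ := hi
  simp only [mem_product, mem_univ, true_and] at hm
  obtain ⟨ha, hb, hc, hd⟩ := hm
  simp only at h1 h2 h3 h4 h5 h6 h7 h8 h9 h10 h11 h12 h13 h14 h15 h16 h17 h18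
  have hab := uniq_of_lin hL ha hb h15 h8 h9
  have hbc := uniq_of_lin hL hb hc h16 h10 h11
  have hcd := uniq_of_lin hL hc hd h17 h12 h13
  have hda := uniq_of_lin hL hd ha h18 h14 h7
  have e1 : x ∉ b := fun h => h1 (hab x h7 h)
  have e2 : x ∉ c := fun h => h4 (hcd x h h14).symm
  have e3 : y ∉ c := fun h => h2 (hbc y h9 h)
  have e4 : y ∉ d := fun h => h1 (hda y h h8).symm
  have e5 : z ∉ a := fun h => h2 (hab z h h10).symm
  have e6 : z ∉ d := fun h => h3 (hcd z h11 h)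
  have e7 : t ∉ a := fun h => h4 (hda t h13 h)
  have e8 : t ∉ b := fun h => h3 (hbc t h h12).symm
  unfold Ss4
  simp only [List.pairwise_cons, List.mem_cons, List.not_mem_nil, or_false, forall_eq_or_imp,
    forall_eq, List.Pairwise.nil, and_true, IsEmpty.forall_iff, implies_true]
  refine ⟨⟨?_, ?_, ?_, ?_, ?_, ?_, ?_⟩, ⟨?_, ?_, ?_, ?_, ?_, ?_⟩, ⟨?_, ?_, ?_, ?_, ?_⟩,
    ⟨?_, ?_, ?_, ?_⟩, ⟨?_, ?_, ?_⟩, ⟨?_, ?_⟩, ?_⟩ <;>
  · rw [Finset.disjoint_left]
    intro u hu hu'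
    simp only [mem_singleton, mem_erase, mem_sdiff] at hu hu'
    grind

lemma lp_ge_one {Ss : List (Finset V)} {ω : V → Bool} (h : lp Ss ω ≠ 0) : 1 ≤ lp Ss ω := by
  induction Ss with
  | nil => simp [lp]
  | cons s Ss ih =>
    have e : lp (s :: Ss) ω = cnt s ω * lp Ss ω := by simp [lp]
    rw [e] at h ⊢
    have h1 : cnt s ω ≠ 0 := left_ne_zero_of_mul h
    have h2 : lp Ss ω ≠ 0 := right_ne_zero_of_mul h
    have h3 : 1 ≤ cnt s ω := by
      rw [cnt_eq] at h1 ⊢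
      have : (smp ω ∩ s).card ≠ 0 := by
        intro h0; rw [h0] at h1; simp at h1
      exact_mod_cast Nat.one_le_iff_ne_zero.mpr this
    have h4 := ih h2
    nlinarith

lemma lp_pos_of {Ss : List (Finset V)} {ω : V → Bool} (h : ∀ s ∈ Ss, (smp ω ∩ s).Nonempty) :
    lp Ss ω ≠ 0 := by
  induction Ss with
  | nil => simp [lp]
  | cons s Ss ih =>
    have e : lp (s :: Ss) ω = cnt s ω * lp Ss ω := by simp [lp]
    rw [e]
    apply mul_ne_zero
    · rw [cnt_eq]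
      have := h s (List.mem_cons_self ..)
      have := card_pos.mpr this
      positivity
    · exact ih (fun s' hs' => h s' (List.mem_cons_of_mem _ hs'))

lemma card_erase2_le (a : Finset V) (x y : V) : (((a.erase x).erase y).card : ℝ) ≤ a.card := by
  exact_mod_cast card_le_card ((erase_subset _ _).trans (erase_subset _ _))

lemma card_sdiff_erase2_le (a c : Finset V) (x y : V) :
    ((((a \ c).erase x).erase y).card : ℝ) ≤ a.card := by
  exact_mod_cast card_le_card ((erase_subset _ _).trans ((erase_subset _ _).trans sdiff_subset))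

lemma sum_mem2_le {L : Finset (Finset V)} (x : V) {B : ℝ}
    (hB : ∑ l ∈ Lv L x, (l.card : ℝ) ^ 2 ≤ B) :
    ∑ y, ∑ a ∈ L, (if (x ∈ a ∧ y ∈ a) then (a.card : ℝ) else 0) ≤ B := by
  rw [sum_comm]
  refine le_trans (le_of_eq ?_) hB
  unfold Lv
  rw [sum_filter]
  apply sum_congr rfl
  intro a _
  by_cases hx : x ∈ a
  · rw [if_pos hx]
    have : ∀ y, (if (x ∈ a ∧ y ∈ a) then (a.card : ℝ) else 0) = if y ∈ a then (a.card : ℝ) else 0 := by
      intro y
      apply if_congr _ rfl rfl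
      tauto
    rw [sum_congr rfl (fun y _ => this y), sum_ite_mem_card]; ring
  · rw [if_neg hx]
    apply sum_eq_zero
    intro y _
    rw [if_neg (fun h => hx h.1)]

/-- weighted count of triangles -/
lemma sum_I3_le {L : Finset (Finset V)} {B K : ℝ} (hK : ∀ x y, kap L x y ≤ K) (hK0 : 0 ≤ K)
    (hB : ∀ v, ∑ l ∈ Lv L v, (l.card : ℝ) ^ 2 ≤ B) :
    ∑ i ∈ I3 L, ((i.2.1.card : ℝ) * i.2.2.1.card * i.2.2.2.card)
      ≤ K * ((Fintype.card V : ℝ) * B) := by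
  unfold I3
  rw [sum_filter, sum_product, Fintype.sum_prod_type]
  have h1 : ∀ x : V, (∑ yz : V × V, ∑ abc ∈ L ×ˢ L ×ˢ L,
      if cond3 x yz.1 yz.2 abc.1 abc.2.1 abc.2.2 then
        (abc.1.card : ℝ) * abc.2.1.card * abc.2.2.card else 0)
      ≤ K * B := by
    intro x
    rw [Fintype.sum_prod_type]
    have h2 : ∀ y : V, (∑ z : V, ∑ abc ∈ L ×ˢ L ×ˢ L,
      if cond3 x y z abc.1 abc.2.1 abc.2.2 then
        (abc.1.card : ℝ) * abc.2.1.card * abc.2.2.card else 0)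
        ≤ (∑ a ∈ L, (if (x ∈ a ∧ y ∈ a) then (a.card : ℝ) else 0)) * kap L x y := by
      intro y
      unfold kap
      rw [mul_sum]
      apply sum_le_sum
      intro z _
      rw [sum_product, sum_mul]
      apply sum_le_sum
      intro a _
      rw [sum_product, mul_sum]
      apply sum_le_sum
      intro b _
      rw [mul_sum]
      apply sum_le_sum
      intro c _
      by_cases h : cond3 x y z a b c
      · simp only [if_pos h]
        obtain ⟨h1, h2, h3, h4, h5, h6, h7, h8, h9, h10, h11, h12⟩ := h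
        rw [if_pos ⟨h4, h5⟩, if_pos ⟨h9, h8, h6, h7, h11, h3, h2.symm⟩]
        apply le_of_eq; ring
      · simp only [if_neg h]
        split_ifs <;> positivity
    calc _ ≤ ∑ y : V, (∑ a ∈ L, (if (x ∈ a ∧ y ∈ a) then (a.card : ℝ) else 0)) * kap L x y :=
          sum_le_sum (fun y _ => h2 y)
      _ ≤ ∑ y : V, (∑ a ∈ L, (if (x ∈ a ∧ y ∈ a) then (a.card : ℝ) else 0)) * K := by
          apply sum_le_sum
          intro y _
          apply mul_le_mul_of_nonneg_left (hK x y)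
          apply sum_nonneg
          intro a _
          split_ifs <;> positivity
      _ = K * ∑ y : V, (∑ a ∈ L, (if (x ∈ a ∧ y ∈ a) then (a.card : ℝ) else 0)) := by
          rw [← sum_mul]; ring
      _ ≤ K * B := mul_le_mul_of_nonneg_left (sum_mem2_le x (hB x)) hK0
  calc _ ≤ ∑ x : V, K * B := sum_le_sum (fun x _ => h1 x)
    _ = K * ((Fintype.card V : ℝ) * B) := by
        rw [sum_const, nsmul_eq_mul, card_univ]; ring

/-- weighted count of four-cycles -/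
lemma sum_I4_le {L : Finset (Finset V)} {B K : ℝ} (hK : ∀ x y, kap L x y ≤ K) (hK0 : 0 ≤ K)
    (hB0 : 0 ≤ B) (hB : ∀ v, ∑ l ∈ Lv L v, (l.card : ℝ) ^ 2 ≤ B) :
    ∑ i ∈ I4 L, ((i.2.1.card : ℝ) * i.2.2.1.card * (i.2.2.2.1.card * i.2.2.2.2.card))
      ≤ K * ((Fintype.card V : ℝ) * B ^ 2) := by
  unfold I4
  rw [sum_filter, sum_product, Fintype.sum_prod_type]
  have h1 : ∀ x : V, (∑ yzt : V × V × V, ∑ abc ∈ L ×ˢ L ×ˢ L ×ˢ L,
      if cond4 x yzt.1 yzt.2.1 yzt.2.2 abc.1 abc.2.1 abc.2.2.1 abc.2.2.2 then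
        (abc.1.card : ℝ) * abc.2.1.card * (abc.2.2.1.card * abc.2.2.2.card) else 0)
      ≤ ∑ z : V, kap L x z * kap L x z := by
    intro x
    rw [Fintype.sum_prod_type]
    have e1 : (∑ y : V, ∑ zt : V × V, ∑ abc ∈ L ×ˢ L ×ˢ L ×ˢ L,
      if cond4 x y zt.1 zt.2 abc.1 abc.2.1 abc.2.2.1 abc.2.2.2 then
        (abc.1.card : ℝ) * abc.2.1.card * (abc.2.2.1.card * abc.2.2.2.card) else 0)
        = ∑ z : V, ∑ y : V, ∑ t : V, ∑ abc ∈ L ×ˢ L ×ˢ L ×ˢ L,
      if cond4 x y z t abc.1 abc.2.1 abc.2.2.1 abc.2.2.2 then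
        (abc.1.card : ℝ) * abc.2.1.card * (abc.2.2.1.card * abc.2.2.2.card) else 0 := by
      rw [sum_comm]
      rw [Fintype.sum_prod_type]
      apply sum_congr rfl
      intro z _
      rw [sum_comm]
    rw [e1]
    apply sum_le_sum
    intro z _
    -- product form
    have e2 : kap L x z * kap L x z
        = ∑ y : V, ∑ t : V, ∑ a ∈ L, ∑ b ∈ L, ∑ c ∈ L, ∑ d ∈ L,
          (if (x ∈ a ∧ y ∈ a ∧ z ∈ b ∧ y ∈ b ∧ b ≠ a ∧ y ≠ x ∧ y ≠ z) then
            (b.card : ℝ) * a.card else 0) *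
          (if (x ∈ d ∧ t ∈ d ∧ z ∈ c ∧ t ∈ c ∧ c ≠ d ∧ t ≠ x ∧ t ≠ z) then
            (c.card : ℝ) * d.card else 0) := by
      have k1 : kap L x z = ∑ y : V, ∑ a ∈ L, ∑ b ∈ L,
          (if (x ∈ a ∧ y ∈ a ∧ z ∈ b ∧ y ∈ b ∧ b ≠ a ∧ y ≠ x ∧ y ≠ z) then
            (b.card : ℝ) * a.card else 0) := by
        unfold kap
        apply sum_congr rfl
        intro y _
        rw [sum_comm]
      have k2 : kap L x z = ∑ t : V, ∑ c ∈ L, ∑ d ∈ L,
          (if (x ∈ d ∧ t ∈ d ∧ z ∈ c ∧ t ∈ c ∧ c ≠ d ∧ t ≠ x ∧ t ≠ z) then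
            (c.card : ℝ) * d.card else 0) := rfl
      calc kap L x z * kap L x z = (∑ y : V, ∑ a ∈ L, ∑ b ∈ L,
          (if (x ∈ a ∧ y ∈ a ∧ z ∈ b ∧ y ∈ b ∧ b ≠ a ∧ y ≠ x ∧ y ≠ z) then
            (b.card : ℝ) * a.card else 0)) * (∑ t : V, ∑ c ∈ L, ∑ d ∈ L,
          (if (x ∈ d ∧ t ∈ d ∧ z ∈ c ∧ t ∈ c ∧ c ≠ d ∧ t ≠ x ∧ t ≠ z) then
            (c.card : ℝ) * d.card else 0)) := by rw [← k1, ← k2]
        _ = _ := by
          rw [sum_mul_sum]
          apply sum_congr rfl; intro y _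
          apply sum_congr rfl; intro t _
          rw [sum_mul]
          apply sum_congr rfl; intro a _
          rw [sum_mul]
          apply sum_congr rfl; intro b _
          rw [mul_sum]
          apply sum_congr rfl; intro c _
          rw [mul_sum]
    rw [e2]
    apply sum_le_sum; intro y _
    apply sum_le_sum; intro t _
    rw [sum_product]
    apply sum_le_sum; intro a _
    rw [sum_product]
    apply sum_le_sum; intro b _
    rw [sum_product]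
    apply sum_le_sum; intro c _
    apply sum_le_sum; intro d _
    by_cases h : cond4 x y z t a b c d
    · simp only [if_pos h]
      obtain ⟨h1, h2, h3, h4, h5, h6, h7, h8, h9, h10, h11, h12, h13, h14, h15, h16, h17, h18⟩ := h
      rw [if_pos ⟨h7, h8, h10, h9, h15.symm, h1.symm, h2⟩,
        if_pos ⟨h14, h13, h11, h12, h17, h4, h3.symm⟩]
      apply le_of_eq; ring
    · simp only [if_neg h]
      split_ifs <;> positivity
  calc _ ≤ ∑ x : V, ∑ z : V, kap L x z * kap L x z := sum_le_sum (fun x _ => h1 x)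
    _ ≤ ∑ x : V, ∑ z : V, K * kap L x z :=
        sum_le_sum (fun x _ => sum_le_sum (fun z _ =>
          mul_le_mul_of_nonneg_right (hK x z) (kap_nonneg L x z)))
    _ = K * ∑ x : V, ∑ z : V, kap L x z := by
        rw [mul_sum]
        apply sum_congr rfl; intro x _
        rw [mul_sum]
    _ ≤ K * ((Fintype.card V : ℝ) * B ^ 2) :=
        mul_le_mul_of_nonneg_left (sum_kap_le hB0 hB) hK0

/-- expected number of triangles -/
lemma E_X3_le {L : Finset (Finset V)} (hL : Lin L) {B K p : ℝ} (hp0 : 0 ≤ p) (hp1 : p ≤ 1)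
    (hK : ∀ x y, kap L x y ≤ K) (hK0 : 0 ≤ K)
    (hB : ∀ v, ∑ l ∈ Lv L v, (l.card : ℝ) ^ 2 ≤ B) :
    E (ws p) (fun ω => ∑ i ∈ I3 L, lp (Ss3 i) ω) ≤ p ^ 6 * (K * ((Fintype.card V : ℝ) * B)) := by
  rw [E_sum]
  have h1 : ∀ i ∈ I3 L, E (ws p) (lp (Ss3 i))
      ≤ p ^ 6 * ((i.2.1.card : ℝ) * i.2.2.1.card * i.2.2.2.card) := by
    intro i hi
    rw [E_lp hp0 hp1 _ (pw3 hL hi)]
    unfold Ss3
    simp only [List.map_cons, List.map_nil, List.prod_cons, List.prod_nil, card_singleton,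
      Nat.cast_one, mul_one]
    have h2 := card_erase2_le i.2.1 i.1.1 i.1.2.1
    have h3 := card_erase2_le i.2.2.1 i.1.2.1 i.1.2.2
    have h4 := card_erase2_le i.2.2.2 i.1.2.2 i.1.1
    have h5 := mul_le_mul (mul_le_mul h2 h3 (Nat.cast_nonneg _) (Nat.cast_nonneg _)) h4
      (Nat.cast_nonneg _) (by positivity)
    have h6 := mul_le_mul_of_nonneg_left h5 (show 0 ≤ p ^ 6 by positivity)
    refine le_trans (le_of_eq ?_) h6
    ring
  refine (sum_le_sum h1).trans ?_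
  rw [← mul_sum]
  exact mul_le_mul_of_nonneg_left (sum_I3_le hK hK0 hB) (by positivity)

/-- expected number of four-cycles -/
lemma E_X4_le {L : Finset (Finset V)} (hL : Lin L) {B K p : ℝ} (hp0 : 0 ≤ p) (hp1 : p ≤ 1)
    (hK : ∀ x y, kap L x y ≤ K) (hK0 : 0 ≤ K) (hB0 : 0 ≤ B)
    (hB : ∀ v, ∑ l ∈ Lv L v, (l.card : ℝ) ^ 2 ≤ B) :
    E (ws p) (fun ω => ∑ i ∈ I4 L, lp (Ss4 i) ω)
      ≤ p ^ 8 * (K * ((Fintype.card V : ℝ) * B ^ 2)) := by
  rw [E_sum]
  have h1 : ∀ i ∈ I4 L, E (ws p) (lp (Ss4 i))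
      ≤ p ^ 8 * ((i.2.1.card : ℝ) * i.2.2.1.card * (i.2.2.2.1.card * i.2.2.2.2.card)) := by
    intro i hi
    rw [E_lp hp0 hp1 _ (pw4 hL hi)]
    unfold Ss4
    simp only [List.map_cons, List.map_nil, List.prod_cons, List.prod_nil, card_singleton,
      Nat.cast_one, mul_one]
    have h2 := card_sdiff_erase2_le i.2.1 i.2.2.2.1 i.1.1 i.1.2.1
    have h3 := card_sdiff_erase2_le i.2.2.1 i.2.2.2.2 i.1.2.1 i.1.2.2.1
    have h4 := card_sdiff_erase2_le i.2.2.2.1 i.2.1 i.1.2.2.1 i.1.2.2.2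
    have h4' := card_sdiff_erase2_le i.2.2.2.2 i.2.2.1 i.1.2.2.2 i.1.1
    have h5 := mul_le_mul (mul_le_mul h2 h3 (Nat.cast_nonneg _) (Nat.cast_nonneg _))
      (mul_le_mul h4 h4' (Nat.cast_nonneg _) (Nat.cast_nonneg _))
      (mul_nonneg (Nat.cast_nonneg _) (Nat.cast_nonneg _)) (by positivity)
    have h6 := mul_le_mul_of_nonneg_left h5 (show 0 ≤ p ^ 8 by positivity)
    refine le_trans (le_of_eq ?_) h6
    ring
  refine (sum_le_sum h1).trans ?_
  rw [← mul_sum]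
  exact mul_le_mul_of_nonneg_left (sum_I4_le hK hK0 hB0 hB) (by positivity)

end Cycles

end Pool.Agent.Lib.MP_0c755a_co
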