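import Pool.Agent.Lib.MP_0c755a_co.Sample2

/-!
Extracting a large girth five subsystem.
-/

set_option linter.unusedSectionVars false
set_option linter.unusedVariables false

namespace Pool.Agent.Lib.MP_0c755a_co

open Finset Real

section Extract

variable {V : Type*} [Fintype V] [DecidableEq V]

/-- restricted lines with at least three points -/
def rich (L : Finset (Finset V)) (A : Finset V) : Finset (Finset V) :=
  (L.image (fun l => l ∩ A)).filter (fun l => 3 ≤ l.card)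

lemma mem_rich {L : Finset (Finset V)} {A l : Finset V} (h : l ∈ rich L A) :
    ∃ a ∈ L, l = a ∩ A ∧ 3 ≤ l.card := by
  unfold rich at h
  rw [mem_filter, mem_image] at h
  obtain ⟨⟨a, ha, h1⟩, h2⟩ := h
  exact ⟨a, ha, h1.symm, h2⟩

lemma exists_third {l : Finset V} (h : 3 ≤ l.card) (x y : V) : ∃ u ∈ l, u ≠ x ∧ u ≠ y := by
  have h1 : 0 < ((l.erase x).erase y).card := by
    have h2 := pred_card_le_card_erase (s := l) (a := x)
    have h3 := pred_card_le_card_erase (s := l.erase x) (a := y)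
    omega
  obtain ⟨u, hu⟩ := card_pos.mp h1
  rw [mem_erase, mem_erase] at hu
  exact ⟨u, hu.2.2, hu.2.1, hu.1⟩

lemma card_bad_le {ι : Type*} [DecidableEq ι] (I : Finset ι) (Ss : ι → List (Finset V)) (g : ι → V)
    (ω : V → Bool) :
    ((((I.filter (fun i => lp (Ss i) ω ≠ 0)).image g).card : ℕ) : ℝ) ≤ ∑ i ∈ I, lp (Ss i) ω := by
  have h1 : ((((I.filter (fun i => lp (Ss i) ω ≠ 0)).image g).card : ℕ) : ℝ)
      ≤ ((I.filter (fun i => lp (Ss i) ω ≠ 0)).card : ℝ) := by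
    exact_mod_cast card_image_le
  refine h1.trans ?_
  have h2 : ((I.filter (fun i => lp (Ss i) ω ≠ 0)).card : ℝ)
      = ∑ i ∈ I.filter (fun i => lp (Ss i) ω ≠ 0), (1 : ℝ) := by simp
  rw [h2]
  calc ∑ i ∈ I.filter (fun i => lp (Ss i) ω ≠ 0), (1 : ℝ)
      ≤ ∑ i ∈ I.filter (fun i => lp (Ss i) ω ≠ 0), lp (Ss i) ω := by
        apply sum_le_sum
        intro i hi
        rw [mem_filter] at hi
        exact lp_ge_one hi.2
    _ ≤ ∑ i ∈ I, lp (Ss i) ω :=
        sum_le_sum_of_subset_of_nonneg (filter_subset _ _) (fun i _ _ => lp_nonneg _ _)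

/-- degree statistic -/
noncomputable def X5 (L : Finset (Finset V)) (Q : ℝ) (ω : V → Bool) : ℝ :=
  ∑ v, cnt {v} ω * ((∑ l ∈ Lv L v, ch2 (cnt (l.erase v) ω)) / Q)

/-- long lines statistic -/
noncomputable def X6 (L : Finset (Finset V)) (N D : ℝ) (ω : V → Bool) : ℝ :=
  ∑ l ∈ L, N * exp (-(D * Real.log 2)) * (2 : ℝ) ^ (smp ω ∩ l).card

lemma ch2_cnt_nonneg (s : Finset V) (ω : V → Bool) : 0 ≤ ch2 (cnt s ω) := by
  rw [cnt_eq]; exact ch2_nat_nonneg _

lemma E_X5_le (L : Finset (Finset V)) {B p Q : ℝ} (hp0 : 0 ≤ p) (hp1 : p ≤ 1) (hQ : 0 < Q)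
    (hB : ∀ v, ∑ l ∈ Lv L v, (l.card : ℝ) ^ 2 ≤ B) :
    E (ws p) (X5 L Q) ≤ p ^ 3 * (Fintype.card V : ℝ) * B / (2 * Q) := by
  have e : X5 L Q = fun ω => ∑ v : V, ∑ l ∈ Lv L v,
      (1 / Q) * (cnt {v} ω * ch2 (cnt (l.erase v) ω)) := by
    funext ω
    unfold X5
    apply sum_congr rfl
    intro v _
    rw [← mul_sum, ← mul_sum]
    ring
  rw [e, E_sum]
  have h1 : ∀ v : V, E (ws p) (fun ω => ∑ l ∈ Lv L v,
      (1 / Q) * (cnt {v} ω * ch2 (cnt (l.erase v) ω))) ≤ p ^ 3 * B / (2 * Q) := by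
    intro v
    rw [E_sum]
    have h2 : ∀ l ∈ Lv L v, E (ws p) (fun ω => (1 / Q) * (cnt {v} ω * ch2 (cnt (l.erase v) ω)))
        ≤ p ^ 3 / (2 * Q) * (l.card : ℝ) ^ 2 := by
      intro l hl
      rw [E_smul, E_mul (isProb_ws hp0 hp1) (dep_cnt {v})
        (Y := l.erase v) (g := fun ω => ch2 (cnt (l.erase v) ω))
        (fun ω ω' h => by simp only [dep_cnt (l.erase v) ω ω' h])
        (by rw [disjoint_singleton_left]; simp)]
      rw [E_cnt hp0 hp1, E_ch2_cnt hp0 hp1]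
      simp only [card_singleton, Nat.cast_one, mul_one]
      have h3 : ch2 ((l.erase v).card : ℝ) ≤ (l.card : ℝ) ^ 2 / 2 := by
        have h4 : ch2 ((l.erase v).card : ℝ) ≤ ch2 (l.card : ℝ) :=
          ch2_mono_nat (card_le_card (erase_subset _ _))
        unfold ch2 at h4 ⊢
        have : (0 : ℝ) ≤ l.card := Nat.cast_nonneg _
        nlinarith
      have h5 : (1 / Q) * (p * (p ^ 2 * ch2 ((l.erase v).card : ℝ)))
          ≤ (1 / Q) * (p * (p ^ 2 * ((l.card : ℝ) ^ 2 / 2))) := by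
        apply mul_le_mul_of_nonneg_left _ (by positivity)
        apply mul_le_mul_of_nonneg_left _ hp0
        exact mul_le_mul_of_nonneg_left h3 (by positivity)
      refine h5.trans (le_of_eq ?_)
      field_simp
    refine (sum_le_sum h2).trans ?_
    rw [← mul_sum]
    have h6 := mul_le_mul_of_nonneg_left (hB v) (show 0 ≤ p ^ 3 / (2 * Q) by positivity)
    refine h6.trans (le_of_eq ?_)
    field_simp
  calc _ ≤ ∑ v : V, p ^ 3 * B / (2 * Q) := sum_le_sum (fun v _ => h1 v)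
    _ = p ^ 3 * (Fintype.card V : ℝ) * B / (2 * Q) := by
        rw [sum_const, nsmul_eq_mul, card_univ]; ring

lemma E_X6_le (L : Finset (Finset V)) {p N D R : ℝ} (hp0 : 0 ≤ p) (hp1 : p ≤ 1) (hN : 0 ≤ N)
    (hR : ∀ l ∈ L, (l.card : ℝ) ≤ R) :
    E (ws p) (X6 L N D) ≤ N * (L.card : ℝ) * exp (p * R - D * Real.log 2) := by
  unfold X6
  rw [E_sum]
  have h1 : ∀ l ∈ L, E (ws p) (fun ω => N * exp (-(D * Real.log 2)) * (2 : ℝ) ^ (smp ω ∩ l).card)
      ≤ N * exp (p * R - D * Real.log 2) := by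
    intro l hl
    rw [E_smul, E_two_pow hp0 hp1]
    have h2 : (1 + p) ^ l.card ≤ exp (p * R) := by
      have h3 : (1 + p) ^ l.card ≤ exp p ^ l.card := by
        apply pow_le_pow_left₀ (by linarith)
        have := add_one_le_exp p
        linarith
      have h4 : exp p ^ l.card = exp ((l.card : ℝ) * p) := by rw [← exp_nat_mul]
      rw [h4] at h3
      refine h3.trans (exp_le_exp.mpr ?_)
      have := mul_le_mul_of_nonneg_right (hR l hl) hp0
      linarith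
    have h5 : exp (p * R - D * Real.log 2) = exp (-(D * Real.log 2)) * exp (p * R) := by
      rw [← exp_add]; congr 1; ring
    rw [h5, mul_assoc]
    apply mul_le_mul_of_nonneg_left _ hN
    exact mul_le_mul_of_nonneg_left h2 (exp_pos _).le
  refine (sum_le_sum h1).trans ?_
  rw [sum_const, nsmul_eq_mul]
  apply le_of_eq; ring

theorem exists_girth5 {L : Finset (Finset V)} (hL : Lin L) {B K p D Λ R : ℝ}
    (hp0 : 0 ≤ p) (hp1 : p ≤ 1) (hD : 0 < D) (hΛ : 0 < Λ)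
    (hK : ∀ x y, kap L x y ≤ K) (hK0 : 0 ≤ K) (hB0 : 0 ≤ B)
    (hB : ∀ v, ∑ l ∈ Lv L v, (l.card : ℝ) ^ 2 ≤ B) (hR : ∀ l ∈ L, (l.card : ℝ) ≤ R) :
    ∃ A : Finset V, Girth5 (rich L A) ∧ (∀ l ∈ rich L A, ((A ∩ l).card : ℝ) ≤ D) ∧
      (∀ v ∈ A, ∑ l ∈ Lv (rich L A) v, ch2 ((XX A l v).card : ℝ) ≤ D ^ 2 * Λ) ∧
      p * (Fintype.card V : ℝ) - (p ^ 6 * (K * ((Fintype.card V : ℝ) * B))
        + p ^ 8 * (K * ((Fintype.card V : ℝ) * B ^ 2))
        + p ^ 3 * (Fintype.card V : ℝ) * B / (2 * (D ^ 2 * Λ))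
        + (Fintype.card V : ℝ) * (L.card : ℝ) * exp (p * R - D * Real.log 2)) ≤ (A.card : ℝ) := by
  classical
  set N : ℝ := (Fintype.card V : ℝ) with hN
  have hN0 : 0 ≤ N := Nat.cast_nonneg _
  have hQ : 0 < D ^ 2 * Λ := by positivity
  have hw : IsProb (ws p : V → Bool → ℝ) := isProb_ws hp0 hp1
  obtain ⟨ω, hω⟩ := exists_ge_E hw (fun ω => cnt univ ω - ((∑ i ∈ I3 L, lp (Ss3 i) ω)
    + (∑ i ∈ I4 L, lp (Ss4 i) ω) + X5 L (D ^ 2 * Λ) ω + X6 L N D ω))
  rw [E_sub, E_add, E_add, E_add, E_cnt hp0 hp1] at hω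
  have hE3 := E_X3_le hL hp0 hp1 hK hK0 hB
  have hE4 := E_X4_le hL hp0 hp1 hK hK0 hB0 hB
  have hE5 := E_X5_le L hp0 hp1 hQ hB
  have hE6 := E_X6_le L (D := D) hp0 hp1 hN0 hR
  set V' := smp ω with hV'
  set b3 := ((I3 L).filter (fun i => lp (Ss3 i) ω ≠ 0)).image (fun i => i.1.1) with hb3
  set b4 := ((I4 L).filter (fun i => lp (Ss4 i) ω ≠ 0)).image (fun i => i.1.1) with hb4
  set b5 := V'.filter (fun v => D ^ 2 * Λ < ∑ l ∈ Lv L v, ch2 (cnt (l.erase v) ω)) with hb5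
  set b6 := (L.filter (fun l => D < ((V' ∩ l).card : ℝ))).biUnion (fun l => V' ∩ l) with hb6
  set A := V' \ (b3 ∪ b4 ∪ b5 ∪ b6) with hA
  have hAV : A ⊆ V' := sdiff_subset
  have hA3 : ∀ v ∈ A, v ∉ b3 := by
    intro v hv h
    rw [hA, mem_sdiff] at hv
    exact hv.2 (mem_union_left _ (mem_union_left _ (mem_union_left _ h)))
  have hA4 : ∀ v ∈ A, v ∉ b4 := by
    intro v hv h
    rw [hA, mem_sdiff] at hv
    exact hv.2 (mem_union_left _ (mem_union_left _ (mem_union_right _ h)))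
  have hA5 : ∀ v ∈ A, v ∉ b5 := by
    intro v hv h
    rw [hA, mem_sdiff] at hv
    exact hv.2 (mem_union_left _ (mem_union_right _ h))
  have hA6 : ∀ v ∈ A, v ∉ b6 := by
    intro v hv h
    rw [hA, mem_sdiff] at hv
    exact hv.2 (mem_union_right _ h)
  -- triangle free
  have hlin : ∀ a ∈ rich L A, ∀ b ∈ rich L A, ∀ x y : V, x ≠ y → x ∈ a → y ∈ a → x ∈ b → y ∈ b →
      a = b := by
    intro a' ha' b' hb' x y hxy h1 h2 h3 h4
    obtain ⟨a, ha, rfl, _⟩ := mem_rich ha'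
    obtain ⟨b, hb, rfl, _⟩ := mem_rich hb'
    rw [mem_inter] at h1 h2 h3 h4
    rw [hL a ha b hb x y hxy h1.1 h2.1 h3.1 h4.1]
  have htri : ∀ a ∈ rich L A, ∀ b ∈ rich L A, ∀ c ∈ rich L A, ∀ x y z : V,
      x ≠ y → y ≠ z → z ≠ x → x ∈ a → y ∈ a → y ∈ b → z ∈ b → z ∈ c → x ∈ c → a = b := by
    intro a' ha' b' hb' c' hc' x y z hxy hyz hzx h1 h2 h3 h4 h5 h6
    by_contra hab'
    have hbc' : b' ≠ c' := by
      rintro rfl
      exact hab' (hlin a' ha' b' hb' x y hxy h1 h2 h6 h3)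
    have hca' : c' ≠ a' := by
      rintro rfl
      exact hab' (hlin c' ha' b' hb' y z hyz h2 h5 h3 h4)
    obtain ⟨a, ha, hae, ha3⟩ := mem_rich ha'
    obtain ⟨b, hb, hbe, hb3'⟩ := mem_rich hb'
    obtain ⟨c, hc, hce, hc3⟩ := mem_rich hc'
    obtain ⟨u1, hu1, hu1x, hu1y⟩ := exists_third ha3 x y
    obtain ⟨u2, hu2, hu2y, hu2z⟩ := exists_third hb3' y z
    obtain ⟨u3, hu3, hu3z, hu3x⟩ := exists_third hc3 z x
    subst hae hbe hce
    rw [mem_inter] at h1 h2 h3 h4 h5 h6 hu1 hu2 hu3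
    have hab : a ≠ b := fun h => hab' (by rw [h])
    have hbc : b ≠ c := fun h => hbc' (by rw [h])
    have hca : c ≠ a := fun h => hca' (by rw [h])
    apply hA3 x h1.2
    rw [hb3, mem_image]
    refine ⟨((x, y, z), (a, b, c)), ?_, rfl⟩
    rw [mem_filter]
    constructor
    · unfold I3
      rw [mem_filter]
      refine ⟨by simp [ha, hb, hc], ?_⟩
      exact ⟨hxy, hyz, hzx, h1.1, h2.1, h3.1, h4.1, h5.1, h6.1, hab, hbc, hca⟩
    · apply lp_pos_of
      unfold Ss3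
      simp only [List.mem_cons, List.not_mem_nil, or_false, forall_eq_or_imp, forall_eq]
      refine ⟨⟨x, ?_⟩, ⟨y, ?_⟩, ⟨z, ?_⟩, ⟨u1, ?_⟩, ⟨u2, ?_⟩, ⟨u3, ?_⟩⟩
      · exact mem_inter.mpr ⟨hAV h1.2, mem_singleton_self _⟩
      · exact mem_inter.mpr ⟨hAV h2.2, mem_singleton_self _⟩
      · exact mem_inter.mpr ⟨hAV h4.2, mem_singleton_self _⟩
      · exact mem_inter.mpr ⟨hAV hu1.2, mem_erase.mpr ⟨hu1y, mem_erase.mpr ⟨hu1x, hu1.1⟩⟩⟩
      · exact mem_inter.mpr ⟨hAV hu2.2, mem_erase.mpr ⟨hu2z, mem_erase.mpr ⟨hu2y, hu2.1⟩⟩⟩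
      · exact mem_inter.mpr ⟨hAV hu3.2, mem_erase.mpr ⟨hu3x, mem_erase.mpr ⟨hu3z, hu3.1⟩⟩⟩
  refine ⟨A, ⟨hlin, htri, ?_⟩, ?_, ?_, ?_⟩
  · -- no four-cycles
    intro a' ha' b' hb' c' hc' d' hd' x y z t hxy hyz hzt htx hxz hyt h1 h2 h3 h4 h5 h6 h7 h8
      hab' hbc' hcd' hda'
    obtain ⟨a, ha, hae, ha3⟩ := mem_rich ha'
    obtain ⟨b, hb, hbe, hb3'⟩ := mem_rich hb'
    obtain ⟨c, hc, hce, hc3⟩ := mem_rich hc'
    obtain ⟨d, hd, hde, hd3⟩ := mem_rich hd'
    obtain ⟨u1, hu1, hu1x, hu1y⟩ := exists_third ha3 x y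
    obtain ⟨u2, hu2, hu2y, hu2z⟩ := exists_third hb3' y z
    obtain ⟨u3, hu3, hu3z, hu3t⟩ := exists_third hc3 z t
    obtain ⟨u4, hu4, hu4t, hu4x⟩ := exists_third hd3 t x
    -- intersection facts
    have hu1c : u1 ∉ c' := by
      intro h
      have hu1z : z ≠ u1 := by
        rintro rfl
        exact hab' (hlin a' ha' b' hb' y z hyz h2 hu1 h3 h4)
      exact hab' (htri a' ha' b' hb' c' hc' u1 y z hu1y hyz hu1z hu1 h2 h3 h4 h5 h)
    have hu2d : u2 ∉ d' := by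
      intro h
      have hu2t : t ≠ u2 := by
        rintro rfl
        exact hbc' (hlin b' hb' c' hc' z t hzt h4 hu2 h5 h6)
      exact hbc' (htri b' hb' c' hc' d' hd' u2 z t hu2z hzt hu2t hu2 h4 h5 h6 h7 h)
    have hu3a : u3 ∉ a' := by
      intro h
      have hu3x : x ≠ u3 := by
        rintro rfl
        exact hcd' (hlin c' hc' d' hd' t x htx h6 hu3 h7 h8)
      exact hcd' (htri c' hc' d' hd' a' ha' u3 t x hu3t htx hu3x hu3 h6 h7 h8 h1 h)
    have hu4b : u4 ∉ b' := by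
      intro h
      have hu4y : y ≠ u4 := by
        rintro rfl
        exact hda' (hlin d' hd' a' ha' x y hxy h8 hu4 h1 h2)
      exact hda' (htri d' hd' a' ha' b' hb' u4 x y hu4x hxy hu4y hu4 h8 h1 h2 h3 h)
    subst hae hbe hce hde
    rw [mem_inter] at h1 h2 h3 h4 h5 h6 h7 h8 hu1 hu2 hu3 hu4 hu1c hu2d hu3a hu4b
    have hab : a ≠ b := fun h => hab' (by rw [h])
    have hbc : b ≠ c := fun h => hbc' (by rw [h])
    have hcd : c ≠ d := fun h => hcd' (by rw [h])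
    have hda : d ≠ a := fun h => hda' (by rw [h])
    apply hA4 x h1.2
    rw [hb4, mem_image]
    refine ⟨((x, y, z, t), (a, b, c, d)), ?_, rfl⟩
    rw [mem_filter]
    constructor
    · unfold I4
      rw [mem_filter]
      refine ⟨by simp [ha, hb, hc, hd], ?_⟩
      exact ⟨hxy, hyz, hzt, htx, hxz, hyt, h1.1, h2.1, h3.1, h4.1, h5.1, h6.1, h7.1, h8.1,
        hab, hbc, hcd, hda⟩
    · apply lp_pos_of
      unfold Ss4
      simp only [List.mem_cons, List.not_mem_nil, or_false, forall_eq_or_imp, forall_eq]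
      refine ⟨⟨x, ?_⟩, ⟨y, ?_⟩, ⟨z, ?_⟩, ⟨t, ?_⟩, ⟨u1, ?_⟩, ⟨u2, ?_⟩, ⟨u3, ?_⟩, ⟨u4, ?_⟩⟩
      · exact mem_inter.mpr ⟨hAV h1.2, mem_singleton_self _⟩
      · exact mem_inter.mpr ⟨hAV h2.2, mem_singleton_self _⟩
      · exact mem_inter.mpr ⟨hAV h4.2, mem_singleton_self _⟩
      · exact mem_inter.mpr ⟨hAV h6.2, mem_singleton_self _⟩
      · exact mem_inter.mpr ⟨hAV hu1.2, mem_erase.mpr ⟨hu1y, mem_erase.mpr ⟨hu1x,
          mem_sdiff.mpr ⟨hu1.1, fun h => hu1c ⟨h, hu1.2⟩⟩⟩⟩⟩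
      · exact mem_inter.mpr ⟨hAV hu2.2, mem_erase.mpr ⟨hu2z, mem_erase.mpr ⟨hu2y,
          mem_sdiff.mpr ⟨hu2.1, fun h => hu2d ⟨h, hu2.2⟩⟩⟩⟩⟩
      · exact mem_inter.mpr ⟨hAV hu3.2, mem_erase.mpr ⟨hu3t, mem_erase.mpr ⟨hu3z,
          mem_sdiff.mpr ⟨hu3.1, fun h => hu3a ⟨h, hu3.2⟩⟩⟩⟩⟩
      · exact mem_inter.mpr ⟨hAV hu4.2, mem_erase.mpr ⟨hu4x, mem_erase.mpr ⟨hu4t,
          mem_sdiff.mpr ⟨hu4.1, fun h => hu4b ⟨h, hu4.2⟩⟩⟩⟩⟩
  · -- line sizes
    intro l hl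
    obtain ⟨a, ha, hae, ha3⟩ := mem_rich hl
    by_contra hcon
    push Not at hcon
    have h1 : A ∩ l ⊆ V' ∩ a := by
      intro u hu
      rw [mem_inter] at hu
      rw [hae, mem_inter] at hu
      exact mem_inter.mpr ⟨hAV hu.1, hu.2.1⟩
    have h2 : D < ((V' ∩ a).card : ℝ) := lt_of_lt_of_le hcon (by exact_mod_cast card_le_card h1)
    have h3 : 0 < l.card := by omega
    obtain ⟨u, hu⟩ := card_pos.mp h3
    rw [hae, mem_inter] at hu
    apply hA6 u hu.2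
    rw [hb6, mem_biUnion]
    exact ⟨a, mem_filter.mpr ⟨ha, h2⟩, mem_inter.mpr ⟨hAV hu.2, hu.1⟩⟩
  · -- degrees
    intro v hv
    have h1 : ¬ D ^ 2 * Λ < ∑ l ∈ Lv L v, ch2 (cnt (l.erase v) ω) := by
      intro h
      apply hA5 v hv
      rw [hb5, mem_filter]
      exact ⟨hAV hv, h⟩
    push Not at h1
    refine le_trans ?_ h1
    have h2 : Lv (rich L A) v ⊆ (Lv L v).image (fun l => l ∩ A) := by
      intro l hl
      rw [mem_Lv] at hl
      obtain ⟨a, ha, hae, _⟩ := mem_rich hl.1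
      rw [mem_image]
      refine ⟨a, mem_Lv.mpr ⟨ha, ?_⟩, hae.symm⟩
      have := hl.2
      rw [hae, mem_inter] at this
      exact this.1
    calc ∑ l ∈ Lv (rich L A) v, ch2 ((XX A l v).card : ℝ)
        ≤ ∑ l ∈ (Lv L v).image (fun l => l ∩ A), ch2 ((XX A l v).card : ℝ) :=
          sum_le_sum_of_subset_of_nonneg h2 (fun l _ _ => ch2_nat_nonneg _)
      _ ≤ ∑ l ∈ Lv L v, ch2 ((XX A (l ∩ A) v).card : ℝ) :=
          sum_image_le_of_nonneg (fun l _ => ch2_nat_nonneg _)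
      _ ≤ ∑ l ∈ Lv L v, ch2 (cnt (l.erase v) ω) := by
          apply sum_le_sum
          intro l _
          rw [cnt_eq]
          apply ch2_mono_nat
          apply card_le_card
          intro u hu
          unfold XX at hu
          rw [mem_erase, mem_inter, mem_inter] at hu
          exact mem_inter.mpr ⟨hAV hu.2.1, mem_erase.mpr ⟨hu.1, hu.2.2.1⟩⟩
  · -- size
    have h3 : ((b3.card : ℕ) : ℝ) ≤ ∑ i ∈ I3 L, lp (Ss3 i) ω := card_bad_le _ _ _ ω
    have h4 : ((b4.card : ℕ) : ℝ) ≤ ∑ i ∈ I4 L, lp (Ss4 i) ω := card_bad_le _ _ _ ω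
    have h5 : ((b5.card : ℕ) : ℝ) ≤ X5 L (D ^ 2 * Λ) ω := by
      have h6 : ((b5.card : ℕ) : ℝ) = ∑ v ∈ b5, (1 : ℝ) := by simp
      rw [h6]
      unfold X5
      calc ∑ v ∈ b5, (1 : ℝ)
          ≤ ∑ v ∈ b5, cnt {v} ω * ((∑ l ∈ Lv L v, ch2 (cnt (l.erase v) ω)) / (D ^ 2 * Λ)) := by
            apply sum_le_sum
            intro v hv
            rw [hb5, mem_filter] at hv
            have h7 : cnt {v} ω = 1 := by
              unfold cnt
              rw [sum_singleton, if_pos (mem_smp.mp hv.1)]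
            rw [h7, one_mul, le_div_iff₀ hQ]
            linarith [hv.2]
        _ ≤ ∑ v, cnt {v} ω * ((∑ l ∈ Lv L v, ch2 (cnt (l.erase v) ω)) / (D ^ 2 * Λ)) := by
            apply sum_le_sum_of_subset_of_nonneg (subset_univ _)
            intro v _ _
            exact mul_nonneg (cnt_nonneg _ _) (div_nonneg (sum_nonneg
              (fun l _ => ch2_cnt_nonneg _ ω)) hQ.le)
    have h6 : ((b6.card : ℕ) : ℝ) ≤ X6 L N D ω := by
      have h7 : ((b6.card : ℕ) : ℝ)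
          ≤ ∑ l ∈ L.filter (fun l => D < ((V' ∩ l).card : ℝ)), ((V' ∩ l).card : ℝ) := by
        have := card_biUnion_le (s := L.filter (fun l => D < ((V' ∩ l).card : ℝ)))
          (t := fun l => V' ∩ l)
        exact_mod_cast this
      refine h7.trans ?_
      unfold X6
      calc ∑ l ∈ L.filter (fun l => D < ((V' ∩ l).card : ℝ)), ((V' ∩ l).card : ℝ)
          ≤ ∑ l ∈ L.filter (fun l => D < ((V' ∩ l).card : ℝ)),
            N * exp (-(D * Real.log 2)) * (2 : ℝ) ^ (V' ∩ l).card := by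
            apply sum_le_sum
            intro l hl
            rw [mem_filter] at hl
            have h8 : ((V' ∩ l).card : ℝ) ≤ N := by
              rw [hN]
              exact_mod_cast card_le_univ _
            have h9 : 1 ≤ exp (-(D * Real.log 2)) * (2 : ℝ) ^ (V' ∩ l).card := by
              have h10 : (2 : ℝ) ^ (V' ∩ l).card = exp (((V' ∩ l).card : ℝ) * Real.log 2) := by
                rw [exp_nat_mul, Real.exp_log (by norm_num)]
              rw [h10, ← exp_add]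
              apply one_le_exp
              have h11 : 0 < Real.log 2 := Real.log_pos (by norm_num)
              nlinarith [hl.2]
            calc ((V' ∩ l).card : ℝ) ≤ N * 1 := by linarith
              _ ≤ N * (exp (-(D * Real.log 2)) * (2 : ℝ) ^ (V' ∩ l).card) :=
                  mul_le_mul_of_nonneg_left h9 hN0
              _ = _ := by ring
        _ ≤ ∑ l ∈ L, N * exp (-(D * Real.log 2)) * (2 : ℝ) ^ (V' ∩ l).card := by
            apply sum_le_sum_of_subset_of_nonneg (filter_subset _ _)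
            intro l _ _
            positivity
    have h7 : (V'.card : ℝ) ≤ A.card + (b3.card + b4.card + b5.card + b6.card) := by
      have h10 : V' ⊆ A ∪ (b3 ∪ b4 ∪ b5 ∪ b6) := by
        intro v hv
        by_cases h : v ∈ b3 ∪ b4 ∪ b5 ∪ b6
        · exact mem_union_right _ h
        · exact mem_union_left _ (by rw [hA, mem_sdiff]; exact ⟨hv, h⟩)
      have h11 := card_le_card h10
      have h12 := card_union_le A (b3 ∪ b4 ∪ b5 ∪ b6)
      have h13 := card_union_le (b3 ∪ b4 ∪ b5) b6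
      have h14 := card_union_le (b3 ∪ b4) b5
      have h15 := card_union_le b3 b4
      have : V'.card ≤ A.card + (b3.card + b4.card + b5.card + b6.card) := by omega
      exact_mod_cast this
    have h8 : cnt univ ω = (V'.card : ℝ) := by
      rw [cnt_eq, inter_univ]
    rw [card_univ, ← hN] at hω
    rw [h8] at hω
    linarith

end Extract

end Pool.Agent.Lib.MP_0c755a_co
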